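import Mathlib

set_option autoImplicit false

namespace Pool.Agent.Work.MP_67388f_an

open Matrix Filter Topology

variable {n : ℕ}

/-- The unipotent matrix `1 + a bᵀ`, with `b · a = 0`. -/
def rk (a b : Fin n → ℝ) (h : b ⬝ᵥ a = 0) : SpecialLinearGroup (Fin n) ℝ :=
  ⟨1 + vecMulVec a b, by
    rw [vecMulVec_eq Unit, det_one_add_replicateCol_mul_replicateRow, h, add_zero]⟩

lemma rk_coe (a b : Fin n → ℝ) (h : b ⬝ᵥ a = 0) :
    (rk a b h : Matrix (Fin n) (Fin n) ℝ) = 1 + vecMulVec a b := rfl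

lemma rk_mul (a b b' : Fin n → ℝ) (h : b ⬝ᵥ a = 0) (h' : b' ⬝ᵥ a = 0)
    (h'' : (b + b') ⬝ᵥ a = 0) : rk a b h * rk a b' h' = rk a (b + b') h'' := by
  apply Subtype.ext
  show (1 + vecMulVec a b) * (1 + vecMulVec a b') = 1 + vecMulVec a (b + b')
  have e : vecMulVec a b * vecMulVec a b' = 0 := by
    rw [vecMulVec_mul_vecMulVec, h, zero_smul]
    ext i j; simp [vecMulVec_apply]
  rw [add_mul, one_mul, mul_add, mul_one, e, add_zero, vecMulVec_add]
  abel

lemma rk_congr {a b a' b' : Fin n → ℝ} {h : b ⬝ᵥ a = 0} {h' : b' ⬝ᵥ a' = 0}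
    (e : vecMulVec a b = vecMulVec a' b') : rk a b h = rk a' b' h' := by
  apply Subtype.ext
  show 1 + vecMulVec a b = 1 + vecMulVec a' b'
  rw [e]

/-- diagonal matrices with prescribed logarithms -/
noncomputable def dg (t : Fin n → ℝ) (h : ∑ i, t i = 0) : SpecialLinearGroup (Fin n) ℝ :=
  ⟨diagonal (fun i => Real.exp (t i)), by
    rw [det_diagonal, ← Real.exp_sum, h, Real.exp_zero]⟩

lemma dg_coe (t : Fin n → ℝ) (h : ∑ i, t i = 0) :
    (dg t h : Matrix (Fin n) (Fin n) ℝ) = diagonal (fun i => Real.exp (t i)) := rfl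

/-- commutation of a diagonal matrix with a rank one unipotent -/
lemma dg_rk (t : Fin n → ℝ) (ht : ∑ i, t i = 0) (a b a' b' : Fin n → ℝ) (h : b ⬝ᵥ a = 0)
    (h' : b' ⬝ᵥ a' = 0)
    (e : ∀ k l, Real.exp (t k) * (a k * b l) = a' k * b' l * Real.exp (t l)) :
    dg t ht * rk a b h = rk a' b' h' * dg t ht := by
  apply Subtype.ext
  show diagonal (fun i => Real.exp (t i)) * (1 + vecMulVec a b)
    = (1 + vecMulVec a' b') * diagonal (fun i => Real.exp (t i))
  rw [mul_add, add_mul, mul_one, one_mul]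
  congr 1
  ext k l
  rw [diagonal_mul, mul_diagonal, vecMulVec_apply, vecMulVec_apply]
  exact e k l

/-- exponents of the diagonal element attached to an index -/
noncomputable def tau (i : Fin n) (s : ℝ) : Fin n → ℝ := fun k => (if k = i then (n : ℝ) * s else 0) - s

lemma tau_sum (i : Fin n) (s : ℝ) : ∑ k, tau i s k = 0 := by
  unfold tau
  rw [Finset.sum_sub_distrib, Finset.sum_ite_eq' Finset.univ i]
  simp

lemma tau_self (i : Fin n) (s : ℝ) : tau i s i = n * s - s := by simp [tau]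

lemma tau_ne {i k : Fin n} (s : ℝ) (h : k ≠ i) : tau i s k = - s := by simp [tau, h]

/-- The key decomposition. -/
lemma decomp (g : SpecialLinearGroup (Fin n) ℝ) (i j k : Fin n) (hki : k ≠ i)
    (h1 : (g⁻¹ : SpecialLinearGroup (Fin n) ℝ) j i ≠ 0)
    (h2 : (g⁻¹ : SpecialLinearGroup (Fin n) ℝ) j k ≠ 0) :
    ∃ (x y : Fin n → ℝ) (m : SpecialLinearGroup (Fin n) ℝ) (z : ℝ),
      x i = 0 ∧ y i = 0 ∧ x ≠ 0 ∧ z ≠ 0 ∧ (∀ l, l ≠ j → m i l = 0) ∧ (∀ l, l ≠ i → m l j = 0) ∧
      m i j = z ∧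
      ∀ (hx : x ⬝ᵥ (Pi.single i 1) = 0) (hy : (Pi.single i 1) ⬝ᵥ y = 0),
        g = rk (Pi.single i 1) x hx * (rk y (Pi.single i 1) hy * m) := by
  classical
  set K : Matrix (Fin n) (Fin n) ℝ := (g⁻¹ : SpecialLinearGroup (Fin n) ℝ).1 with hK
  have hKg : K * g.1 = 1 := by
    have h := congrArg Subtype.val (inv_mul_cancel g)
    exact h
  have hKji : K j i ≠ 0 := h1
  have hKjk : K j k ≠ 0 := h2
  let x : Fin n → ℝ := fun l => (if l = i then 1 else 0) - (K j i)⁻¹ * K j l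
  let y : Fin n → ℝ := fun l => if l = i then 0 else g.1 l j * K j i
  have hxi : x i = 0 := by simp [x, hKji]
  have hyi : y i = 0 := by simp [y]
  have hx : x ⬝ᵥ (Pi.single i 1) = 0 := by
    rw [dotProduct_single, hxi, zero_mul]
  have hx' : (-x) ⬝ᵥ (Pi.single i 1) = 0 := by rw [neg_dotProduct, hx, neg_zero]
  have hy : (Pi.single i 1) ⬝ᵥ y = 0 := by
    rw [single_dotProduct, hyi, mul_zero]
  have hy' : (-(Pi.single i (1 : ℝ)) : Fin n → ℝ) ⬝ᵥ y = 0 := by rw [neg_dotProduct, hy, neg_zero]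
  let m : SpecialLinearGroup (Fin n) ℝ :=
    rk y (-(Pi.single i 1)) hy' * (rk (Pi.single i 1) (-x) hx' * g)
  -- xᵀ g
  have hxg : ∀ l, (x ᵥ* g.1) l = g.1 i l - (K j i)⁻¹ * (if j = l then 1 else 0) := by
    intro l
    have e1 : (x ᵥ* g.1) l = ∑ r, x r * g.1 r l := rfl
    have e2 : ∑ r, K j r * g.1 r l = (if j = l then 1 else 0) := by
      have := congrFun (congrFun hKg j) l
      rw [mul_apply] at this
      rw [this, one_apply]
    rw [e1]
    simp only [x, sub_mul, Finset.sum_sub_distrib, ite_mul, one_mul, zero_mul]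
    rw [Finset.sum_ite_eq' Finset.univ i]
    simp only [Finset.mem_univ, if_true]
    rw [← e2, Finset.mul_sum]
    congr 1
    refine Finset.sum_congr rfl fun r _ => ?_
    ring
  have hG' : ∀ r l, ((rk (Pi.single i 1) (-x) hx' * g : SpecialLinearGroup (Fin n) ℝ)).1 r l
      = g.1 r l - (if r = i then 1 else 0) * (x ᵥ* g.1) l := by
    intro r l
    show ((1 + vecMulVec (Pi.single i 1) (-x)) * g.1) r l = _
    rw [add_mul, one_mul, vecMulVec_mul, Matrix.add_apply, vecMulVec_apply, neg_vecMul,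
      Pi.neg_apply, Pi.single_apply]
    ring
  have hm : ∀ r l, m.1 r l = ((rk (Pi.single i 1) (-x) hx' * g : SpecialLinearGroup (Fin n) ℝ)).1 r l
      - y r * ((rk (Pi.single i 1) (-x) hx' * g : SpecialLinearGroup (Fin n) ℝ)).1 i l := by
    intro r l
    show ((1 + vecMulVec y (-(Pi.single i 1)))
      * (rk (Pi.single i 1) (-x) hx' * g : SpecialLinearGroup (Fin n) ℝ).1) r l = _
    rw [add_mul, one_mul, vecMulVec_mul, Matrix.add_apply, vecMulVec_apply, neg_vecMul,
      Pi.neg_apply, single_one_vecMul, row_apply]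
    ring
  have hrow : ∀ l, ((rk (Pi.single i 1) (-x) hx' * g : SpecialLinearGroup (Fin n) ℝ)).1 i l
      = (K j i)⁻¹ * (if j = l then 1 else 0) := by
    intro l
    rw [hG', hxg]
    simp
  refine ⟨x, y, m, (K j i)⁻¹, hxi, hyi, ?_, inv_ne_zero hKji, ?_, ?_, ?_, ?_⟩
  · intro h0
    have := congrFun h0 k
    simp only [x, if_neg hki, zero_sub, Pi.zero_apply, neg_eq_zero, mul_eq_zero, inv_eq_zero] at this
    exact this.elim hKji hKjk
  · intro l hl
    show m.1 i l = 0
    rw [hm, hrow, hyi, if_neg (fun h => hl h.symm)]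
    ring
  · intro l hl
    show m.1 l j = 0
    rw [hm, hrow, if_pos rfl, hG', if_neg hl]
    simp only [y, if_neg hl]
    field_simp
    ring
  · show m.1 i j = _
    rw [hm, hrow, hyi, if_pos rfl]
    ring
  · intro hx2 hy2
    have e1 : rk (Pi.single i 1) x hx2 * rk (Pi.single i 1) (-x) hx' = 1 := by
      rw [rk_mul _ _ _ hx2 hx' (by simp)]
      apply Subtype.ext
      show 1 + vecMulVec (Pi.single i 1) (x + -x) = 1
      rw [add_neg_cancel, vecMulVec_zero, add_zero]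
    have e2 : rk y (Pi.single i 1) hy2 * rk y (-(Pi.single i 1)) hy' = 1 := by
      rw [rk_mul _ _ _ hy2 hy' (by simp)]
      apply Subtype.ext
      show 1 + vecMulVec y (Pi.single i 1 + -(Pi.single i 1)) = 1
      rw [add_neg_cancel, vecMulVec_zero, add_zero]
    show g = rk (Pi.single i 1) x hx2 * (rk y (Pi.single i 1) hy2 *
      (rk y (-(Pi.single i 1)) hy' * (rk (Pi.single i 1) (-x) hx' * g)))
    rw [← mul_assoc (rk y (Pi.single i 1) hy2), e2, one_mul, ← mul_assoc, e1, one_mul]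

end Pool.Agent.Work.MP_67388f_an
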