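import Pool.Agent.Work.MP_67388f_an.Pair

set_option autoImplicit false

namespace Pool.Agent.Work.MP_67388f_an

open Filter Topology Set MeasureTheory
open scoped ENNReal

section kappa

/-- the reference density on the line -/
noncomputable def rho (x : ℝ) : ℝ≥0∞ := ENNReal.ofReal (Real.exp (-|x|))

lemma rho_meas : Measurable rho := by
  unfold rho
  fun_prop

lemma rho_pos (x : ℝ) : rho x ≠ 0 := by
  unfold rho
  rw [Ne, ENNReal.ofReal_eq_zero, not_le]
  exact Real.exp_pos _

lemma rho_shift (x s : ℝ) : rho (x - s) ≤ ENNReal.ofReal (Real.exp |s|) * rho x := by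
  unfold rho
  rw [← ENNReal.ofReal_mul (Real.exp_pos _).le, ← Real.exp_add]
  apply ENNReal.ofReal_le_ofReal
  apply Real.exp_le_exp.2
  have : |x| ≤ |x - s| + |s| := by
    calc |x| = |(x - s) + s| := by ring_nf
      _ ≤ |x - s| + |s| := abs_add_le _ _
  linarith

lemma rho_total : (∫⁻ x, rho x) ≠ ∞ := by
  have h : Integrable (fun x : ℝ => Real.exp (-|x|)) := by
    rw [← integrableOn_univ, ← Iic_union_Ioi (a := (0 : ℝ))]
    refine IntegrableOn.union ?_ ?_
    · refine (integrableOn_exp_Iic 0).congr_fun (fun x hx => ?_) measurableSet_Iic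
      show Real.exp x = Real.exp (-|x|)
      rw [abs_of_nonpos hx, neg_neg]
    · refine (integrableOn_exp_neg_Ioi 0).congr_fun (fun x hx => ?_) measurableSet_Ioi
      show Real.exp (-x) = Real.exp (-|x|)
      rw [abs_of_pos hx]
  exact h.lintegral_lt_top.ne

variable {X : Type*} [MeasurableSpace X] {G : Type*} [Group G] [MulAction G X]

/-- the average of the translates of `μ` along a one-parameter family, weighted by `rho` -/
noncomputable def kap (μ : Measure X) (u : ℝ → G) : Measure X :=
  ((volume.withDensity rho).prod μ).map (fun p => u p.1 • p.2)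

end kappa

section kap

variable {X : Type*} [TopologicalSpace X]
  [SecondCountableTopology X] [MeasurableSpace X] [BorelSpace X]
variable {G : Type*} [Group G] [TopologicalSpace G] [MulAction G X]
  [ContinuousSMul G X]

lemma phi_meas (u : ℝ → G) (hu : Continuous u) :
    Measurable (fun p : ℝ × X => u p.1 • p.2) := by
  have : Continuous (fun p : ℝ × X => u p.1 • p.2) := by fun_prop
  exact this.measurable

instance : IsFiniteMeasure (volume.withDensity rho) :=
  isFiniteMeasure_withDensity rho_total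

instance (μ : Measure X) [IsFiniteMeasure μ] (u : ℝ → G) : IsFiniteMeasure (kap μ u) := by
  unfold kap
  exact Measure.isFiniteMeasure_map _ _

lemma slice_meas (μ : Measure X) [IsFiniteMeasure μ] (u : ℝ → G) (hu : Continuous u) {E : Set X}
    (hE : MeasurableSet E) : Measurable (fun x => μ ((fun z => u x • z) ⁻¹' E)) := by
  have : MeasurableSet {p : ℝ × X | u p.1 • p.2 ∈ E} := phi_meas u hu hE
  exact measurable_measure_prodMk_left this

lemma slice_meas' (μ : Measure X) [IsFiniteMeasure μ] (u : ℝ → G) (hu : Continuous u) {E : Set X}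
    (hE : MeasurableSet E) : Measurable (fun x => rho x * μ ((fun z => u x • z) ⁻¹' E)) :=
  rho_meas.mul (slice_meas μ u hu hE)

lemma kap_apply (μ : Measure X) [IsFiniteMeasure μ] (u : ℝ → G) (hu : Continuous u) {E : Set X}
    (hE : MeasurableSet E) :
    kap μ u E = ∫⁻ x, rho x * μ ((fun z => u x • z) ⁻¹' E) := by
  unfold kap
  rw [Measure.map_apply (phi_meas u hu) hE, Measure.prod_apply (phi_meas u hu hE),
    lintegral_withDensity_eq_lintegral_mul _ rho_meas]
  · rfl
  · exact slice_meas μ u hu hE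

lemma kap_null (μ : Measure X) [IsFiniteMeasure μ] (u : ℝ → G) (hu : Continuous u) {E : Set X}
    (hE : MeasurableSet E) :
    kap μ u E = 0 ↔ ∀ᵐ x : ℝ, μ ((fun z => u x • z) ⁻¹' E) = 0 := by
  rw [kap_apply μ u hu hE, lintegral_eq_zero_iff (slice_meas' μ u hu hE)]
  constructor
  · intro h
    filter_upwards [h] with x hx
    simp only [Pi.zero_apply, mul_eq_zero] at hx
    exact hx.resolve_left (rho_pos x)
  · intro h
    filter_upwards [h] with x hx
    simp [hx]

/-- translating along the family changes `kap` by a bounded factor -/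
lemma kap_shift (μ : Measure X) [IsFiniteMeasure μ] (u : ℝ → G) (hu : Continuous u)
    (hadd : ∀ x y, u (x + y) = u x * u y) (s : ℝ) :
    (kap μ u).map (fun z => u s • z) ≤ ENNReal.ofReal (Real.exp |s|) • kap μ u := by
  rw [Measure.le_iff]
  intro E hE
  rw [Measure.map_apply (smul_measurable (u s)) hE, kap_apply μ u hu (smul_measurable (u s) hE),
    Measure.smul_apply, kap_apply μ u hu hE, smul_eq_mul]
  have e1 : ∀ x, (fun z : X => u x • z) ⁻¹' ((fun z => u s • z) ⁻¹' E)
      = (fun z => u (x + s) • z) ⁻¹' E := by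
    intro x
    ext z
    simp only [mem_preimage]
    rw [add_comm, hadd, mul_smul]
  simp_rw [e1]
  have e2 : (∫⁻ x, rho x * μ ((fun z => u (x + s) • z) ⁻¹' E))
      = ∫⁻ x, rho (x - s) * μ ((fun z => u x • z) ⁻¹' E) := by
    have := lintegral_add_right_eq_self (μ := (volume : Measure ℝ))
      (fun x => rho (x - s) * μ ((fun z => u x • z) ⁻¹' E)) s
    simp only [add_sub_cancel_right] at this
    exact this
  rw [e2, ← lintegral_const_mul _ (slice_meas' μ u hu hE)]
  apply lintegral_mono
  intro x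
  show rho (x - s) * _ ≤ ENNReal.ofReal (Real.exp |s|) * (rho x * _)
  rw [← mul_assoc]
  gcongr
  exact rho_shift x s

/-- null sets of `kap` are invariant under transformations that rescale the family -/
lemma kap_null_inv (μ : Measure X) [IsFiniteMeasure μ] (u : ℝ → G) (hu : Continuous u)
    (a : G) (ha : μ.map (fun z => a • z) = μ) (l : ℝ) (hl : l ≠ 0)
    (hau : ∀ x, a * u x = u (l * x) * a) {E : Set X} (hE : MeasurableSet E)
    (h0 : kap μ u E = 0) : kap μ u ((fun z => a • z) ⁻¹' E) = 0 := by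
  rw [kap_null μ u hu (smul_measurable a hE)]
  rw [kap_null μ u hu hE] at h0
  have h1 : ∀ᵐ x : ℝ, μ ((fun z => u (l * x) • z) ⁻¹' E) = 0 := by
    have hq : Measure.QuasiMeasurePreserving (fun x : ℝ => l * x) volume volume := by
      refine ⟨measurable_const_mul l, ?_⟩
      rw [Real.map_volume_mul_left hl]
      exact Measure.smul_absolutelyContinuous
    exact hq.ae h0
  filter_upwards [h1] with x hx
  have e : (fun z : X => u x • z) ⁻¹' ((fun z => a • z) ⁻¹' E)
      = (fun z => a • z) ⁻¹' ((fun z => u (l * x) • z) ⁻¹' E) := by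
    ext z
    simp only [mem_preimage]
    rw [← mul_smul, hau, mul_smul]
  rw [e, ← Measure.map_apply (smul_measurable a) (smul_measurable (u (l * x)) hE), ha]
  exact hx

end kap

section main

variable {X : Type*} [TopologicalSpace X] [LocallyCompactSpace X] [T2Space X]
  [SecondCountableTopology X] [MeasurableSpace X] [BorelSpace X]
variable {G : Type*} [Group G] [TopologicalSpace G] [IsTopologicalGroup G] [MulAction G X]
  [ContinuousSMul G X]

/-- Absolute continuity with respect to the averaged measure. -/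
lemma ac_kap (μ : Measure X) [IsProbabilityMeasure μ] (A : Subgroup G)
    (hA : ∀ a ∈ A, μ.map (fun z => a • z) = μ)
    (herg : ∀ s : Set X, MeasurableSet s → (∀ a ∈ A, (fun z => a • z) ⁻¹' s =ᵐ[μ] s) →
      μ s = 0 ∨ μ sᶜ = 0)
    (u : ℝ → G) (hu : Continuous u)
    (hau : ∀ a ∈ A, ∃ l : ℝ, l ≠ 0 ∧ ∀ x, a * u x = u (l * x) * a)
    (T : Set ℝ) (hT : volume T ≠ 0)
    (hns : ∀ x ∈ T, ¬ μ ⟂ₘ (μ.map (fun z => u x • z))) :
    μ ≪ kap μ u := by
  have hms := Measure.mutuallySingular_singularPart μ (kap μ u)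
  obtain ⟨S, hS, hS1, hS2⟩ := hms
  -- singular part vanishes on S, kap vanishes on Sᶜ
  set B : Set X := Sᶜ with hB
  have hBm : MeasurableSet B := hS.compl
  have hdec : ∀ E, MeasurableSet E → kap μ u E = 0 → μ E = μ.singularPart (kap μ u) E := by
    intro E hE h0
    have h1 := Measure.haveLebesgueDecomposition_add μ (kap μ u)
    have h2 : (kap μ u).withDensity (μ.rnDeriv (kap μ u)) E = 0 :=
      withDensity_absolutelyContinuous _ _ h0
    calc μ E = (μ.singularPart (kap μ u) + (kap μ u).withDensity (μ.rnDeriv (kap μ u))) E := by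
          rw [← h1]
      _ = μ.singularPart (kap μ u) E := by rw [Measure.add_apply, h2, add_zero]
  have hsub : ∀ E, MeasurableSet E → kap μ u E = 0 → μ (E \ B) = 0 := by
    intro E hE h0
    have h1 : kap μ u (E \ B) = 0 := measure_mono_null sdiff_subset h0
    rw [hdec _ (hE.diff hBm) h1]
    refine measure_mono_null ?_ hS1
    intro z hz
    simpa [hB] using hz.2
  have hinv : ∀ a ∈ A, (fun z => a • z) ⁻¹' B =ᵐ[μ] B := by
    intro a ha
    obtain ⟨l, hl, hl'⟩ := hau a ha
    obtain ⟨l2, hl2, hl2'⟩ := hau a⁻¹ (A.inv_mem ha)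
    have h1 : kap μ u ((fun z => a • z) ⁻¹' B) = 0 :=
      kap_null_inv μ u hu a (hA a ha) l hl hl' hBm hS2
    have h2 : kap μ u ((fun z => a⁻¹ • z) ⁻¹' B) = 0 :=
      kap_null_inv μ u hu a⁻¹ (hA _ (A.inv_mem ha)) l2 hl2 hl2' hBm hS2
    have h3 := hsub _ (smul_measurable a hBm) h1
    have h4 := hsub _ (smul_measurable a⁻¹ hBm) h2
    rw [ae_eq_set]
    refine ⟨h3, ?_⟩
    have e : B \ (fun z => a • z) ⁻¹' B = (fun z => a • z) ⁻¹' ((fun z => a⁻¹ • z) ⁻¹' B \ B) := by
      ext z
      constructor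
      · rintro ⟨h5, h6⟩
        refine ⟨?_, h6⟩
        show a⁻¹ • a • z ∈ B
        rwa [inv_smul_smul]
      · rintro ⟨h5, h6⟩
        refine ⟨?_, h6⟩
        have h7 : a⁻¹ • a • z ∈ B := h5
        rwa [inv_smul_smul] at h7
    rw [e, ← Measure.map_apply (smul_measurable a) ((smul_measurable a⁻¹ hBm).diff hBm), hA a ha]
    exact h4
  rcases herg B hBm hinv with h | h
  · -- the singular part vanishes
    have h1 : μ.singularPart (kap μ u) = 0 := by
      rw [← Measure.measure_univ_eq_zero]
      have : (univ : Set X) = S ∪ B := by rw [hB]; simp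
      rw [this]
      refine le_antisymm ((measure_union_le _ _).trans ?_) zero_le
      rw [hS1, zero_add]
      exact ((Measure.singularPart_le μ (kap μ u)) B).trans h.le
    have h2 := Measure.haveLebesgueDecomposition_add μ (kap μ u)
    rw [h1, zero_add] at h2
    have h3 := withDensity_absolutelyContinuous (kap μ u) (μ.rnDeriv (kap μ u))
    rwa [← h2] at h3
  · exfalso
    have h1 := (kap_null μ u hu hBm).1 hS2
    rw [ae_iff] at h1
    apply hT
    refine measure_mono_null ?_ h1
    intro x hx hx0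
    apply hns x hx
    refine ⟨Bᶜ, hBm.compl, h, ?_⟩
    rw [compl_compl, Measure.map_apply (smul_measurable (u x)) hBm]
    exact hx0

/-- Translations act continuously in total variation. -/
lemma tv_cont (μ : Measure X) [IsProbabilityMeasure μ] (u : ℝ → G) (hu : Continuous u)
    (hadd : ∀ x y, u (x + y) = u x * u y) (hac : μ ≪ kap μ u) (e : ℝ) (he : 0 < e) :
    ∀ᶠ s in 𝓝 (0 : ℝ), ∀ E : Set X, MeasurableSet E →
      μ ((fun z => u s • z) ⁻¹' E) ≤ μ E + ENNReal.ofReal e := by
  classical
  set κ := kap μ u with hκ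
  set f : X → ℝ≥0∞ := μ.rnDeriv κ with hf
  have hfm : Measurable f := Measure.measurable_rnDeriv _ _
  have hffin : ∀ᵐ z ∂κ, f z < ∞ := Measure.rnDeriv_lt_top μ κ
  have hfint : Integrable (fun z => (f z).toReal) κ := Measure.integrable_toReal_rnDeriv
  set C : ℝ := (κ univ).toReal with hC
  have hC0 : 0 ≤ C := ENNReal.toReal_nonneg
  have hCe : κ univ = ENNReal.ofReal C := (ENNReal.ofReal_toReal (measure_ne_top _ _)).symm
  set e₁ : ℝ := min 1 (e / 6) with he₁
  have he₁0 : 0 < e₁ := lt_min one_pos (by linarith)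
  have he₁1 : e₁ ≤ 1 := min_le_left _ _
  have he₁2 : 6 * e₁ ≤ e := by
    have : e₁ ≤ e / 6 := min_le_right _ _
    linarith
  obtain ⟨g, hgc, hgint, hgcont, -⟩ := hfint.exists_hasCompactSupport_lintegral_sub_le
    (ε := ENNReal.ofReal e₁) (by simpa using he₁0)
  have hle1 : ∀ᵐ z ∂κ, f z ≤ ENNReal.ofReal (g z) + ‖(f z).toReal - g z‖ₑ := by
    filter_upwards [hffin] with z hz
    have h1 : f z = ENNReal.ofReal (f z).toReal := (ENNReal.ofReal_toReal hz.ne).symm
    have h2 : (f z).toReal ≤ g z + |(f z).toReal - g z| := by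
      have := le_abs_self ((f z).toReal - g z)
      linarith
    rw [← ofReal_norm_eq_enorm, Real.norm_eq_abs]
    calc f z = ENNReal.ofReal (f z).toReal := h1
      _ ≤ ENNReal.ofReal (g z + |(f z).toReal - g z|) := ENNReal.ofReal_le_ofReal h2
      _ ≤ _ := ENNReal.ofReal_add_le
  have hle2 : ∀ᵐ z ∂κ, ENNReal.ofReal (g z) ≤ f z + ‖(f z).toReal - g z‖ₑ := by
    filter_upwards [hffin] with z hz
    have h1 : f z = ENNReal.ofReal (f z).toReal := (ENNReal.ofReal_toReal hz.ne).symm
    have h2 : g z ≤ (f z).toReal + |(f z).toReal - g z| := by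
      have := neg_abs_le ((f z).toReal - g z)
      linarith
    rw [← ofReal_norm_eq_enorm, Real.norm_eq_abs]
    calc ENNReal.ofReal (g z) ≤ ENNReal.ofReal ((f z).toReal + |(f z).toReal - g z|) :=
          ENNReal.ofReal_le_ofReal h2
      _ ≤ ENNReal.ofReal (f z).toReal + ENNReal.ofReal |(f z).toReal - g z| :=
          ENNReal.ofReal_add_le
      _ = _ := by rw [← h1]
  let F : C(X, ℝ) := ⟨g, hgcont⟩
  have hF : HasCompactSupport F := hgc
  have hu0 : u 0 = 1 := by
    have := hadd 0 0
    rw [add_zero] at this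
    exact (mul_eq_left.1 this.symm)
  have hneg : ∀ s, u (-s) * u s = 1 := fun s => by rw [← hadd, neg_add_cancel, hu0]
  have hη : 0 < e₁ / (C + 1) := by positivity
  have ht1 : Tendsto (fun s : ℝ => u (-s)) (𝓝 0) (𝓝 1) := by
    have : Continuous (fun s : ℝ => u (-s)) := hu.comp continuous_neg
    have := this.tendsto 0
    simpa [hu0] using this
  have ht2 : Tendsto (fun s : ℝ => Real.exp |s|) (𝓝 0) (𝓝 1) := by
    have : Continuous (fun s : ℝ => Real.exp |s|) := by fun_prop
    have := this.tendsto 0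
    simpa using this
  filter_upwards [ht1.eventually (unif_action F hF _ hη),
    ht2.eventually (gt_mem_nhds (show (1 : ℝ) < 1 + e₁ by linarith))] with s hs1 hs2 E hE
  -- step 1
  have s1 : μ ((fun z => u s • z) ⁻¹' E)
      ≤ ∫⁻ z in (fun z => u s • z) ⁻¹' E, ENNReal.ofReal (g z) ∂κ + ENNReal.ofReal e₁ := by
    rw [← Measure.setLIntegral_rnDeriv hac]
    calc ∫⁻ z in (fun z => u s • z) ⁻¹' E, f z ∂κ
        ≤ ∫⁻ z in (fun z => u s • z) ⁻¹' E, (ENNReal.ofReal (g z) + ‖(f z).toReal - g z‖ₑ) ∂κ :=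
          lintegral_mono_ae (ae_restrict_of_ae hle1)
      _ = ∫⁻ z in (fun z => u s • z) ⁻¹' E, ENNReal.ofReal (g z) ∂κ
          + ∫⁻ z in (fun z => u s • z) ⁻¹' E, ‖(f z).toReal - g z‖ₑ ∂κ := by
          rw [lintegral_add_left (hgcont.measurable.ennreal_ofReal)]
      _ ≤ _ := by
          gcongr
          exact (setLIntegral_le_lintegral _ _).trans hgint
  -- step 2
  have s2 : ∫⁻ z in (fun z => u s • z) ⁻¹' E, ENNReal.ofReal (g z) ∂κ
      ≤ ENNReal.ofReal (Real.exp |s|) * ∫⁻ z in E, ENNReal.ofReal (g (u (-s) • z)) ∂κ := by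
    have hm : Measurable (fun z : X => ENNReal.ofReal (g (u (-s) • z))) :=
      (hgcont.measurable.comp (smul_measurable (u (-s)))).ennreal_ofReal
    calc ∫⁻ z in (fun z => u s • z) ⁻¹' E, ENNReal.ofReal (g z) ∂κ
        = ∫⁻ z in (fun z => u s • z) ⁻¹' E, ENNReal.ofReal (g (u (-s) • u s • z)) ∂κ := by
          simp_rw [smul_smul, hneg, one_smul]
      _ = ∫⁻ z in E, ENNReal.ofReal (g (u (-s) • z)) ∂(κ.map (fun z => u s • z)) := by
          rw [setLIntegral_map hE hm (smul_measurable (u s))]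
      _ ≤ ∫⁻ z in E, ENNReal.ofReal (g (u (-s) • z)) ∂(ENNReal.ofReal (Real.exp |s|) • κ) :=
          lintegral_mono' (Measure.restrict_mono le_rfl (kap_shift μ u hu hadd s)) le_rfl
      _ = _ := by rw [Measure.restrict_smul, lintegral_smul_measure, smul_eq_mul]
  -- step 3
  have s3 : ∫⁻ z in E, ENNReal.ofReal (g (u (-s) • z)) ∂κ
      ≤ ∫⁻ z in E, ENNReal.ofReal (g z) ∂κ + ENNReal.ofReal e₁ := by
    calc ∫⁻ z in E, ENNReal.ofReal (g (u (-s) • z)) ∂κ
        ≤ ∫⁻ z in E, (ENNReal.ofReal (g z) + ENNReal.ofReal (e₁ / (C + 1))) ∂κ := by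
          apply lintegral_mono
          intro z
          show ENNReal.ofReal (g (u (-s) • z)) ≤ ENNReal.ofReal (g z) + ENNReal.ofReal (e₁ / (C + 1))
          have h1 := (abs_lt.1 (hs1 z)).2
          have h2 : g (u (-s) • z) ≤ g z + e₁ / (C + 1) := by
            have h3 : F (u (-s) • z) - F z < e₁ / (C + 1) := h1
            have h4 : g (u (-s) • z) - g z < e₁ / (C + 1) := h3
            linarith
          exact (ENNReal.ofReal_le_ofReal h2).trans ENNReal.ofReal_add_le
      _ = ∫⁻ z in E, ENNReal.ofReal (g z) ∂κ + ENNReal.ofReal (e₁ / (C + 1)) * κ E := by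
          rw [lintegral_add_left (hgcont.measurable.ennreal_ofReal), lintegral_const,
            Measure.restrict_apply MeasurableSet.univ, univ_inter]
      _ ≤ _ := by
          gcongr
          calc ENNReal.ofReal (e₁ / (C + 1)) * κ E ≤ ENNReal.ofReal (e₁ / (C + 1)) * κ univ := by
                gcongr
                exact subset_univ _
            _ = ENNReal.ofReal (e₁ / (C + 1) * C) := by
                rw [hCe, ENNReal.ofReal_mul hη.le]
            _ ≤ ENNReal.ofReal e₁ := by
                apply ENNReal.ofReal_le_ofReal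
                rw [div_mul_eq_mul_div, div_le_iff₀ (by positivity)]
                nlinarith
  -- step 4
  have s4 : ∫⁻ z in E, ENNReal.ofReal (g z) ∂κ ≤ μ E + ENNReal.ofReal e₁ := by
    rw [← Measure.setLIntegral_rnDeriv hac]
    calc ∫⁻ z in E, ENNReal.ofReal (g z) ∂κ
        ≤ ∫⁻ z in E, (f z + ‖(f z).toReal - g z‖ₑ) ∂κ :=
          lintegral_mono_ae (ae_restrict_of_ae hle2)
      _ = ∫⁻ z in E, f z ∂κ + ∫⁻ z in E, ‖(f z).toReal - g z‖ₑ ∂κ := by
          rw [lintegral_add_left hfm]
      _ ≤ _ := by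
          gcongr
          exact (setLIntegral_le_lintegral _ _).trans hgint
  -- combine in the reals
  have hμE : μ E = ENNReal.ofReal (μ E).toReal := (ENNReal.ofReal_toReal (measure_ne_top _ _)).symm
  have hμ1 : (μ E).toReal ≤ 1 := by
    have := prob_le_one (μ := μ) (s := E)
    exact ENNReal.toReal_mono ENNReal.one_ne_top this
  have hμ0 : 0 ≤ (μ E).toReal := ENNReal.toReal_nonneg
  have hexp : Real.exp |s| ≤ 1 + e₁ := hs2.le
  have hexp0 : 0 ≤ Real.exp |s| := (Real.exp_pos _).le
  calc μ ((fun z => u s • z) ⁻¹' E)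
      ≤ ENNReal.ofReal (Real.exp |s|) * (μ E + ENNReal.ofReal e₁ + ENNReal.ofReal e₁)
        + ENNReal.ofReal e₁ := by
        refine s1.trans ?_
        gcongr
        refine s2.trans ?_
        gcongr
        refine s3.trans ?_
        gcongr
    _ = ENNReal.ofReal (Real.exp |s| * ((μ E).toReal + e₁ + e₁) + e₁) := by
        rw [hμE, ENNReal.toReal_ofReal hμ0, ← ENNReal.ofReal_add hμ0 he₁0.le,
          ← ENNReal.ofReal_add (by positivity) he₁0.le, ← ENNReal.ofReal_mul hexp0,
          ← ENNReal.ofReal_add (by positivity) he₁0.le]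
    _ ≤ ENNReal.ofReal ((μ E).toReal + e) := by
        apply ENNReal.ofReal_le_ofReal
        have h5 : Real.exp |s| * ((μ E).toReal + e₁ + e₁) ≤ (1 + e₁) * ((μ E).toReal + e₁ + e₁) := by
          apply mul_le_mul_of_nonneg_right hexp
          positivity
        nlinarith
    _ = μ E + ENNReal.ofReal e := by
        rw [ENNReal.ofReal_add hμ0 he.le, ← hμE]

/-- If the translates of `μ` along the family are non-singular to `μ` for a set of parameters of
positive measure, then `μ` is invariant. -/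
theorem inv_of_nonsingular (μ : Measure X) [IsProbabilityMeasure μ] (A : Subgroup G)
    (hA : ∀ a ∈ A, μ.map (fun z => a • z) = μ)
    (herg : ∀ s : Set X, MeasurableSet s → (∀ a ∈ A, (fun z => a • z) ⁻¹' s =ᵐ[μ] s) →
      μ s = 0 ∨ μ sᶜ = 0)
    (u : ℝ → G) (hu : Continuous u) (hadd : ∀ x y, u (x + y) = u x * u y)
    (hau : ∀ a ∈ A, ∃ l : ℝ, l ≠ 0 ∧ ∀ x, a * u x = u (l * x) * a)
    (hcon : ∀ e : ℝ, 0 < e → ∃ a ∈ A, ∃ l : ℝ, |l| < e ∧ ∀ x, a * u x = u (l * x) * a)
    (T : Set ℝ) (hT : volume T ≠ 0)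
    (hns : ∀ x ∈ T, ¬ μ ⟂ₘ (μ.map (fun z => u x • z))) (x : ℝ) :
    μ.map (fun z => u x • z) = μ := by
  have hac := ac_kap μ A hA herg u hu hau T hT hns
  have key : ∀ E, MeasurableSet E → μ ((fun z => u x • z) ⁻¹' E) ≤ μ E := by
    intro E hE
    apply ENNReal.le_of_forall_pos_le_add
    intro e he _
    have h1 := tv_cont μ u hu hadd hac (e : ℝ) (by exact_mod_cast he)
    rw [Metric.eventually_nhds_iff] at h1
    obtain ⟨δ, hδ, h1⟩ := h1
    obtain ⟨a, ha, l, hl, hal⟩ := hcon (δ / (|x| + 1)) (by positivity)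
    have hlx : dist (l * x) 0 < δ := by
      rw [Real.dist_eq, sub_zero, abs_mul]
      calc |l| * |x| ≤ |l| * (|x| + 1) := by
            apply mul_le_mul_of_nonneg_left _ (abs_nonneg _)
            linarith
        _ < δ / (|x| + 1) * (|x| + 1) := by
            apply mul_lt_mul_of_pos_right hl
            positivity
        _ = δ := by field_simp
    have h2 := h1 hlx ((fun z => a⁻¹ • z) ⁻¹' E) (smul_measurable a⁻¹ hE)
    have hinv : ∀ F : Set X, MeasurableSet F → μ ((fun z => a⁻¹ • z) ⁻¹' F) = μ F := by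
      intro F hF
      rw [← Measure.map_apply (smul_measurable a⁻¹) hF, hA _ (A.inv_mem ha)]
    have e1 : (fun z : X => a⁻¹ • z) ⁻¹' ((fun z => u x • z) ⁻¹' E)
        = (fun z => u (l * x) • z) ⁻¹' ((fun z => a⁻¹ • z) ⁻¹' E) := by
      ext z
      simp only [mem_preimage]
      have : a⁻¹ * u (l * x) = u x * a⁻¹ := by
        rw [inv_mul_eq_iff_eq_mul, ← mul_assoc, hal, mul_assoc, mul_inv_cancel, mul_one]
      rw [smul_smul, smul_smul, this]
    rw [← hinv _ (smul_measurable (u x) hE), e1]
    refine h2.trans ?_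
    rw [hinv E hE]
    simp
  have hprob : IsProbabilityMeasure (μ.map (fun z => u x • z)) :=
    Measure.isProbabilityMeasure_map (smul_measurable (u x)).aemeasurable
  apply Measure.eq_of_le_of_measure_univ_eq
  · rw [Measure.le_iff]
    intro E hE
    rw [Measure.map_apply (smul_measurable (u x)) hE]
    exact key E hE
  · simp

end main

end Pool.Agent.Work.MP_67388f_an
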