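import Pool.Agent.Work.MP_67388f_an.DefsCartan
import Pool.Agent.Work.MP_67388f_an.Rank1
import Pool.Agent.Work.MP_67388f_an.Step4

set_option autoImplicit false

namespace Pool.Agent.Work.MP_67388f_an

open Matrix Filter Topology Set MeasureTheory
open scoped ENNReal

section general

variable {X : Type*} [TopologicalSpace X] [MeasurableSpace X] [BorelSpace X]
variable {G : Type*} [Group G] [TopologicalSpace G] [MulAction G X] [ContinuousSMul G X]

lemma ms_map {μ ν : Measure X} (h : μ ⟂ₘ ν) (g : G) :
    (μ.map (fun z => g • z)) ⟂ₘ (ν.map (fun z => g • z)) := by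
  obtain ⟨S, hS, h1, h2⟩ := h
  refine ⟨(fun z => g⁻¹ • z) ⁻¹' S, smul_measurable g⁻¹ hS, ?_, ?_⟩
  · rw [Measure.map_apply (smul_measurable g) (smul_measurable g⁻¹ hS)]
    have : (fun z : X => g • z) ⁻¹' ((fun z => g⁻¹ • z) ⁻¹' S) = S := by
      ext z; simp
    rw [this]; exact h1
  · rw [Measure.map_apply (smul_measurable g) (smul_measurable g⁻¹ hS).compl]
    have : (fun z : X => g • z) ⁻¹' ((fun z => g⁻¹ • z) ⁻¹' S)ᶜ = Sᶜ := by
      ext z; simp
    rw [this]; exact h2

lemma map_map_smul (μ : Measure X) (g h : G) :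
    (μ.map (fun z => h • z)).map (fun z => g • z) = μ.map (fun z => (g * h) • z) := by
  rw [Measure.map_map (smul_measurable g) (smul_measurable h)]
  congr 1
  ext z
  simp [mul_smul]

lemma integral_inv {μ : Measure X} {a : G} (ha : μ.map (fun z => a • z) = μ) (f : C(X, ℝ)) :
    ∫ z, f (a • z) ∂μ = ∫ z, f z ∂μ := by
  conv_rhs => rw [← ha]
  rw [integral_map (smul_measurable a).aemeasurable f.continuous.measurable.aestronglyMeasurable]

end general

section diag

variable {n : ℕ}

lemma isPosDiag_dg (t : Fin n → ℝ) (h : ∑ i, t i = 0) : IsPosDiag (dg t h) := by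
  constructor
  · intro i j hij
    show (diagonal (fun i => Real.exp (t i))) i j = 0
    exact diagonal_apply_ne _ hij
  · intro i
    show 0 < (diagonal (fun i => Real.exp (t i))) i i
    rw [diagonal_apply_eq]
    exact Real.exp_pos _

/-- exponents contracting all coordinates except two -/
noncomputable def tau2 (j l : Fin n) (s : ℝ) : Fin n → ℝ :=
  fun k => (2 : ℝ) * s - (if k = j then (n : ℝ) * s else 0) - (if k = l then (n : ℝ) * s else 0)

lemma tau2_sum (j l : Fin n) (s : ℝ) : ∑ k, tau2 j l s k = 0 := by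
  unfold tau2
  rw [Finset.sum_sub_distrib, Finset.sum_sub_distrib, Finset.sum_ite_eq' Finset.univ j,
    Finset.sum_ite_eq' Finset.univ l]
  simp
  ring

/-- exponents scaling the root `(j, l)` -/
noncomputable def tau3 (j l : Fin n) (s : ℝ) : Fin n → ℝ :=
  fun k => (if k = j then s / 2 else 0) - (if k = l then s / 2 else 0)

lemma tau3_sum (j l : Fin n) (s : ℝ) : ∑ k, tau3 j l s k = 0 := by
  unfold tau3
  rw [Finset.sum_sub_distrib, Finset.sum_ite_eq' Finset.univ j, Finset.sum_ite_eq' Finset.univ l]
  simp

lemma not_monomial_inv {g : SpecialLinearGroup (Fin n) ℝ} (hg : ¬ IsMonomial g) :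
    ¬ IsMonomial g⁻¹ := by
  intro hm
  apply hg
  set K : Matrix (Fin n) (Fin n) ℝ := (g⁻¹ : SpecialLinearGroup (Fin n) ℝ).1 with hK
  have hKg : K * g.1 = 1 := congrArg Subtype.val (inv_mul_cancel g)
  have hent : ∀ r l, ∑ q, K r q * g.1 q l = if r = l then 1 else 0 := by
    intro r l
    have := congrFun (congrFun hKg r) l
    rw [mul_apply] at this
    rw [this, one_apply]
  -- each row of K has a nonzero entry
  have hex : ∀ r, ∃ q, K r q ≠ 0 := by
    intro r
    by_contra hcon
    push Not at hcon
    have := hent r r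
    simp [hcon] at this
  choose σ hσ using hex
  have huniq : ∀ r q, q ≠ σ r → K r q = 0 := by
    intro r q hq
    by_contra hne
    exact hq (hm r q (σ r) hne (hσ r))
  have hrow : ∀ r l, K r (σ r) * g.1 (σ r) l = if r = l then 1 else 0 := by
    intro r l
    rw [← hent r l, Finset.sum_eq_single (σ r)]
    · intro q _ hq
      rw [huniq r q hq, zero_mul]
    · intro h
      exact absurd (Finset.mem_univ _) h
  have hinj : Function.Injective σ := by
    intro r r' h
    by_contra hne
    have h1 := hrow r r
    rw [if_pos rfl] at h1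
    have h2 := hrow r' r
    rw [if_neg (fun h => hne h.symm), ← h] at h2
    rcases mul_eq_zero.1 h2 with h3 | h3
    · rw [h] at h3
      exact hσ r' h3
    · rw [h3, mul_zero] at h1
      exact zero_ne_one h1
  have hsurj : Function.Surjective σ := Finite.surjective_of_injective hinj
  intro i j k hj hk
  obtain ⟨r, rfl⟩ := hsurj i
  have h1 : ∀ l, g.1 (σ r) l ≠ 0 → r = l := by
    intro l hl
    by_contra hne
    have := hrow r l
    rw [if_neg hne] at this
    rcases mul_eq_zero.1 this with h3 | h3
    · exact hσ r h3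
    · exact hl h3
  exact (h1 j hj).symm.trans (h1 k hk)

end diag

end Pool.Agent.Work.MP_67388f_an
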