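import Pool.Agent.Work.MP_67388f_an.Cartan

set_option autoImplicit false

namespace Pool.Agent.Work.MP_67388f_an

open Matrix Filter Topology Set MeasureTheory
open scoped ENNReal

variable {n : ℕ} {H : Type*} [Group H] [TopologicalSpace H] [IsTopologicalGroup H]
variable {X : Type*} [TopologicalSpace X] [LocallyCompactSpace X] [T2Space X]
  [SecondCountableTopology X] [MeasurableSpace X] [BorelSpace X]
  [MulAction (SpecialLinearGroup (Fin n) ℝ × H) X]
  [ContinuousSMul (SpecialLinearGroup (Fin n) ℝ × H) X]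

lemma tendsto_SL {α : Type*} {l : Filter α} (f : α → SpecialLinearGroup (Fin n) ℝ)
    (g : SpecialLinearGroup (Fin n) ℝ)
    (h : ∀ i j, Tendsto (fun x => (f x).1 i j) l (𝓝 (g.1 i j))) : Tendsto f l (𝓝 g) := by
  have hind : IsInducing (fun A : SpecialLinearGroup (Fin n) ℝ => (A : Matrix (Fin n) (Fin n) ℝ)) :=
    SpecialLinearGroup.isClosedEmbedding_val.isInducing
  refine hind.tendsto_nhds_iff.2 ?_
  refine tendsto_pi_nhds.2 fun i => ?_
  refine tendsto_pi_nhds.2 fun j => ?_
  exact h i j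

lemma single_dot {i : Fin n} {x : Fin n → ℝ} (h : x i = 0) : x ⬝ᵥ (Pi.single i (1 : ℝ)) = 0 := by
  rw [dotProduct_single, h, zero_mul]

lemma dot_single {i : Fin n} {x : Fin n → ℝ} (h : x i = 0) : (Pi.single i (1 : ℝ)) ⬝ᵥ x = 0 := by
  rw [single_dotProduct, h, mul_zero]

lemma smul_dot {a b : Fin n → ℝ} (h : b ⬝ᵥ a = 0) (c : ℝ) : (c • b) ⬝ᵥ a = 0 := by
  rw [smul_dotProduct, h, smul_zero]

/-- First step: a translate by a row-unipotent matrix is non-singular. -/
theorem step_one (μ ν : Measure X) [IsProbabilityMeasure μ] [IsProbabilityMeasure ν]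
    (hμ : ∀ d : SpecialLinearGroup (Fin n) ℝ, IsPosDiag d → μ.map (fun z => (d, (1 : H)) • z) = μ)
    (hν : ∀ d : SpecialLinearGroup (Fin n) ℝ, IsPosDiag d → ν.map (fun z => (d, (1 : H)) • z) = ν)
    (g : SpecialLinearGroup (Fin n) ℝ × H) (hg : ¬ IsMonomial g.1)
    (hs : ¬ (μ.map (fun z => g • z)) ⟂ₘ ν) :
    ∃ (j : Fin n) (z : Fin n → ℝ) (hz : z ⬝ᵥ (Pi.single j 1) = 0), z ≠ 0 ∧
      ¬ μ ⟂ₘ (μ.map (fun w => (rk (Pi.single j 1) z hz, (1 : H)) • w)) := by
  classical
  have hg' := not_monomial_inv hg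
  unfold IsMonomial at hg'
  push Not at hg'
  obtain ⟨j, i, k, h1, h2, hik⟩ := hg'
  obtain ⟨x, y, m, ζ, hxi, hyi, hx0, hζ, hmi, hmj, hmij, hdec⟩ :=
    decomp g.1 i j k (fun h => hik h.symm) h1 h2
  have hx := single_dot hxi
  have hy := dot_single hyi
  have hgdec := hdec hx hy
  have hn : (0 : ℝ) < n := by
    have : 0 < n := Fin.pos i
    exact_mod_cast this
  -- the one-parameter groups
  let u : ℝ → SpecialLinearGroup (Fin n) ℝ × H := fun ξ =>
    (rk (Pi.single i 1) (ξ • x) (smul_dot hx ξ), 1)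
  let v : ℝ → SpecialLinearGroup (Fin n) ℝ × H := fun η =>
    (rk y (η • Pi.single i 1) (smul_dot hy η), 1)
  have hu : ∀ a b, u (a + b) = u a * u b := by
    intro a b
    apply Prod.ext
    · show rk (Pi.single i 1) ((a + b) • x) (smul_dot hx _)
        = rk (Pi.single i 1) (a • x) (smul_dot hx _) * rk (Pi.single i 1) (b • x) (smul_dot hx _)
      have h3 : (a • x + b • x) ⬝ᵥ (Pi.single i (1 : ℝ)) = 0 := by
        rw [← add_smul]; exact smul_dot hx _
      rw [rk_mul _ _ _ _ _ h3]
      apply rk_congr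
      rw [add_smul]
    · simp [u]
  have hv : ∀ a b, v (a + b) = v a * v b := by
    intro a b
    apply Prod.ext
    · show rk y ((a + b) • Pi.single i 1) (smul_dot hy _)
        = rk y (a • Pi.single i 1) (smul_dot hy _) * rk y (b • Pi.single i 1) (smul_dot hy _)
      have h3 : (a • (Pi.single i (1 : ℝ) : Fin n → ℝ) + b • Pi.single i (1 : ℝ)) ⬝ᵥ y = 0 := by
        rw [← add_smul]; exact smul_dot hy _
      rw [rk_mul _ _ _ _ _ h3]
      apply rk_congr
      rw [add_smul]
    · simp [v]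
  have hu0 : u 0 = 1 := by
    have := hu 0 0
    rw [add_zero] at this
    exact (mul_eq_left.1 this.symm)
  have hv0 : v 0 = 1 := by
    have := hv 0 0
    rw [add_zero] at this
    exact (mul_eq_left.1 this.symm)
  let w : ℝ → SpecialLinearGroup (Fin n) ℝ × H := fun ξ => v (-ξ⁻¹)
  have hw : Tendsto w atTop (𝓝 1) := by
    have h3 : Tendsto (fun η : ℝ => v η) (𝓝 0) (𝓝 1) := by
      rw [← Prod.mk_one_one]
      refine Tendsto.prodMk_nhds ?_ tendsto_const_nhds
      refine tendsto_SL _ _ fun a b => ?_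
      show Tendsto (fun η : ℝ => (1 + vecMulVec y (η • Pi.single i 1) : Matrix _ _ ℝ) a b) (𝓝 0)
        (𝓝 ((1 : Matrix _ _ ℝ) a b))
      have : ∀ η : ℝ, (1 + vecMulVec y (η • Pi.single i 1) : Matrix (Fin n) (Fin n) ℝ) a b
          = (1 : Matrix _ _ ℝ) a b + y a * (η * (Pi.single i 1 : Fin n → ℝ) b) := by
        intro η
        rw [Matrix.add_apply, vecMulVec_apply, Pi.smul_apply, smul_eq_mul]
      simp_rw [this]
      have h4 : Continuous (fun η : ℝ => (1 : Matrix (Fin n) (Fin n) ℝ) a b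
          + y a * (η * (Pi.single i 1 : Fin n → ℝ) b)) := by fun_prop
      have := h4.tendsto 0
      simpa using this
    have h5 : Tendsto (fun ξ : ℝ => -ξ⁻¹) atTop (𝓝 0) := by
      have := tendsto_inv_atTop_zero (𝕜 := ℝ)
      simpa using this.neg
    exact h3.comp h5
  let M : SpecialLinearGroup (Fin n) ℝ × H := (m, g.2)
  let μ' : Measure X := μ.map (fun z => M • z)
  have hμ' : IsProbabilityMeasure μ' :=
    Measure.isProbabilityMeasure_map (smul_measurable M).aemeasurable
  have hprobg : IsProbabilityMeasure (μ.map (fun z => g • z)) :=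
    Measure.isProbabilityMeasure_map (smul_measurable g).aemeasurable
  obtain ⟨c, hc, hover⟩ := exists_overlap ν (μ.map (fun z => g • z)) (fun h => hs h.symm)
  -- the conjugation identity
  have hconj : ∀ ξ : ℝ, 0 < ξ → ∃ d d' : SpecialLinearGroup (Fin n) ℝ, IsPosDiag d ∧ IsPosDiag d' ∧
      (d, (1 : H)) * g = u ξ * (v ξ⁻¹ * (M * (d', 1))) := by
    intro ξ hξ
    set s := Real.log ξ / n with hs'
    have hns : (n : ℝ) * s = Real.log ξ := by rw [hs']; field_simp
    have hexp : Real.exp ((n : ℝ) * s) = ξ := by rw [hns, Real.exp_log hξ]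
    refine ⟨dg (tau i s) (tau_sum i s), dg (tau j s) (tau_sum j s), isPosDiag_dg _ _,
      isPosDiag_dg _ _, ?_⟩
    have e1 : dg (tau i s) (tau_sum i s) * rk (Pi.single i 1) x hx
        = rk (Pi.single i 1) (ξ • x) (smul_dot hx ξ) * dg (tau i s) (tau_sum i s) := by
      apply dg_rk
      intro a b
      by_cases ha : a = i
      · subst ha
        by_cases hb : b = a
        · subst hb
          simp [hxi]
        · rw [tau_self, tau_ne s hb, Pi.single_eq_same, one_mul, one_mul, Pi.smul_apply,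
            smul_eq_mul, sub_eq_add_neg, Real.exp_add, hexp]
          ring
      · simp [Pi.single_eq_of_ne ha]
    have e2 : dg (tau i s) (tau_sum i s) * rk y (Pi.single i 1) hy
        = rk y (ξ⁻¹ • Pi.single i 1) (smul_dot hy ξ⁻¹) * dg (tau i s) (tau_sum i s) := by
      apply dg_rk
      intro a b
      by_cases hb : b = i
      · subst hb
        by_cases ha : a = b
        · subst ha
          simp [hyi]
        · rw [tau_self, tau_ne s ha, Pi.smul_apply, Pi.single_eq_same, smul_eq_mul, mul_one,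
            mul_one, sub_eq_add_neg, Real.exp_add, hexp]
          field_simp
      · simp [Pi.single_eq_of_ne hb]
    have e3 : dg (tau i s) (tau_sum i s) * m = m * dg (tau j s) (tau_sum j s) := by
      apply Subtype.ext
      show diagonal (fun a => Real.exp (tau i s a)) * m.1
        = m.1 * diagonal (fun a => Real.exp (tau j s a))
      ext a b
      rw [diagonal_mul, mul_diagonal]
      by_cases ha : a = i
      · by_cases hb : b = j
        · subst ha; subst hb
          rw [tau_self, tau_self, mul_comm]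
        · subst ha
          have : m.1 a b = 0 := hmi b hb
          rw [this]; ring
      · by_cases hb : b = j
        · subst hb
          have : m.1 a b = 0 := hmj a ha
          rw [this]; ring
        · rw [tau_ne s ha, tau_ne s hb, mul_comm]
    apply Prod.ext
    · show dg (tau i s) (tau_sum i s) * g.1 = rk (Pi.single i 1) (ξ • x) (smul_dot hx ξ)
        * (rk y (ξ⁻¹ • Pi.single i 1) (smul_dot hy ξ⁻¹) * (m * dg (tau j s) (tau_sum j s)))
      rw [← e3, ← mul_assoc (rk y _ _), ← e2, mul_assoc, ← mul_assoc (rk (Pi.single i 1) _ _), ← e1,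
        mul_assoc, ← hgdec]
    · show 1 * g.2 = 1 * (1 * (g.2 * 1))
      simp
  have hS : ∀ ξ : ℝ, 0 < ξ → ∀ f : C(X, ℝ), (∀ z, 0 ≤ f z) → (∀ z, f z ≤ 1) →
      c ≤ ∫ z, f z ∂μ' + ∫ z, (1 - f (w ξ • u (-ξ) • z)) ∂ν := by
    intro ξ hξ f hf0 hf1
    obtain ⟨d, d', hd, hd', hdd⟩ := hconj ξ hξ
    let F : C(X, ℝ) := ⟨fun z => f (w ξ • u (-ξ) • (d, (1 : H)) • z),
      f.continuous.comp ((continuous_const_smul _).comp ((continuous_const_smul _).comp
        (continuous_const_smul _)))⟩
    have h3 := hover F (fun z => hf0 _) (fun z => hf1 _)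
    have h4 : ∫ z, F z ∂(μ.map (fun z => g • z)) = ∫ z, f z ∂μ' := by
      rw [integral_map (smul_measurable g).aemeasurable
        F.continuous.measurable.aestronglyMeasurable]
      have e : ∀ z, F (g • z) = f (M • (d', (1 : H)) • z) := by
        intro z
        show f (w ξ • u (-ξ) • (d, (1 : H)) • g • z) = _
        congr 1
        simp only [smul_smul]
        congr 1
        rw [hdd, ← mul_assoc (u (-ξ)), ← hu, neg_add_cancel, hu0, one_mul]
        show v (-ξ⁻¹) * (v ξ⁻¹ * (M * (d', 1))) = M * (d', 1)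
        rw [← mul_assoc, ← hv, neg_add_cancel, hv0, one_mul]
      simp_rw [e]
      have h5 := integral_inv (hμ d' hd') (⟨fun z => f (M • z),
        f.continuous.comp (continuous_const_smul _)⟩ : C(X, ℝ))
      have h6 : ∫ z, f z ∂μ' = ∫ z, f (M • z) ∂μ := by
        rw [integral_map (smul_measurable M).aemeasurable
          f.continuous.measurable.aestronglyMeasurable]
      rw [h6]
      exact h5
    have h7 : ∫ z, (1 - F z) ∂ν = ∫ z, (1 - f (w ξ • u (-ξ) • z)) ∂ν := by
      exact integral_inv (hν d hd) (⟨fun z => 1 - f (w ξ • u (-ξ) • z),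
        continuous_const.sub (f.continuous.comp ((continuous_const_smul _).comp
          (continuous_const_smul _)))⟩ : C(X, ℝ))
    rw [h4, h7] at h3
    exact h3
  obtain ⟨p, q, hpq, hns⟩ := exists_pair ν μ' u hu w hw c hc hS
  -- the conjugated element
  set k₀ : ℝ := (q : ℝ) - p with hk₀
  have hk₀0 : k₀ ≠ 0 := by
    have : (p : ℝ) < q := by exact_mod_cast hpq
    rw [hk₀]; linarith
  let z : Fin n → ℝ := (k₀ * ζ⁻¹) • (x ᵥ* m.1)
  have hxm : (x ᵥ* m.1) j = 0 := by
    show ∑ r, x r * m.1 r j = 0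
    refine Finset.sum_eq_zero fun r _ => ?_
    by_cases hr : r = i
    · rw [hr, hxi, zero_mul]
    · have : m.1 r j = 0 := hmj r hr
      rw [this, mul_zero]
  have hzj : z j = 0 := by
    show (k₀ * ζ⁻¹) * (x ᵥ* m.1) j = 0
    rw [hxm, mul_zero]
  have hz := single_dot hzj
  have hz0 : z ≠ 0 := by
    intro h0
    apply hx0
    have h3 : x ᵥ* m.1 = 0 := by
      have : (k₀ * ζ⁻¹) ≠ 0 := mul_ne_zero hk₀0 (inv_ne_zero hζ)
      exact (smul_eq_zero.1 h0).resolve_left this
    have h4 : m.1 * (m⁻¹ : SpecialLinearGroup (Fin n) ℝ).1 = 1 :=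
      congrArg Subtype.val (mul_inv_cancel m)
    calc x = x ᵥ* (1 : Matrix (Fin n) (Fin n) ℝ) := by rw [vecMul_one]
      _ = (x ᵥ* m.1) ᵥ* (m⁻¹ : SpecialLinearGroup (Fin n) ℝ).1 := by rw [← h4, vecMul_vecMul]
      _ = 0 := by rw [h3, zero_vecMul]
  have hcomm : M * (rk (Pi.single j 1) z hz, (1 : H)) = u k₀ * M := by
    apply Prod.ext
    · apply Subtype.ext
      show m.1 * (1 + vecMulVec (Pi.single j 1) z)
        = (1 + vecMulVec (Pi.single i 1) (k₀ • x)) * m.1
      rw [mul_add, add_mul, mul_one, one_mul, mul_vecMulVec, vecMulVec_mul]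
      congr 1
      ext a b
      rw [vecMulVec_apply, vecMulVec_apply, mulVec_single_one, smul_vecMul, Pi.smul_apply,
        smul_eq_mul]
      show m.1 a j * ((k₀ * ζ⁻¹) * (x ᵥ* m.1) b) = _
      by_cases ha : a = i
      · subst ha
        have : m.1 a j = ζ := hmij
        rw [this, Pi.single_eq_same]
        field_simp
      · have : m.1 a j = 0 := hmj a ha
        rw [this, Pi.single_eq_of_ne ha]
        ring
    · show g.2 * 1 = 1 * g.2
      simp
  refine ⟨j, z, hz, hz0, fun hsing => hns ?_⟩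
  have h8 := ms_map hsing (u p * M)
  rw [map_map_smul] at h8
  have h9 : μ'.map (fun z => u (p : ℝ) • z) = μ.map (fun z => (u p * M) • z) := map_map_smul μ _ _
  have h10 : μ'.map (fun z => u (q : ℝ) • z)
      = μ.map (fun z' => (u p * M * (rk (Pi.single j 1) z hz, (1 : H))) • z') := by
    rw [mul_assoc, hcomm, ← mul_assoc, ← hu, hk₀, add_sub_cancel]
    exact map_map_smul μ _ _
  rw [h9, h10]
  exact h8

end Pool.Agent.Work.MP_67388f_an
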