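import Pool.Agent.Work.MP_67388f_an.Cartan2

set_option autoImplicit false

namespace Pool.Agent.Work.MP_67388f_an

open Matrix Filter Topology Set MeasureTheory
open scoped ENNReal

variable {n : ℕ} {H : Type*} [Group H] [TopologicalSpace H] [IsTopologicalGroup H]
variable {X : Type*} [TopologicalSpace X] [LocallyCompactSpace X] [T2Space X]
  [SecondCountableTopology X] [MeasurableSpace X] [BorelSpace X]
  [MulAction (SpecialLinearGroup (Fin n) ℝ × H) X]
  [ContinuousSMul (SpecialLinearGroup (Fin n) ℝ × H) X]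

/-- Non-singularity with uniform mass passes to limits of group elements. -/
theorem limit_share {G : Type*} [Group G] [TopologicalSpace G] [IsTopologicalGroup G]
    {Y : Type*} [TopologicalSpace Y] [LocallyCompactSpace Y] [T2Space Y]
    [SecondCountableTopology Y] [MeasurableSpace Y] [BorelSpace Y]
    [MulAction G Y] [ContinuousSMul G Y]
    (μ : Measure Y) [IsProbabilityMeasure μ] (c : ℝ) (hc : 0 < c) (r : ℝ → G) (r' : G)
    (hr : Tendsto r atTop (𝓝 r'))
    (h : ∀ s : ℝ, ∀ f : C(Y, ℝ), (∀ z, 0 ≤ f z) → (∀ z, f z ≤ 1) →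
      c ≤ ∫ z, f (r s • z) ∂μ + ∫ z, (1 - f z) ∂μ) :
    ¬ μ ⟂ₘ (μ.map (fun z => r' • z)) := by
  have hprob : IsProbabilityMeasure (μ.map (fun z => r' • z)) :=
    Measure.isProbabilityMeasure_map (smul_measurable r').aemeasurable
  apply not_singular_of_overlap μ (μ.map (fun z => r' • z)) c hc
  intro f hfc hf0 hf1
  rw [integral_map (smul_measurable r').aemeasurable f.continuous.measurable.aestronglyMeasurable]
  apply le_of_forall_pos_le_add
  intro η hη
  have h1 : Tendsto (fun s => r s * r'⁻¹) atTop (𝓝 1) := by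
    have := hr.mul_const r'⁻¹
    rwa [mul_inv_cancel] at this
  obtain ⟨s, hs⟩ := (h1.eventually (unif_action f hfc η hη)).exists
  have h2 := h s f hf0 hf1
  have h3 : ∫ z, f (r s • z) ∂μ ≤ ∫ z, (f (r' • z) + η) ∂μ := by
    refine integral_mono ?_ ?_ ?_
    · exact integrable_01 μ ⟨fun z => f (r s • z), f.continuous.comp (continuous_const_smul _)⟩
        (fun z => hf0 _) (fun z => hf1 _)
    · refine Integrable.add ?_ (integrable_const η)
      exact integrable_01 μ ⟨fun z => f (r' • z), f.continuous.comp (continuous_const_smul _)⟩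
        (fun z => hf0 _) (fun z => hf1 _)
    · intro z
      have h4 := (abs_lt.1 (hs (r' • z))).2
      rw [smul_smul, inv_mul_cancel_right] at h4
      show f (r s • z) ≤ f (r' • z) + η
      linarith
  have h5 : ∫ z, (f (r' • z) + η) ∂μ = ∫ z, f (r' • z) ∂μ + η := by
    rw [integral_add _ (integrable_const η)]
    · simp
    · exact integrable_01 μ ⟨fun z => f (r' • z), f.continuous.comp (continuous_const_smul _)⟩
        (fun z => hf0 _) (fun z => hf1 _)
  linarith

/-- Second step: reduce to a root group element. -/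
theorem step_two (μ : Measure X) [IsProbabilityMeasure μ]
    (hμ : ∀ d : SpecialLinearGroup (Fin n) ℝ, IsPosDiag d → μ.map (fun z => (d, (1 : H)) • z) = μ)
    (j : Fin n) (z : Fin n → ℝ) (hz : z ⬝ᵥ (Pi.single j 1) = 0) (hz0 : z ≠ 0)
    (hns : ¬ μ ⟂ₘ (μ.map (fun w => (rk (Pi.single j 1) z hz, (1 : H)) • w))) :
    ∃ (l : Fin n) (hjl : j ≠ l) (x₀ : ℝ), x₀ ≠ 0 ∧
      ¬ μ ⟂ₘ (μ.map (fun w => (SpecialLinearGroup.transvection hjl x₀, (1 : H)) • w)) := by
  classical
  have hzj : z j = 0 := by
    rw [dotProduct_single, mul_one] at hz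
    exact hz
  obtain ⟨l, hl⟩ : ∃ l, z l ≠ 0 := by
    by_contra hcon
    push Not at hcon
    exact hz0 (funext hcon)
  have hjl : j ≠ l := by
    rintro rfl
    exact hl hzj
  have hn : (0 : ℝ) < n := by
    have : 0 < n := Fin.pos j
    exact_mod_cast this
  have hprob : IsProbabilityMeasure
      (μ.map (fun w => (rk (Pi.single j 1) z hz, (1 : H)) • w)) :=
    Measure.isProbabilityMeasure_map (smul_measurable _).aemeasurable
  obtain ⟨c, hc, hover⟩ := exists_overlap μ _ hns
  let zs : ℝ → Fin n → ℝ := fun s k => if k = l then z l else Real.exp (-(n * s)) * z k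
  have hzsj : ∀ s, zs s j = 0 := by
    intro s
    simp only [zs, if_neg hjl, hzj, mul_zero]
  let r : ℝ → SpecialLinearGroup (Fin n) ℝ × H := fun s =>
    (rk (Pi.single j 1) (zs s) (single_dot (hzsj s)), 1)
  refine ⟨l, hjl, z l, hl, ?_⟩
  apply limit_share μ c hc r
  · rw [nhds_prod_eq]
    refine Tendsto.prodMk ?_ tendsto_const_nhds
    refine tendsto_SL _ _ fun a b => ?_
    have e1 : ∀ s, ((rk (Pi.single j 1) (zs s) (single_dot (hzsj s)) :
        SpecialLinearGroup (Fin n) ℝ)).1 a b
        = (1 : Matrix _ _ ℝ) a b + (Pi.single j (1 : ℝ) : Fin n → ℝ) a * zs s b := by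
      intro s
      show (1 + vecMulVec (Pi.single j 1) (zs s) : Matrix _ _ ℝ) a b = _
      rw [Matrix.add_apply, vecMulVec_apply]
    have e2 : (SpecialLinearGroup.transvection hjl (z l)).1 a b
        = (1 : Matrix _ _ ℝ) a b + (Pi.single j (1 : ℝ) : Fin n → ℝ) a *
          (if b = l then z l else 0) := by
      show ((1 : Matrix (Fin n) (Fin n) ℝ) + Matrix.single j l (z l)) a b = _
      rw [Matrix.add_apply, Matrix.single_apply, Pi.single_apply]
      by_cases ha : a = j
      · by_cases hb : b = l
        · subst ha; subst hb; simp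
        · subst ha; simp [hb, Ne.symm hb]
      · simp [ha, Ne.symm ha]
    simp_rw [e1]
    rw [e2]
    refine Tendsto.add tendsto_const_nhds (Tendsto.mul tendsto_const_nhds ?_)
    by_cases hb : b = l
    · simp only [zs, if_pos hb]
      exact tendsto_const_nhds
    · simp only [zs, if_neg hb]
      have : Tendsto (fun s : ℝ => Real.exp (-(n * s))) atTop (𝓝 0) := by
        refine Real.tendsto_exp_atBot.comp ?_
        refine tendsto_neg_atTop_atBot.comp ?_
        exact tendsto_id.const_mul_atTop hn
      simpa using this.mul_const (z b)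
  · intro s f hf0 hf1
    have hd := isPosDiag_dg (tau2 j l s) (tau2_sum j l s)
    set d := dg (tau2 j l s) (tau2_sum j l s) with hd'
    let F : C(X, ℝ) := ⟨fun z => f ((d, (1 : H)) • z), f.continuous.comp (continuous_const_smul _)⟩
    have h1 := hover F (fun z => hf0 _) (fun z => hf1 _)
    have hcomm : (d, (1 : H)) * (rk (Pi.single j 1) z hz, (1 : H)) = r s * (d, (1 : H)) := by
      apply Prod.ext
      · show d * rk (Pi.single j 1) z hz = rk (Pi.single j 1) (zs s) (single_dot (hzsj s)) * d
        rw [hd']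
        apply dg_rk
        intro a b
        by_cases ha : a = j
        · subst ha
          rw [Pi.single_eq_same, one_mul, one_mul]
          by_cases hb : b = l
          · subst hb
            simp only [zs, if_true]
            have : tau2 a b s a = tau2 a b s b := by
              simp only [tau2, if_true, if_neg hjl, if_neg (Ne.symm hjl)]
              ring
            rw [this, mul_comm]
          · by_cases hb2 : b = a
            · subst hb2
              rw [hzj, hzsj, mul_zero, zero_mul]
            · simp only [zs, if_neg hb]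
              have h3 : tau2 a l s a = -(n * s) + tau2 a l s b := by
                simp only [tau2, if_true, if_neg hjl, if_neg hb, if_neg hb2]
                ring
              rw [h3, Real.exp_add]
              ring
        · simp [Pi.single_eq_of_ne ha]
      · show (1 : H) * 1 = 1 * 1
        rfl
    have h2 : ∫ w, F w ∂(μ.map (fun w => (rk (Pi.single j 1) z hz, (1 : H)) • w))
        = ∫ w, f (r s • w) ∂μ := by
      rw [integral_map (smul_measurable _).aemeasurable
        F.continuous.measurable.aestronglyMeasurable]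
      have e : ∀ w, F ((rk (Pi.single j 1) z hz, (1 : H)) • w) = f (r s • (d, (1 : H)) • w) := by
        intro w
        show f ((d, (1 : H)) • (rk (Pi.single j 1) z hz, (1 : H)) • w) = _
        rw [smul_smul, hcomm, mul_smul]
      simp_rw [e]
      exact integral_inv (hμ d hd) (⟨fun w => f (r s • w),
        f.continuous.comp (continuous_const_smul _)⟩ : C(X, ℝ))
    have h3 : ∫ w, (1 - F w) ∂μ = ∫ w, (1 - f w) ∂μ := by
      exact integral_inv (hμ d hd) (⟨fun w => 1 - f w,
        continuous_const.sub f.continuous⟩ : C(X, ℝ))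
    rw [h2, h3] at h1
    exact h1

lemma diag_ne_zero (a : SpecialLinearGroup (Fin n) ℝ)
    (ha : ∀ i j, i ≠ j → a i j = 0) (i : Fin n) : a i i ≠ 0 := by
  have h1 : a.1 = diagonal (fun i => a i i) := by
    ext i k
    by_cases h : i = k
    · subst h; rw [diagonal_apply_eq]
    · rw [diagonal_apply_ne _ h]; exact ha i k h
  have h2 := a.2
  rw [h1, det_diagonal] at h2
  have h3 : ∏ i, (fun i => a i i) i ≠ 0 := by
    rw [h2]; exact one_ne_zero
  exact Finset.prod_ne_zero_iff.1 h3 i (Finset.mem_univ i)

/-- Conjugating a transvection by an element with diagonal first component. -/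
lemma diag_transvection (a : SpecialLinearGroup (Fin n) ℝ)
    (ha : ∀ i j, i ≠ j → a i j = 0) {j l : Fin n} (hjl : j ≠ l) (x : ℝ) :
    a * SpecialLinearGroup.transvection hjl x
      = SpecialLinearGroup.transvection hjl (a j j * (a l l)⁻¹ * x) * a := by
  classical
  have hne := diag_ne_zero a ha
  obtain ⟨δ, hδ⟩ : ∃ δ : Fin n → ℝ, ∀ i, δ i = a i i := ⟨_, fun _ => rfl⟩
  have h1 : a.1 = diagonal δ := by
    ext i k
    by_cases h : i = k
    · subst h; rw [diagonal_apply_eq, hδ]
    · rw [diagonal_apply_ne _ h]; exact ha i k h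
  apply Subtype.ext
  rw [← hδ j, ← hδ l]
  show a.1 * (1 + Matrix.single j l x) = (1 + Matrix.single j l (δ j * (δ l)⁻¹ * x)) * a.1
  rw [mul_add, add_mul, mul_one, one_mul]
  congr 1
  rw [h1]
  ext b k
  rw [diagonal_mul, mul_diagonal, Matrix.single_apply, Matrix.single_apply]
  by_cases hb : j = b ∧ l = k
  · rw [if_pos hb, if_pos hb]
    obtain ⟨rfl, rfl⟩ := hb
    have h3 := hne l
    rw [← hδ] at h3
    field_simp
  · rw [if_neg hb, if_neg hb]; ring

/-- The theorem. -/
theorem cartan_main
    (A : Subgroup (SpecialLinearGroup (Fin n) ℝ × H))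
    (hAdiag : ∀ a ∈ A, ∀ i j, i ≠ j → a.1 i j = 0)
    (hAD : ∀ d : SpecialLinearGroup (Fin n) ℝ, IsPosDiag d → (d, (1 : H)) ∈ A)
    (μ ν : Measure X) [IsProbabilityMeasure μ] [IsProbabilityMeasure ν]
    (hμ : ∀ a ∈ A, μ.map (fun z => a • z) = μ)
    (herg : ∀ s : Set X, MeasurableSet s → (∀ a ∈ A, (fun z => a • z) ⁻¹' s =ᵐ[μ] s) →
      μ s = 0 ∨ μ sᶜ = 0)
    (hν : ∀ d : SpecialLinearGroup (Fin n) ℝ, IsPosDiag d → ν.map (fun z => (d, (1 : H)) • z) = ν)
    (hroot : ∀ (i j : Fin n) (hij : i ≠ j), ∃ x : ℝ,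
      μ.map (fun z => (SpecialLinearGroup.transvection hij x, (1 : H)) • z) ≠ μ)
    (g : SpecialLinearGroup (Fin n) ℝ × H) (hg : ¬ IsMonomial g.1) :
    (μ.map (fun z => g • z)) ⟂ₘ ν := by
  classical
  by_contra hs
  have hμ' : ∀ d : SpecialLinearGroup (Fin n) ℝ, IsPosDiag d →
      μ.map (fun z => (d, (1 : H)) • z) = μ := fun d hd => hμ _ (hAD d hd)
  obtain ⟨j, z, hz, hz0, h1⟩ := step_one μ ν hμ' hν g hg hs
  obtain ⟨l, hjl, x₀, hx₀, h2⟩ := step_two μ hμ' j z hz hz0 h1
  obtain ⟨x, hx⟩ := hroot j l hjl
  apply hx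
  let u : ℝ → SpecialLinearGroup (Fin n) ℝ × H := fun x =>
    (SpecialLinearGroup.transvection hjl x, 1)
  have hadd : ∀ x y, u (x + y) = u x * u y := by
    intro x y
    apply Prod.ext
    · exact SpecialLinearGroup.transvection_add hjl x y
    · show (1 : H) = 1 * 1
      rw [mul_one]
  have hu : Continuous u := by
    refine Continuous.prodMk ?_ continuous_const
    rw [continuous_iff_continuousAt]
    intro x
    refine tendsto_SL _ _ fun a b => ?_
    have : Continuous (fun x : ℝ => ((1 : Matrix (Fin n) (Fin n) ℝ) + Matrix.single j l x) a b) := by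
      simp only [Matrix.add_apply, Matrix.single_apply]
      by_cases h : j = a ∧ l = b
      · simp only [if_pos h]; fun_prop
      · simp only [if_neg h]; fun_prop
    exact this.tendsto x
  have hau : ∀ a ∈ A, ∃ l : ℝ, l ≠ 0 ∧ ∀ x, a * u x = u (l * x) * a := by
    intro a ha
    have hne : ∀ i, a.1 i i ≠ 0 := diag_ne_zero a.1 (hAdiag a ha)
    refine ⟨a.1 j j * (a.1 l l)⁻¹, mul_ne_zero (hne j) (inv_ne_zero (hne l)), fun x => ?_⟩
    apply Prod.ext
    · exact diag_transvection a.1 (hAdiag a ha) hjl x
    · show a.2 * 1 = 1 * a.2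
      rw [mul_one, one_mul]
  -- scaling elements
  have hscale : ∀ s : ℝ, ∃ a ∈ A, ∀ x, a * u x = u (Real.exp s * x) * a := by
    intro s
    refine ⟨(dg (tau3 j l s) (tau3_sum j l s), 1), hAD _ (isPosDiag_dg _ _), fun x => ?_⟩
    apply Prod.ext
    · show dg (tau3 j l s) (tau3_sum j l s) * SpecialLinearGroup.transvection hjl x
        = SpecialLinearGroup.transvection hjl (Real.exp s * x) * dg (tau3 j l s) (tau3_sum j l s)
      rw [diag_transvection _ (isPosDiag_dg _ _).1 hjl x]
      congr 2
      congr 1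
      have e1 : (dg (tau3 j l s) (tau3_sum j l s)).1 j j = Real.exp (s / 2) := by
        show (diagonal (fun i => Real.exp (tau3 j l s i))) j j = _
        rw [diagonal_apply_eq]
        simp only [tau3, if_true, if_neg hjl]
        ring_nf
      have e2 : (dg (tau3 j l s) (tau3_sum j l s)).1 l l = Real.exp (-(s / 2)) := by
        show (diagonal (fun i => Real.exp (tau3 j l s i))) l l = _
        rw [diagonal_apply_eq]
        simp only [tau3, if_true, if_neg (Ne.symm hjl)]
        ring_nf
      show (dg (tau3 j l s) (tau3_sum j l s)).1 j j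
        * ((dg (tau3 j l s) (tau3_sum j l s)).1 l l)⁻¹ = Real.exp s
      rw [e1, e2, ← Real.exp_neg, ← Real.exp_add]
      congr 1
      ring
    · rfl
  have hcon : ∀ e : ℝ, 0 < e → ∃ a ∈ A, ∃ l : ℝ, |l| < e ∧ ∀ x, a * u x = u (l * x) * a := by
    intro e he
    obtain ⟨a, ha, hax⟩ := hscale (Real.log (e / 2))
    refine ⟨a, ha, Real.exp (Real.log (e / 2)), ?_, hax⟩
    rw [Real.exp_log (by linarith), abs_of_pos (by linarith)]
    linarith
  refine inv_of_nonsingular μ A hμ herg u hu hadd hau hcon {x | 0 < x / x₀} ?_ ?_ x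
  · rcases lt_or_gt_of_ne hx₀ with h | h
    · have : {x : ℝ | 0 < x / x₀} = Iio 0 := by
        ext y
        simp only [mem_ofPred_eq, mem_Iio]
        constructor
        · intro hy
          by_contra hcon
          push Not at hcon
          exact absurd (div_nonpos_of_nonneg_of_nonpos hcon h.le) (not_le.2 hy)
        · intro hy
          exact div_pos_of_neg_of_neg hy h
      rw [this]; simp
    · have : {x : ℝ | 0 < x / x₀} = Ioi 0 := by
        ext y
        simp only [mem_ofPred_eq, mem_Ioi]
        constructor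
        · intro hy
          have := mul_pos hy h
          rwa [div_mul_cancel₀ _ h.ne'] at this
        · intro hy
          exact div_pos hy h
      rw [this]; simp
  · intro y hy hsing
    apply h2
    obtain ⟨a, ha, hax⟩ := hscale (Real.log (y / x₀))
    have h3 : Real.exp (Real.log (y / x₀)) * x₀ = y := by
      rw [Real.exp_log hy, div_mul_cancel₀ _ hx₀]
    have h4 := ms_map hsing a⁻¹
    rw [hμ _ (A.inv_mem ha), map_map_smul] at h4
    have h5 : a⁻¹ * u y = u x₀ * a⁻¹ := by
      rw [inv_mul_eq_iff_eq_mul, ← mul_assoc, hax, h3, mul_assoc, mul_inv_cancel, mul_one]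
    rw [h5, ← map_map_smul, hμ _ (A.inv_mem ha)] at h4
    exact h4

end Pool.Agent.Work.MP_67388f_an
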