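import Pool.Agent.Work.MP_67388f_an.Torus

set_option autoImplicit false

namespace Pool.Agent.Work.MP_67388f_an

open Filter Topology Set MeasureTheory
open scoped ENNReal Nat

variable {d : ℕ}

lemma exists_RB {k : ℕ} (M : Fin k → Matrix (Fin d) (Fin d) ℤ) : ∃ L : ℤ, 2 ≤ L ∧ ∀ i, RB (M i) L := by
  refine ⟨2 + ∑ i, ∑ a, ∑ b, |M i a b|, ?_, ?_⟩
  · have : 0 ≤ ∑ i, ∑ a, ∑ b, |M i a b| := by positivity
    linarith
  · intro i a
    have h1 : ∑ b, |M i a b| ≤ ∑ a, ∑ b, |M i a b| :=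
      Finset.single_le_sum (f := fun a => ∑ b, |M i a b|) (fun _ _ => by positivity)
        (Finset.mem_univ a)
    have h2 : ∑ a, ∑ b, |M i a b| ≤ ∑ i, ∑ a, ∑ b, |M i a b| :=
      Finset.single_le_sum (f := fun i => ∑ a, ∑ b, |M i a b|) (fun _ _ => by positivity)
        (Finset.mem_univ i)
    linarith

/-- From many visits to a set of small complexity one gets a small relation. -/
lemma relation_of_visits {k : ℕ} (M : Fin k → Matrix (Fin d) (Fin d) ℤ)
    (hM : ∀ n n' : Fin k → ℕ, n ≠ n' → (monomialAt M n - monomialAt M n').det ≠ 0)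
    (L : ℤ) (hL : 2 ≤ L) (hRB : ∀ i, RB (M i) L) (E : Set (Fin d → UnitAddCircle))
    (x : Fin d → UnitAddCircle) (N : ℕ) (r : ℝ) (F : Finset (Fin d → UnitAddCircle))
    (hF : E ⊆ ⋃ y ∈ F, Metric.ball y r) (S : Finset (Fin k → ℕ)) (hS : ∀ n ∈ S, (∀ i, n i ≤ N) ∧
      torusMap (monomialAt M n) x ∈ E) (hcard : F.card < S.card) :
    ∃ q : ℕ, 0 < q ∧ (q : ℝ) ≤ ((d ! * (2 * L ^ (k * N)) ^ d : ℤ) : ℝ) ∧
      ∀ i, ‖q • x i‖ ≤ d * ((d ! * (2 * L ^ (k * N)) ^ d : ℤ) : ℝ) * (2 * r) := by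
  classical
  have hch : ∀ n ∈ S, ∃ y ∈ F, torusMap (monomialAt M n) x ∈ Metric.ball y r := by
    intro n hn
    have := hF (hS n hn).2
    simpa using this
  choose! f hfF hf using hch
  obtain ⟨n, hn, n', hn', hne, hfe⟩ := Finset.exists_ne_map_eq_of_card_lt_of_maps_to hcard
    (f := f) (fun n hn => hfF n hn)
  set P := monomialAt M n - monomialAt M n' with hP
  have hP1 : ∀ i j, |P i j| ≤ 2 * L ^ (k * N) := by
    intro i j
    have h1 := (RB_monomial L (by linarith) N k M hRB n (hS n hn).1).entry i j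
    have h2 := (RB_monomial L (by linarith) N k M hRB n' (hS n' hn').1).entry i j
    rw [hP, Matrix.sub_apply]
    calc |monomialAt M n i j - monomialAt M n' i j|
        ≤ |monomialAt M n i j| + |monomialAt M n' i j| := abs_sub _ _
      _ ≤ _ := by linarith
  have hB : (1 : ℤ) ≤ 2 * L ^ (k * N) := by
    have : (1 : ℤ) ≤ L ^ (k * N) := one_le_pow₀ (by linarith)
    linarith
  refine ⟨P.det.natAbs, Int.natAbs_pos.2 (hM n n' hne), ?_, ?_⟩
  · have h1 := abs_det_le hP1
    have h2 : ((P.det.natAbs : ℤ) : ℝ) ≤ ((d ! * (2 * L ^ (k * N)) ^ d : ℤ) : ℝ) := by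
      rw [Int.natCast_natAbs]
      exact Int.cast_le.2 h1
    rwa [Int.cast_natCast] at h2
  · intro i
    apply det_smul_small hB hP1
    intro j
    rw [hP, torusMap_sub]
    have h1 := hf n hn
    have h2 := hf n' hn'
    rw [← hfe] at h2
    have h3 : dist (torusMap (monomialAt M n) x) (torusMap (monomialAt M n') x) < 2 * r := by
      calc dist (torusMap (monomialAt M n) x) (torusMap (monomialAt M n') x)
          ≤ dist (torusMap (monomialAt M n) x) (f n) + dist (torusMap (monomialAt M n') x) (f n) :=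
            dist_triangle_right _ _ _
        _ < r + r := add_lt_add h1 h2
        _ = 2 * r := by ring
    have h4 := (dist_le_pi_dist (torusMap (monomialAt M n) x) (torusMap (monomialAt M n') x) j)
    rw [dist_eq_norm] at h4
    exact (h4.trans h3.le)

theorem complexity_main (d k : ℕ) (M : Fin k → Matrix (Fin d) (Fin d) ℤ)
    (hM : ∀ n n' : Fin k → ℕ, n ≠ n' → (monomialAt M n - monomialAt M n').det ≠ 0)
    (m : ℝ) (hm : 0 < m) :
    ∃ c : ℝ, 0 < c ∧ ∀ (μ : Measure (Fin d → UnitAddCircle)) [IsProbabilityMeasure μ],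
      (∀ i, MeasurePreserving (torusMap (M i)) μ μ) →
      ∀ E : Set (Fin d → UnitAddCircle), MeasurableSet E → m ≤ μ.real E →
      (∀ᶠ t : ℕ in atTop, ∃ F : Finset (Fin d → UnitAddCircle), (F.card : ℝ) ≤ c * (t : ℝ) ^ k ∧
        E ⊆ ⋃ y ∈ F, Metric.ball y ((1 / 2 : ℝ) ^ t)) →
      (∃ x ∈ E, IsOfFinAddOrder x ∧ 0 < μ {x}) ∧
      ((∀ s : Set (Fin d → UnitAddCircle), MeasurableSet s →
        (∀ i, (torusMap (M i)) ⁻¹' s =ᵐ[μ] s) → μ s = 0 ∨ μ sᶜ = 0) →
        ∃ q : ℕ, 0 < q ∧ μ {x | q • x = 0}ᶜ = 0) := by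
  classical
  obtain ⟨L, hL, hRB⟩ := exists_RB M
  have hLr : (2 : ℝ) ≤ L := by exact_mod_cast hL
  have hlogL : 0 < Real.log L := Real.log_pos (by linarith)
  set ρ : ℝ := Real.exp (Real.log 2 / 4) with hρ
  have hρ0 : 0 < ρ := Real.exp_pos _
  have hρ1 : 1 ≤ ρ := by
    rw [hρ]
    apply Real.one_le_exp
    have := Real.log_pos (show (1 : ℝ) < 2 by norm_num)
    positivity
  have hρ4 : ρ ^ 4 = 2 := by
    rw [hρ, ← Real.exp_nat_mul]
    have : ((4 : ℕ) : ℝ) * (Real.log 2 / 4) = Real.log 2 := by push_cast; ring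
    rw [this, Real.exp_log (by norm_num)]
  have hlog2 : 0 < Real.log 2 := Real.log_pos (by norm_num)
  set θ : ℝ := Real.log 2 / (4 * ((k * d + 1 : ℕ) : ℝ) * Real.log L) with hθ
  have hθ0 : 0 < θ := by
    rw [hθ]
    positivity
  set c₀ := visitConst k m with hc₀
  have hc₀0 : 0 < c₀ := visitConst_pos k m hm
  refine ⟨c₀ * (θ / 2) ^ k / 2, by positivity, ?_⟩
  intro μ _ hμ E hE hmE hcov
  obtain ⟨E', hE', hE'0, hvis⟩ := good_set_multi k (fun i => torusMap (M i)) hμ E hE m hm hmE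
  -- parameters
  let N : ℕ → ℕ := fun t => ⌊θ * t⌋₊
  let K : ℕ → ℝ := fun t => ((d ! * (2 * L ^ (k * N t)) ^ d : ℤ) : ℝ)
  set C₁ : ℝ := d ! * 2 ^ d with hC₁
  have hC₁0 : 0 < C₁ := by rw [hC₁]; positivity
  have hK : ∀ t, K t ≤ C₁ * ρ ^ t := by
    intro t
    have h1 : K t = C₁ * (L : ℝ) ^ (k * d * N t) := by
      simp only [K]
      push_cast
      rw [mul_pow, ← pow_mul, hC₁]
      have : k * N t * d = k * d * N t := by ring
      rw [this]; ring
    rw [h1]
    apply mul_le_mul_of_nonneg_left _ hC₁0.le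
    have hL0 : (0 : ℝ) < L := by linarith
    have h2 : (L : ℝ) ^ (k * d * N t) = Real.exp ((k * d * N t : ℕ) * Real.log L) := by
      rw [Real.exp_nat_mul, Real.exp_log hL0]
    rw [h2, hρ, ← Real.exp_nat_mul]
    apply Real.exp_le_exp.2
    have h3 : (N t : ℝ) ≤ θ * t := Nat.floor_le (by positivity)
    have h4 : θ * (((k * d + 1 : ℕ) : ℝ) * Real.log L) = Real.log 2 / 4 := by
      rw [hθ]
      field_simp
    have h5 : ((k * d * N t : ℕ) : ℝ) ≤ ((k * d + 1 : ℕ) : ℝ) * (θ * t) := by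
      push_cast
      have : (0 : ℝ) ≤ N t := Nat.cast_nonneg _
      have h6 : (0 : ℝ) ≤ (k : ℝ) * d := by positivity
      nlinarith
    calc ((k * d * N t : ℕ) : ℝ) * Real.log L
        ≤ (((k * d + 1 : ℕ) : ℝ) * (θ * t)) * Real.log L :=
          mul_le_mul_of_nonneg_right h5 hlogL.le
      _ = t * (θ * (((k * d + 1 : ℕ) : ℝ) * Real.log L)) := by ring
      _ = t * (Real.log 2 / 4) := by rw [h4]
  have hK0 : ∀ t, 0 ≤ K t := by
    intro t
    have : (0 : ℤ) ≤ d ! * (2 * L ^ (k * N t)) ^ d := by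
      have : (0 : ℤ) ≤ L := by linarith
      positivity
    exact Int.cast_nonneg this
  let δ : ℕ → ℝ := fun t => d * K t * (2 * (1 / 2 : ℝ) ^ t)
  set C₂ : ℝ := 2 * d * C₁ with hC₂
  have hC₂0 : 0 ≤ C₂ := by rw [hC₂]; positivity
  have hδ1 : ∀ t, δ t ≤ C₂ * (ρ / 2) ^ t := by
    intro t
    have : δ t = (2 * d * (1 / 2 : ℝ) ^ t) * K t := by simp only [δ]; ring
    rw [this]
    calc (2 * d * (1 / 2 : ℝ) ^ t) * K t ≤ (2 * d * (1 / 2 : ℝ) ^ t) * (C₁ * ρ ^ t) :=
          mul_le_mul_of_nonneg_left (hK t) (by positivity)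
      _ = C₂ * (ρ / 2) ^ t := by
          rw [hC₂, div_pow, div_pow, one_pow]
          ring
  have hδ0 : ∀ t, 0 ≤ δ t := by
    intro t
    have := hK0 t
    simp only [δ]
    positivity
  have hρ2 : ρ ^ 2 < 2 := by
    by_contra hcon
    push Not at hcon
    have : (2 : ℝ) ^ 2 ≤ (ρ ^ 2) ^ 2 := pow_le_pow_left₀ (by norm_num) hcon 2
    rw [← pow_mul] at this
    norm_num at this
    rw [hρ4] at this
    norm_num at this
  have hρlt : ρ < 2 := by nlinarith
  have hδlim : Tendsto δ atTop (𝓝 0) := by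
    have h1 : Tendsto (fun t : ℕ => C₂ * (ρ / 2) ^ t) atTop (𝓝 0) := by
      have := tendsto_pow_atTop_nhds_zero_of_lt_one (show 0 ≤ ρ / 2 by positivity)
        (show ρ / 2 < 1 by linarith)
      simpa using this.const_mul C₂
    exact squeeze_zero hδ0 hδ1 h1
  have hprod : ∀ᶠ t in atTop, K (t + 1) * δ t + K t * δ (t + 1) < 1 := by
    have h1 : ∀ t, K (t + 1) * δ t + K t * δ (t + 1) ≤ (2 * C₁ * C₂ * ρ) * (ρ ^ 2 / 2) ^ t := by
      intro t
      have a1 : K (t + 1) * δ t ≤ (C₁ * ρ ^ (t + 1)) * (C₂ * (ρ / 2) ^ t) :=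
        mul_le_mul (hK _) (hδ1 _) (hδ0 _) (by positivity)
      have a2 : K t * δ (t + 1) ≤ (C₁ * ρ ^ t) * (C₂ * (ρ / 2) ^ (t + 1)) :=
        mul_le_mul (hK _) (hδ1 _) (hδ0 _) (by positivity)
      have a3 : (C₁ * ρ ^ (t + 1)) * (C₂ * (ρ / 2) ^ t) = (C₁ * C₂ * ρ) * (ρ ^ 2 / 2) ^ t := by
        rw [div_pow, div_pow, ← pow_mul, mul_comm 2 t, pow_mul, pow_succ]
        ring
      have a4 : (C₁ * ρ ^ t) * (C₂ * (ρ / 2) ^ (t + 1)) = (C₁ * C₂ * (ρ / 2)) * (ρ ^ 2 / 2) ^ t := by
        rw [pow_succ (ρ / 2), div_pow, div_pow, ← pow_mul, mul_comm 2 t, pow_mul]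
        ring
      have a5 : (C₁ * C₂ * (ρ / 2)) * (ρ ^ 2 / 2) ^ t ≤ (C₁ * C₂ * ρ) * (ρ ^ 2 / 2) ^ t := by
        apply mul_le_mul_of_nonneg_right _ (by positivity)
        have : 0 ≤ C₁ * C₂ := by positivity
        nlinarith
      calc K (t + 1) * δ t + K t * δ (t + 1)
          ≤ (C₁ * C₂ * ρ) * (ρ ^ 2 / 2) ^ t + (C₁ * C₂ * ρ) * (ρ ^ 2 / 2) ^ t := by
            rw [a3] at a1
            rw [a4] at a2
            linarith
        _ = _ := by ring
    have h2 : Tendsto (fun t : ℕ => (2 * C₁ * C₂ * ρ) * (ρ ^ 2 / 2) ^ t) atTop (𝓝 0) := by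
      have := tendsto_pow_atTop_nhds_zero_of_lt_one (show 0 ≤ ρ ^ 2 / 2 by positivity)
        (show ρ ^ 2 / 2 < 1 by linarith)
      simpa using this.const_mul (2 * C₁ * C₂ * ρ)
    filter_upwards [h2.eventually (gt_mem_nhds (show (0 : ℝ) < 1 by norm_num))] with t ht
    exact (h1 t).trans_lt ht
  have hN : ∀ᶠ t : ℕ in atTop, c₀ * (θ / 2) ^ k / 2 * (t : ℝ) ^ k < c₀ * (N t : ℝ) ^ k := by
    have h1 : ∀ᶠ t : ℕ in atTop, 2 / θ + 1 ≤ (t : ℝ) := by
      exact (tendsto_natCast_atTop_atTop (R := ℝ)).eventually_ge_atTop _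
    filter_upwards [h1] with t ht
    have ht0 : (0 : ℝ) < t := by
      have : 0 < 2 / θ := by positivity
      linarith
    have h2 : θ / 2 * t ≤ N t := by
      have h3 : θ * t < N t + 1 := Nat.lt_floor_add_one _
      have h4 : 2 ≤ θ * t := by
        have : 2 / θ ≤ (t : ℝ) := by linarith
        rwa [div_le_iff₀ hθ0, mul_comm] at this
      linarith
    calc c₀ * (θ / 2) ^ k / 2 * (t : ℝ) ^ k < c₀ * (θ / 2) ^ k * (t : ℝ) ^ k := by
          apply mul_lt_mul_of_pos_right _ (by positivity)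
          have : 0 < c₀ * (θ / 2) ^ k := by positivity
          linarith
      _ = c₀ * (θ / 2 * t) ^ k := by rw [mul_pow]; ring
      _ ≤ c₀ * (N t : ℝ) ^ k := by
          apply mul_le_mul_of_nonneg_left _ hc₀0.le
          exact pow_le_pow_left₀ (by positivity) h2 k
  obtain ⟨t₀, ht₀⟩ := eventually_atTop.1 (hcov.and (hprod.and hN))
  -- every point of E' satisfies relations at all scales
  have hrel : ∀ x ∈ E', ∀ t, t₀ ≤ t → ∃ q : ℕ, 0 < q ∧ (q : ℝ) ≤ K t ∧ ∀ i, ‖q • x i‖ ≤ δ t := by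
    intro x hx t ht
    obtain ⟨⟨F, hFc, hF⟩, -, hNt⟩ := ht₀ t ht
    have h1 := hvis x hx (N t)
    set S := (Fintype.piFinset fun _ : Fin k => Finset.range (N t)).filter
          fun n => iterMap k (fun i => torusMap (M i)) n x ∈ E with hS
    have hcard : F.card < S.card := by
      have : (F.card : ℝ) < S.card := by linarith
      exact_mod_cast this
    refine relation_of_visits M hM L hL hRB E x (N t) ((1 / 2 : ℝ) ^ t) F hF S ?_ hcard
    intro n hn
    have hn' := Finset.mem_filter.1 hn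
    refine ⟨fun i => ?_, ?_⟩
    · exact (Finset.mem_range.1 (Fintype.mem_piFinset.1 hn'.1 i)).le
    · rw [← iterMap_torus]
      exact hn'.2
  have htors : ∀ x ∈ E', ∃ q : ℕ, 0 < q ∧ q • x = 0 := by
    intro x hx
    have h1 := fun t : ℕ => (show ∃ q : ℕ, t₀ ≤ t → (0 < q ∧ (q : ℝ) ≤ K t ∧ ∀ i, ‖q • x i‖ ≤ δ t) by
      by_cases ht : t₀ ≤ t
      · obtain ⟨q, hq⟩ := hrel x hx t ht
        exact ⟨q, fun _ => hq⟩
      · exact ⟨0, fun h => absurd h ht⟩)
    choose q hq using h1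
    refine ⟨q t₀, (hq t₀ le_rfl).1, ?_⟩
    ext i
    rw [Pi.smul_apply, Pi.zero_apply]
    refine torsion_of_relations (x i) q δ t₀ (fun t ht => (hq t ht).1)
      (fun t ht => (hq t ht).2.2 i) hδlim ?_ t₀ le_rfl
    intro t ht
    obtain ⟨-, h2, -⟩ := ht₀ t ht
    refine lt_of_le_of_lt ?_ h2
    apply add_le_add
    · exact mul_le_mul_of_nonneg_right (hq (t + 1) (by omega)).2.1 (hδ0 _)
    · exact mul_le_mul_of_nonneg_right (hq t ht).2.1 (hδ0 _)
  -- points of E' lie in E
  have hsub : E' ⊆ E := by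
    intro x hx
    have h1 := hvis x hx 1
    have h2 : 0 < ((Fintype.piFinset fun _ : Fin k => Finset.range 1).filter
          fun n => iterMap k (fun i => torusMap (M i)) n x ∈ E).card := by
      have : (0 : ℝ) < ((Fintype.piFinset fun _ : Fin k => Finset.range 1).filter
          fun n => iterMap k (fun i => torusMap (M i)) n x ∈ E).card := by
        refine lt_of_lt_of_le ?_ h1
        simp only [Nat.cast_one, one_pow, mul_one]
        exact hc₀0
      exact_mod_cast this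
    obtain ⟨n, hn⟩ := Finset.card_pos.1 h2
    have hn' := Finset.mem_filter.1 hn
    have hn0 : n = fun _ => 0 := by
      ext i
      have := Finset.mem_range.1 (Fintype.mem_piFinset.1 hn'.1 i)
      omega
    have h3 := hn'.2
    rw [iterMap_torus, hn0] at h3
    have h4 : monomialAt M (fun _ => 0) = 1 := by
      unfold monomialAt
      simp
    rw [h4, torusMap_one] at h3
    exact h3
  -- torsion points are countable
  have hfin : ∀ q : ℕ, 0 < q → {x : Fin d → UnitAddCircle | q • x = 0}.Finite := by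
    intro q hq
    have h1 : {y : UnitAddCircle | q • y = 0}.Finite := AddCircle.finite_torsion (1 : ℝ) hq
    have h2 : (Set.pi univ (fun _ : Fin d => {y : UnitAddCircle | q • y = 0})).Finite :=
      Set.Finite.pi fun _ => h1
    refine h2.subset ?_
    intro x hx i _
    have : q • x = 0 := hx
    have := congrFun this i
    exact this
  have hcount : E'.Countable := by
    have h1 : E' ⊆ ⋃ q : ℕ, {x : Fin d → UnitAddCircle | 0 < q ∧ q • x = 0} := by
      intro x hx
      obtain ⟨q, hq, hqx⟩ := htors x hx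
      exact mem_iUnion.2 ⟨q, hq, hqx⟩
    refine (Set.countable_iUnion fun q => ?_).mono h1
    rcases Nat.eq_zero_or_pos q with h | h
    · have : {x : Fin d → UnitAddCircle | 0 < q ∧ q • x = 0} = ∅ := by
        ext x
        simp [h]
      rw [this]; exact countable_empty
    · refine ((hfin q h).subset ?_).countable
      intro x hx
      exact hx.2
  have hatom : ∃ x ∈ E', 0 < μ {x} := by
    by_contra hcon
    push Not at hcon
    have h1 : μ E' = 0 := by
      rw [← biUnion_of_singleton E']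
      rw [measure_biUnion_null_iff hcount]
      intro x hx
      exact le_antisymm (hcon x hx) zero_le
    have h2 : μ.real E' = 0 := by
      rw [measureReal_def, h1]; rfl
    linarith
  obtain ⟨x, hx, hμx⟩ := hatom
  obtain ⟨q, hq, hqx⟩ := htors x hx
  refine ⟨⟨x, hsub hx, isOfFinAddOrder_iff_nsmul_eq_zero.2 ⟨q, hq, hqx⟩, hμx⟩, ?_⟩
  intro herg
  refine ⟨q, hq, ?_⟩
  have hm1 : MeasurableSet {x : Fin d → UnitAddCircle | q • x = 0} := (hfin q hq).measurableSet
  have h1 := herg {x | q • x = 0} hm1 ?_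
  · rcases h1 with h | h
    · exfalso
      have : μ {x} ≤ μ {x : Fin d → UnitAddCircle | q • x = 0} := by
        apply measure_mono
        intro y hy
        rw [mem_singleton_iff.1 hy]
        exact hqx
      rw [h] at this
      exact absurd hμx (not_lt.2 this)
    · exact h
  · intro i
    have hsub2 : {x : Fin d → UnitAddCircle | q • x = 0}
        ⊆ torusMap (M i) ⁻¹' {x | q • x = 0} := by
      intro y hy
      have hy' : q • y = 0 := hy
      show q • torusMap (M i) y = 0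
      ext j
      have : q • torusMap (M i) y j = ∑ l, M i j l • (q • y l) := by
        simp only [torusMap, Finset.smul_sum]
        refine Finset.sum_congr rfl fun l _ => ?_
        rw [smul_comm]
      rw [Pi.smul_apply, this, Pi.zero_apply]
      refine Finset.sum_eq_zero fun l _ => ?_
      have h3 : q • y l = 0 := congrFun hy' l
      rw [h3, smul_zero]
    have hmeas : μ (torusMap (M i) ⁻¹' {x | q • x = 0}) = μ {x | q • x = 0} :=
      (hμ i).measure_preimage hm1.nullMeasurableSet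
    exact (ae_eq_of_subset_of_measure_ge hsub2 hmeas.le hm1.nullMeasurableSet
      (measure_ne_top _ _)).symm

end Pool.Agent.Work.MP_67388f_an
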