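import Mathlib

set_option autoImplicit false

namespace Pool.Agent.Work.MP_67388f_an

open MeasureTheory Set
open scoped ENNReal

/-- Multiplicatively independent natural numbers. -/
def MulIndep (a b : ℕ) : Prop := ∀ m n : ℕ, a ^ m = b ^ n → m = 0 ∧ n = 0

/-- The set of `t` in the circle `ℝ / ℤ` for which `ν` and the translate of `μ` by `t` share
mass at least `c`: the Borel sets `s` cannot carry less than `c` of `ν` while their complement
carries the rest of the translate. -/
def shareSet (μ ν : Measure UnitAddCircle) (c : ℝ≥0∞) : Set UnitAddCircle :=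
  {t | ∀ s : Set UnitAddCircle, MeasurableSet s → c ≤ ν s + (μ.map (fun x => x + t)) sᶜ}

end Pool.Agent.Work.MP_67388f_an
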