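import Mathlib

set_option autoImplicit false

namespace Pool.Agent.Work.MP_67388f_an

open Matrix

/-- `d` is a diagonal matrix of determinant one with positive diagonal entries. -/
def IsPosDiag {n : ℕ} (d : SpecialLinearGroup (Fin n) ℝ) : Prop :=
  (∀ i j, i ≠ j → d i j = 0) ∧ ∀ i, 0 < d i i

/-- `g` is a monomial matrix: no row has two nonzero entries. Since `g` is invertible this means
exactly one nonzero entry in every row and column, i.e. `g` normalizes the diagonal group. -/
def IsMonomial {n : ℕ} (g : SpecialLinearGroup (Fin n) ℝ) : Prop :=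
  ∀ i j k, g i j ≠ 0 → g i k ≠ 0 → j = k

end Pool.Agent.Work.MP_67388f_an
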