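import Mathlib

set_option autoImplicit false

namespace Pool.Agent.Work.MP_67388f_an

/-- The endomorphism of the torus `(ℝ / ℤ)^d` given by an integer matrix. -/
def torusMap {d : ℕ} (M : Matrix (Fin d) (Fin d) ℤ) (x : Fin d → UnitAddCircle) :
    Fin d → UnitAddCircle :=
  fun i => ∑ j, M i j • x j

/-- The ordered monomial `M_0 ^ n_0 * M_1 ^ n_1 * ⋯` in a finite family of integer matrices. -/
def monomialAt {d k : ℕ} (M : Fin k → Matrix (Fin d) (Fin d) ℤ) (n : Fin k → ℕ) :
    Matrix (Fin d) (Fin d) ℤ :=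
  (List.ofFn fun i => M i ^ n i).prod

end Pool.Agent.Work.MP_67388f_an
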