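import Pool.Agent.Work.MP_67388f_an.Defs

set_option autoImplicit false

namespace Pool.Agent.Work.MP_67388f_an

open Filter Topology Set

/-- Scale covering from a pair u / v slightly bigger than one. -/
lemma scale_aux (u v c : ℕ) (hc : 2 ≤ c) (hv : 1 ≤ v) (ε : ℝ)
    (h1 : (v : ℝ) < u) (h2 : (u : ℝ) ≤ (1 + ε) * v) :
    ∃ T₀ : ℝ, 0 < T₀ ∧ ∀ T : ℝ, T₀ ≤ T → ∃ i j N : ℕ, T ≤ (u : ℝ) ^ i * v ^ j * c ^ N ∧
      (u : ℝ) ^ i * v ^ j * c ^ N ≤ (1 + ε) * T := by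
  have hv' : (0 : ℝ) < v := by exact_mod_cast hv
  have hu' : (0 : ℝ) < u := hv'.trans h1
  have hc' : (2 : ℝ) ≤ c := by exact_mod_cast hc
  have hr : 1 < (u : ℝ) / v := by rwa [one_lt_div hv']
  obtain ⟨K, hK⟩ := pow_unbounded_of_one_lt (c : ℝ) hr
  have hε : 0 ≤ 1 + ε := by
    by_contra hneg
    push Not at hneg
    nlinarith [mul_neg_of_neg_of_pos hneg hv']
  have hε1 : 1 ≤ 1 + ε := by
    by_contra hneg
    push Not at hneg
    nlinarith
  refine ⟨(v : ℝ) ^ K, by positivity, fun T hT => ?_⟩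
  have hvK : (0 : ℝ) < (v : ℝ) ^ K := by positivity
  have hTpos : 0 < T := hvK.trans_le hT
  -- choose N maximal with c^N * v^K ≤ T
  have hex : ∃ N : ℕ, T < (c : ℝ) ^ (N + 1) * v ^ K := by
    obtain ⟨N, hN⟩ := pow_unbounded_of_one_lt (T / v ^ K) (by linarith : (1 : ℝ) < c)
    refine ⟨N, ?_⟩
    rw [div_lt_iff₀ hvK] at hN
    refine hN.trans_le ?_
    have : (c : ℝ) ^ N ≤ (c : ℝ) ^ (N + 1) := pow_le_pow_right₀ (by linarith) (Nat.le_succ N)
    exact mul_le_mul_of_nonneg_right this hvK.le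
  classical
  let N := Nat.find hex
  have hN1 : T < (c : ℝ) ^ (N + 1) * v ^ K := Nat.find_spec hex
  have hN2 : (c : ℝ) ^ N * v ^ K ≤ T := by
    rcases Nat.eq_zero_or_pos N with h0 | hpos
    · rw [h0]; simpa using hT
    · have := Nat.find_min hex (Nat.sub_lt hpos one_pos)
      push Not at this
      have hN' : N - 1 + 1 = N := Nat.sub_add_cancel hpos
      rw [show Nat.find hex = N from rfl, hN'] at this
      exact this
  have hex2 : ∃ i : ℕ, T ≤ ((u : ℝ) / v) ^ i * (c ^ N * v ^ K) := by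
    refine ⟨K, ?_⟩
    have h3 : (c : ℝ) * (c ^ N * v ^ K) ≤ ((u : ℝ) / v) ^ K * (c ^ N * v ^ K) :=
      mul_le_mul_of_nonneg_right hK.le (by positivity)
    have h4 : (c : ℝ) * (c ^ N * v ^ K) = (c : ℝ) ^ (N + 1) * v ^ K := by ring
    linarith
  let i := Nat.find hex2
  have hi1 : T ≤ ((u : ℝ) / v) ^ i * (c ^ N * v ^ K) := Nat.find_spec hex2
  have hiK : i ≤ K := Nat.find_min' hex2 (by
    have h3 : (c : ℝ) * (c ^ N * v ^ K) ≤ ((u : ℝ) / v) ^ K * (c ^ N * v ^ K) :=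
      mul_le_mul_of_nonneg_right hK.le (by positivity)
    have h4 : (c : ℝ) * (c ^ N * v ^ K) = (c : ℝ) ^ (N + 1) * v ^ K := by ring
    linarith)
  have hi2 : ((u : ℝ) / v) ^ i * (c ^ N * v ^ K) ≤ (1 + ε) * T := by
    rcases Nat.eq_zero_or_pos i with h0 | hpos
    · rw [h0]
      have : ((u : ℝ) / v) ^ 0 * (c ^ N * v ^ K) = (c : ℝ) ^ N * v ^ K := by ring
      rw [this]
      nlinarith
    · have hlt := Nat.find_min hex2 (Nat.sub_lt hpos one_pos)
      push Not at hlt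
      rw [show Nat.find hex2 = i from rfl] at hlt
      have hsplit : ((u : ℝ) / v) ^ i * (c ^ N * v ^ K)
          = ((u : ℝ) / v) * (((u : ℝ) / v) ^ (i - 1) * (c ^ N * v ^ K)) := by
        conv_lhs => rw [← Nat.sub_add_cancel hpos]
        rw [pow_succ]; ring
      rw [hsplit]
      have hle : (u : ℝ) / v ≤ 1 + ε := by rwa [div_le_iff₀ hv']
      calc ((u : ℝ) / v) * (((u : ℝ) / v) ^ (i - 1) * (c ^ N * v ^ K))
          ≤ (1 + ε) * (((u : ℝ) / v) ^ (i - 1) * (c ^ N * v ^ K)) :=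
            mul_le_mul_of_nonneg_right hle (by positivity)
        _ ≤ (1 + ε) * T := mul_le_mul_of_nonneg_left hlt.le hε
  refine ⟨i, K - i, N, ?_, ?_⟩
  · have : (u : ℝ) ^ i * v ^ (K - i) * c ^ N = ((u : ℝ) / v) ^ i * (c ^ N * v ^ K) := by
      rw [div_pow]
      have : (v : ℝ) ^ K = v ^ i * v ^ (K - i) := by rw [← pow_add, Nat.add_sub_cancel' hiK]
      rw [this]; field_simp
    rw [this]; exact hi1
  · have : (u : ℝ) ^ i * v ^ (K - i) * c ^ N = ((u : ℝ) / v) ^ i * (c ^ N * v ^ K) := by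
      rw [div_pow]
      have : (v : ℝ) ^ K = v ^ i * v ^ (K - i) := by rw [← pow_add, Nat.add_sub_cancel' hiK]
      rw [this]; field_simp
    rw [this]; exact hi2

lemma MulIndep.pow {a b : ℕ} (h : MulIndep a b) {k : ℕ} (hk : 0 < k) :
    MulIndep (a ^ k) (b ^ k) := by
  intro m n hmn
  rw [← pow_mul, ← pow_mul] at hmn
  obtain ⟨h1, h2⟩ := h _ _ hmn
  constructor
  · rcases Nat.mul_eq_zero.1 h1 with h | h <;> omega
  · rcases Nat.mul_eq_zero.1 h2 with h | h <;> omega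

lemma MulIndep.symm {a b : ℕ} (h : MulIndep a b) : MulIndep b a := by
  intro m n hmn
  exact (h n m hmn.symm).symm

/-- Two powers which are close but distinct. -/
lemma close_powers (a b : ℕ) (ha : 2 ≤ a) (hb : 2 ≤ b) (h : MulIndep a b) (ε : ℝ) (hε : 0 < ε) :
    ∃ k j : ℕ, (((b : ℝ) ^ j < (a : ℝ) ^ k ∧ (a : ℝ) ^ k ≤ (1 + ε) * (b : ℝ) ^ j) ∨
      ((a : ℝ) ^ k < (b : ℝ) ^ j ∧ (b : ℝ) ^ j ≤ (1 + ε) * (a : ℝ) ^ k)) := by
  have hla : 0 < Real.log a := Real.log_pos (by exact_mod_cast ha)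
  have hlb : 0 < Real.log b := Real.log_pos (by exact_mod_cast hb)
  have hl1 : 0 < Real.log (1 + ε) := Real.log_pos (by linarith)
  obtain ⟨n, hn⟩ := exists_nat_gt (Real.log b / Real.log (1 + ε))
  have hn0 : 0 < n := by
    have : (0 : ℝ) < n := (div_pos hlb hl1).trans hn
    exact_mod_cast this
  obtain ⟨k, hk0, hkn, hk⟩ := Real.exists_nat_abs_mul_sub_round_le (Real.log a / Real.log b) hn0
  set r : ℤ := round ((k : ℝ) * (Real.log a / Real.log b)) with hr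
  have hrnn : 0 ≤ r := by
    rw [hr, round_eq]
    apply Int.floor_nonneg.2
    positivity
  obtain ⟨j, hj⟩ := Int.eq_ofNat_of_zero_le hrnn
  have hj' : (r : ℝ) = (j : ℝ) := by rw [hj]; simp
  rw [hj'] at hk
  -- multiply by log b
  have hmul : |(k : ℝ) * Real.log a - j * Real.log b| ≤ Real.log (1 + ε) := by
    have e : (k : ℝ) * Real.log a - j * Real.log b
        = ((k : ℝ) * (Real.log a / Real.log b) - j) * Real.log b := by
      field_simp
    rw [e, abs_mul, abs_of_pos hlb]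
    calc |(k : ℝ) * (Real.log a / Real.log b) - j| * Real.log b
        ≤ (1 / ((n : ℝ) + 1)) * Real.log b := mul_le_mul_of_nonneg_right hk hlb.le
      _ ≤ Real.log (1 + ε) := by
          rw [div_lt_iff₀ hl1] at hn
          rw [one_div, inv_mul_le_iff₀ (by positivity)]
          nlinarith
  have hne : (a : ℝ) ^ k ≠ (b : ℝ) ^ j := by
    intro heq
    have : a ^ k = b ^ j := by exact_mod_cast heq
    have := (h _ _ this).1
    omega
  have hak : (0 : ℝ) < (a : ℝ) ^ k := by positivity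
  have hbj : (0 : ℝ) < (b : ℝ) ^ j := by positivity
  refine ⟨k, j, ?_⟩
  have hlog : Real.log ((a : ℝ) ^ k) - Real.log ((b : ℝ) ^ j) = (k : ℝ) * Real.log a - j * Real.log b := by
    rw [Real.log_pow, Real.log_pow]
  rcases lt_or_gt_of_ne hne with hlt | hgt
  · right
    refine ⟨hlt, ?_⟩
    have h1 : Real.log ((b : ℝ) ^ j) ≤ Real.log ((1 + ε) * (a : ℝ) ^ k) := by
      rw [Real.log_mul (by linarith) hak.ne']
      have := (abs_le.1 hmul).1
      linarith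
    exact (Real.log_le_log_iff hbj (by positivity)).1 h1
  · left
    refine ⟨hgt, ?_⟩
    have h1 : Real.log ((a : ℝ) ^ k) ≤ Real.log ((1 + ε) * (b : ℝ) ^ j) := by
      rw [Real.log_mul (by linarith) hbj.ne']
      have := (abs_le.1 hmul).2
      linarith
    exact (Real.log_le_log_iff hak (by positivity)).1 h1

/-- Non-lacunarity of the semigroup generated by `a` and `b`. -/
lemma nonlacunary (a b : ℕ) (ha : 2 ≤ a) (hb : 2 ≤ b) (h : MulIndep a b) (ε : ℝ) (hε : 0 < ε) :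
    ∃ T₀ : ℝ, 0 < T₀ ∧ ∀ T : ℝ, T₀ ≤ T → ∃ m n : ℕ, T ≤ (a : ℝ) ^ m * (b : ℝ) ^ n ∧
      (a : ℝ) ^ m * (b : ℝ) ^ n ≤ (1 + ε) * T := by
  obtain ⟨k, j, hkj⟩ := close_powers a b ha hb h ε hε
  rcases hkj with ⟨h1, h2⟩ | ⟨h1, h2⟩
  · obtain ⟨T₀, hT₀, hT⟩ := scale_aux (a ^ k) (b ^ j) b hb (Nat.one_le_pow _ _ (by omega)) ε
      (by push_cast; exact h1) (by push_cast; exact h2)
    refine ⟨T₀, hT₀, fun T hTT => ?_⟩
    obtain ⟨i, l, N, h3, h4⟩ := hT T hTT
    refine ⟨k * i, j * l + N, ?_, ?_⟩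
    · have e : (a : ℝ) ^ (k * i) * (b : ℝ) ^ (j * l + N) = ((a ^ k : ℕ) : ℝ) ^ i * ((b ^ j : ℕ) : ℝ) ^ l * b ^ N := by
        push_cast; rw [pow_mul, pow_add, pow_mul]; ring
      rw [e]; exact h3
    · have e : (a : ℝ) ^ (k * i) * (b : ℝ) ^ (j * l + N) = ((a ^ k : ℕ) : ℝ) ^ i * ((b ^ j : ℕ) : ℝ) ^ l * b ^ N := by
        push_cast; rw [pow_mul, pow_add, pow_mul]; ring
      rw [e]; exact h4
  · obtain ⟨T₀, hT₀, hT⟩ := scale_aux (b ^ j) (a ^ k) a ha (Nat.one_le_pow _ _ (by omega)) ε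
      (by push_cast; exact h1) (by push_cast; exact h2)
    refine ⟨T₀, hT₀, fun T hTT => ?_⟩
    obtain ⟨i, l, N, h3, h4⟩ := hT T hTT
    refine ⟨k * l + N, j * i, ?_, ?_⟩
    · have e : (a : ℝ) ^ (k * l + N) * (b : ℝ) ^ (j * i) = ((b ^ j : ℕ) : ℝ) ^ i * ((a ^ k : ℕ) : ℝ) ^ l * a ^ N := by
        push_cast; rw [pow_mul, pow_add, pow_mul]; ring
      rw [e]; exact h3
    · have e : (a : ℝ) ^ (k * l + N) * (b : ℝ) ^ (j * i) = ((b ^ j : ℕ) : ℝ) ^ i * ((a ^ k : ℕ) : ℝ) ^ l * a ^ N := by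
        push_cast; rw [pow_mul, pow_add, pow_mul]; ring
      rw [e]; exact h4

end Pool.Agent.Work.MP_67388f_an
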