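import Pool.Agent.Work.MP_67388f_an.Furst

set_option autoImplicit false

namespace Pool.Agent.Work.MP_67388f_an

open Filter Topology Set

lemma norm_coe_le (r : ℝ) : ‖(r : UnitAddCircle)‖ ≤ |r| := by
  rw [UnitAddCircle.norm_eq]
  simpa using round_le r 0

lemma exists_rep_small (x : UnitAddCircle) : ∃ r : ℝ, (r : UnitAddCircle) = x ∧ |r| = ‖x‖ := by
  induction x using QuotientAddGroup.induction_on with
  | H z =>
    refine ⟨z - round z, ?_, ?_⟩
    · have : ((round z : ℝ) : UnitAddCircle) = 0 := by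
        rw [AddCircle.coe_eq_zero_iff]
        exact ⟨round z, by simp⟩
      rw [AddCircle.coe_sub, this, sub_zero]
    · rw [UnitAddCircle.norm_eq]

lemma exists_rep_Ico (y : UnitAddCircle) : ∃ r : ℝ, 0 ≤ r ∧ r < 1 ∧ (r : UnitAddCircle) = y := by
  refine ⟨(AddCircle.equivIco 1 0 y : ℝ), ?_, ?_, AddCircle.coe_equivIco⟩
  · exact (AddCircle.equivIco 1 0 y).2.1
  · simpa using (AddCircle.equivIco 1 0 y).2.2

lemma exists_rep_Ioc (y : UnitAddCircle) : ∃ r : ℝ, 0 < r ∧ r ≤ 1 ∧ (r : UnitAddCircle) = y := by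
  obtain ⟨r, h0, h1, hr⟩ := exists_rep_Ico y
  rcases h0.eq_or_lt with h | h
  · refine ⟨1, one_pos, le_rfl, ?_⟩
    rw [← hr, ← h]
    simp
  · exact ⟨r, h, h1.le, hr⟩

lemma nat_smul_coe (n : ℕ) (r : ℝ) : n • (r : UnitAddCircle) = (((n : ℝ) * r : ℝ) : UnitAddCircle) := by
  rw [← AddCircle.coe_nsmul, nsmul_eq_mul]

lemma pow_smul_mem {B : Set UnitAddCircle} {a : ℕ} (ha : ∀ x ∈ B, a • x ∈ B) (m : ℕ) :
    ∀ x ∈ B, (a ^ m) • x ∈ B := by
  induction m with
  | zero => intro x hx; simpa using hx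
  | succ m ih =>
    intro x hx
    rw [pow_succ, mul_smul]
    exact ih _ (ha _ hx)

/-- If `0` is an accumulation point of a closed invariant set, the set is everything. -/
lemma eq_univ_of_acc_zero (a b : ℕ) (ha : 2 ≤ a) (hb : 2 ≤ b) (h : MulIndep a b)
    (B : Set UnitAddCircle) (hB : IsClosed B) (hBa : ∀ x ∈ B, a • x ∈ B) (hBb : ∀ x ∈ B, b • x ∈ B)
    (h0 : ∀ ε : ℝ, 0 < ε → ∃ x ∈ B, x ≠ 0 ∧ ‖x‖ < ε) : B = univ := by
  apply eq_univ_of_forall
  intro y
  rw [← hB.closure_eq, Metric.mem_closure_iff]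
  intro ε hε
  obtain ⟨T₀, hT₀, hT⟩ := nonlacunary a b ha hb h (ε / 2) (by linarith)
  -- main estimate
  have key : ∀ (w : ℝ) (y1 : ℝ), 0 < w → 0 < y1 → y1 ≤ 1 → T₀ ≤ y1 / w →
      ∃ m n : ℕ, |((a ^ m * b ^ n : ℕ) : ℝ) * w - y1| < ε := by
    intro w y1 hw hy1 hy1' hT1
    obtain ⟨m, n, h1, h2⟩ := hT _ hT1
    refine ⟨m, n, ?_⟩
    rw [div_le_iff₀ hw] at h1
    have h3 : (a : ℝ) ^ m * (b : ℝ) ^ n * w ≤ (1 + ε / 2) * y1 := by
      have := mul_le_mul_of_nonneg_right h2 hw.le
      calc (a : ℝ) ^ m * (b : ℝ) ^ n * w ≤ (1 + ε / 2) * (y1 / w) * w := this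
        _ = (1 + ε / 2) * y1 := by field_simp
    push_cast
    rw [abs_of_nonneg (by linarith)]
    nlinarith
  obtain ⟨y1, hy1, hy1', hyy⟩ := exists_rep_Ioc y
  obtain ⟨y2, hy2, hy2', hyy2⟩ := exists_rep_Ioc (-y)
  have hmin : 0 < min y1 y2 := lt_min hy1 hy2
  obtain ⟨x, hxB, hx0, hx⟩ := h0 (min y1 y2 / T₀) (by positivity)
  obtain ⟨r, hr, hrn⟩ := exists_rep_small x
  have hr0 : r ≠ 0 := by
    rintro rfl
    apply hx0
    rw [← hr]; simp
  have hrlt : |r| * T₀ < min y1 y2 := by
    rw [hrn]; rwa [lt_div_iff₀ hT₀] at hx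
  rcases lt_or_gt_of_ne hr0 with hneg | hpos
  · -- r < 0
    have habs : |r| = -r := abs_of_neg hneg
    obtain ⟨m, n, hmn⟩ := key (-r) y2 (by linarith) hy2 hy2' (by
      rw [le_div_iff₀ (by linarith)]
      rw [habs] at hrlt
      have := min_le_right y1 y2
      linarith)
    refine ⟨(a ^ m * b ^ n) • x, ?_, ?_⟩
    · rw [mul_smul]
      exact pow_smul_mem hBa m _ (pow_smul_mem hBb n _ hxB)
    · rw [← hr, nat_smul_coe, dist_comm, dist_eq_norm]
      have e : (((a ^ m * b ^ n : ℕ) : ℝ) * r : ℝ) = -(((a ^ m * b ^ n : ℕ) : ℝ) * (-r)) := by ring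
      have : ((((a ^ m * b ^ n : ℕ) : ℝ) * r : ℝ) : UnitAddCircle) - y =
          ((-(((a ^ m * b ^ n : ℕ) : ℝ) * (-r) - y2) : ℝ) : UnitAddCircle) := by
        have hy' : y = -(y2 : UnitAddCircle) := by rw [hyy2, neg_neg]
        rw [hy', e, neg_sub, sub_eq_add_neg, sub_eq_add_neg, AddCircle.coe_add, neg_neg, AddCircle.coe_neg]
        abel
      rw [this]
      refine (norm_coe_le _).trans_lt ?_
      rw [abs_neg]
      exact hmn
  · have habs : |r| = r := abs_of_pos hpos
    obtain ⟨m, n, hmn⟩ := key r y1 hpos hy1 hy1' (by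
      rw [le_div_iff₀ hpos]
      rw [habs] at hrlt
      have := min_le_left y1 y2
      linarith)
    refine ⟨(a ^ m * b ^ n) • x, ?_, ?_⟩
    · rw [mul_smul]
      exact pow_smul_mem hBa m _ (pow_smul_mem hBb n _ hxB)
    · rw [← hr, nat_smul_coe, dist_comm, dist_eq_norm, ← hyy, ← AddCircle.coe_sub]
      exact (norm_coe_le _).trans_lt hmn

lemma smul_ne_zero_of_small (q : ℕ) (hq : 0 < q) (x : UnitAddCircle) (hx : x ≠ 0)
    (hs : ‖x‖ < 1 / (2 * q)) : q • x ≠ 0 := by
  obtain ⟨r, hr, hrn⟩ := exists_rep_small x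
  have hq' : (0 : ℝ) < q := by exact_mod_cast hq
  intro h
  rw [← hr, nat_smul_coe, ← norm_eq_zero, UnitAddCircle.norm_eq, abs_eq_zero, sub_eq_zero] at h
  have h1 : |(q : ℝ) * r| < 1 / 2 := by
    rw [abs_mul, abs_of_pos hq', hrn]
    rw [lt_div_iff₀ (by positivity)] at hs
    linarith
  have h2 : round ((q : ℝ) * r) = 0 := by
    rw [round_eq_zero_iff]
    rw [abs_lt] at h1
    constructor <;> linarith
  rw [h2] at h
  simp at h
  rcases h with h | h
  · exact hq.ne' h
  · apply hx
    rw [← hr, h]; simp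

/-- the derived set is invariant -/
lemma smul_derived (q : ℕ) (hq : 0 < q) {B : Set UnitAddCircle} {x : UnitAddCircle}
    (hx : x ∈ derivedSet B) : q • x ∈ derivedSet ((fun y => q • y) '' B) := by
  rw [mem_derivedSet, accPt_iff_frequently] at *
  have hcont : Tendsto (fun y : UnitAddCircle => q • y) (𝓝 x) (𝓝 (q • x)) :=
    (continuous_nsmul q).tendsto x
  have hev : ∀ᶠ y in 𝓝 x, y ≠ x → q • y ≠ q • x := by
    have hq' : (0 : ℝ) < q := by exact_mod_cast hq
    filter_upwards [Metric.ball_mem_nhds x (show (0 : ℝ) < 1 / (2 * q) by positivity)] with y hy hyx heq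
    apply smul_ne_zero_of_small q hq (y - x) (sub_ne_zero.2 hyx)
    · rwa [Metric.mem_ball, dist_eq_norm] at hy
    · rw [smul_sub, heq, sub_self]
  apply hcont.frequently
  refine (hx.and_eventually hev).mono ?_
  rintro y ⟨⟨h1, h2⟩, h3⟩
  exact ⟨h3 h1, mem_image_of_mem _ h2⟩

lemma derived_inv {B : Set UnitAddCircle} {q : ℕ} (hq : 0 < q) (hB : ∀ x ∈ B, q • x ∈ B) :
    ∀ x ∈ derivedSet B, q • x ∈ derivedSet B := by
  intro x hx
  have := smul_derived q hq hx
  refine derivedSet_mono _ _ ?_ this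
  rintro _ ⟨y, hy, rfl⟩
  exact hB y hy

lemma acc_small {B : Set UnitAddCircle} {x : UnitAddCircle} (hx : x ∈ derivedSet B) (ε : ℝ)
    (hε : 0 < ε) : ∃ y ∈ B, y ≠ x ∧ ‖y - x‖ < ε := by
  rw [mem_derivedSet, accPt_iff_frequently] at hx
  obtain ⟨y, ⟨h1, h2⟩, h3⟩ := (hx.and_eventually (Metric.ball_mem_nhds x hε)).exists
  exact ⟨y, h2, h1, by rwa [dist_eq_norm] at h3⟩

/-- The nested sets used in the proof. -/
def nest (B : Set UnitAddCircle) (u : UnitAddCircle) : ℕ → Set UnitAddCircle
  | 0 => B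
  | (i + 1) => {x | x ∈ nest B u i ∧ x + u ∈ nest B u i}

lemma nest_closed {B : Set UnitAddCircle} {u : UnitAddCircle} (hB : IsClosed B) (i : ℕ) :
    IsClosed (nest B u i) := by
  induction i with
  | zero => exact hB
  | succ i ih =>
    exact ih.inter (ih.preimage (continuous_id.add continuous_const))

lemma nest_subset {B : Set UnitAddCircle} {u : UnitAddCircle} (i : ℕ) : nest B u i ⊆ B := by
  induction i with
  | zero => exact subset_rfl
  | succ i ih => exact fun x hx => ih hx.1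

lemma nest_inv {B : Set UnitAddCircle} {u : UnitAddCircle} {q : ℕ} (hB : ∀ x ∈ B, q • x ∈ B)
    (hu : q • u = u) (i : ℕ) : ∀ x ∈ nest B u i, q • x ∈ nest B u i := by
  induction i with
  | zero => exact hB
  | succ i ih =>
    intro x hx
    refine ⟨ih _ hx.1, ?_⟩
    have := ih _ hx.2
    rwa [smul_add, hu] at this

lemma nest_mem {B : Set UnitAddCircle} {u : UnitAddCircle} (i : ℕ) :
    ∀ x ∈ nest B u i, ∀ j ≤ i, x + j • u ∈ B := by
  induction i with
  | zero =>
    intro x hx j hj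
    obtain rfl : j = 0 := by omega
    rw [zero_nsmul, add_zero]
    exact hx
  | succ i ih =>
    intro x hx j hj
    rcases Nat.lt_or_ge j (i + 1) with h | h
    · exact ih x hx.1 j (by omega)
    · obtain rfl : j = i + 1 := by omega
      have := ih _ hx.2 i le_rfl
      rw [add_assoc, ← succ_nsmul' u i] at this
      exact this

lemma infinite_of_nontorsion {C : Set UnitAddCircle} {q : ℕ} (hq : 2 ≤ q)
    (hC : ∀ x ∈ C, q • x ∈ C) {x : UnitAddCircle} (hx : x ∈ C) (hx' : ¬ IsOfFinAddOrder x) :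
    C.Infinite := by
  refine infinite_of_injective_forall_mem (f := fun n : ℕ => (q ^ n) • x) ?_
    (fun n => pow_smul_mem hC n _ hx)
  have key : ∀ m n : ℕ, m < n → (q ^ m) • x ≠ (q ^ n) • x := by
    intro m n hmn heq
    apply hx'
    rw [isOfFinAddOrder_iff_nsmul_eq_zero]
    have hlt : q ^ m < q ^ n := Nat.pow_lt_pow_right (by omega) hmn
    refine ⟨q ^ n - q ^ m, Nat.sub_pos_of_lt hlt, ?_⟩
    rw [sub_nsmul _ hlt.le, ← heq]
    simp
  intro m n hmn
  by_contra hne
  rcases lt_or_gt_of_ne hne with h | h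
  · exact key m n h hmn
  · exact key n m h hmn.symm

/-- The key step: the derived set of an infinite closed invariant set has a torsion point. -/
lemma exists_torsion_derived (a b : ℕ) (ha : 2 ≤ a) (hb : 2 ≤ b) (h : MulIndep a b)
    (B : Set UnitAddCircle) (hBa : ∀ x ∈ B, a • x ∈ B) (hBb : ∀ x ∈ B, b • x ∈ B)
    (hinf : B.Infinite) : ∃ x ∈ derivedSet B, IsOfFinAddOrder x := by
  by_contra hcon
  push Not at hcon
  have hcl : IsClosed (derivedSet B) := isClosed_derivedSet B
  have hne : (derivedSet B).Nonempty := by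
    obtain ⟨x, hx⟩ := hinf.exists_accPt_principal
    exact ⟨x, hx⟩
  have hia := derived_inv (by omega : 0 < a) hBa
  have hib := derived_inv (by omega : 0 < b) hBb
  -- it suffices to show density
  have hdense : derivedSet B = univ := by
    apply eq_univ_of_forall
    intro y
    rw [← hcl.closure_eq, Metric.mem_closure_iff]
    intro ε hε
    obtain ⟨k, hk⟩ := exists_nat_gt (1 / ε)
    set t : ℕ := a * b * (k + 1) + 1 with ht
    have hab : 0 < a * b := by positivity
    have htk : k < t := by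
      have : k + 1 ≤ a * b * (k + 1) := Nat.le_mul_of_pos_left _ hab
      omega
    have ht0 : 0 < t := by omega
    have ht' : (0 : ℝ) < t := by exact_mod_cast ht0
    have hεt : 1 / (t : ℝ) < ε := by
      rw [div_lt_iff₀ ht']
      rw [div_lt_iff₀ hε] at hk
      have : (k : ℝ) < t := by exact_mod_cast htk
      nlinarith
    have hcopa : Nat.Coprime a t := by
      have : Nat.gcd a t = 1 := by
        have h1 : Nat.gcd a t ∣ a * b * (k + 1) :=
          (Nat.gcd_dvd_left a t).trans (Dvd.intro (b * (k + 1)) (by ring))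
        have h2 : Nat.gcd a t ∣ a * b * (k + 1) + 1 := Nat.gcd_dvd_right a t
        exact Nat.dvd_one.1 ((Nat.dvd_add_right h1).1 h2)
      exact this
    have hcopb : Nat.Coprime b t := by
      have : Nat.gcd b t = 1 := by
        have h1 : Nat.gcd b t ∣ a * b * (k + 1) :=
          (Nat.gcd_dvd_left b t).trans (Dvd.intro (a * (k + 1)) (by ring))
        have h2 : Nat.gcd b t ∣ a * b * (k + 1) + 1 := Nat.gcd_dvd_right b t
        exact Nat.dvd_one.1 ((Nat.dvd_add_right h1).1 h2)
      exact this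
    set φ : ℕ := Nat.totient t with hφ
    have hφ0 : 0 < φ := Nat.totient_pos.2 ht0
    have hu : ∀ q : ℕ, Nat.Coprime q t → (q ^ φ) • (((1 : ℝ) / t : ℝ) : UnitAddCircle)
        = (((1 : ℝ) / t : ℝ) : UnitAddCircle) := by
      intro q hq
      have hmod := Nat.ModEq.pow_totient hq
      have hz : t • (((1 : ℝ) / t : ℝ) : UnitAddCircle) = 0 := by
        rw [nat_smul_coe]
        have : (t : ℝ) * (1 / t) = 1 := by field_simp
        rw [this]; simp
      have hq1 : 1 ≤ q ^ φ := by
        rcases Nat.eq_zero_or_pos (q ^ φ) with h0 | hp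
        · exfalso
          rw [h0] at hmod
          have : t ∣ 1 := (Nat.modEq_zero_iff_dvd.1 hmod.symm)
          have h2 := Nat.dvd_one.1 this
          have : k + 1 ≤ a * b * (k + 1) := Nat.le_mul_of_pos_left _ hab
          omega
        · exact hp
      obtain ⟨c, hc⟩ := (Nat.modEq_iff_dvd' hq1).1 hmod.symm
      have : q ^ φ = t * c + 1 := by omega
      rw [this, add_smul, one_smul, mul_comm t c, mul_smul, hz, smul_zero, zero_add]
    set u : UnitAddCircle := (((1 : ℝ) / t : ℝ) : UnitAddCircle) with hudef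
    have hA2 : 2 ≤ a ^ φ := ha.trans (Nat.le_self_pow hφ0.ne' a)
    have hB2 : 2 ≤ b ^ φ := hb.trans (Nat.le_self_pow hφ0.ne' b)
    have hAinv : ∀ i, ∀ x ∈ nest (derivedSet B) u i, (a ^ φ) • x ∈ nest (derivedSet B) u i :=
      fun i => nest_inv (fun x hx => pow_smul_mem hia φ x hx) (hu a hcopa) i
    have hBinv : ∀ i, ∀ x ∈ nest (derivedSet B) u i, (b ^ φ) • x ∈ nest (derivedSet B) u i :=
      fun i => nest_inv (fun x hx => pow_smul_mem hib φ x hx) (hu b hcopb) i
    have hnon : ∀ i, (nest (derivedSet B) u i).Nonempty := by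
      intro i
      induction i with
      | zero => exact hne
      | succ i ih =>
        obtain ⟨x, hx⟩ := ih
        have hCinf : (nest (derivedSet B) u i).Infinite :=
          infinite_of_nontorsion hA2 (hAinv i) hx (hcon x (nest_subset i hx))
        have hCcl : IsClosed (nest (derivedSet B) u i) := nest_closed hcl i
        have hCcomp : IsCompact (nest (derivedSet B) u i) := hCcl.isCompact
        obtain ⟨z, hz⟩ := hCinf.exists_accPt_principal
        have hzC : z ∈ nest (derivedSet B) u i := (isClosed_iff_derivedSet_subset _).1 hCcl hz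
        -- difference set
        have hD : {d : UnitAddCircle | ∃ x ∈ nest (derivedSet B) u i, ∃ y ∈ nest (derivedSet B) u i,
            d = x - y} = univ := by
          apply eq_univ_of_acc_zero (a ^ φ) (b ^ φ) hA2 hB2 (h.pow hφ0)
          · have : {d : UnitAddCircle | ∃ x ∈ nest (derivedSet B) u i,
                ∃ y ∈ nest (derivedSet B) u i, d = x - y}
                = (fun p : UnitAddCircle × UnitAddCircle => p.1 - p.2) ''
                  (nest (derivedSet B) u i ×ˢ nest (derivedSet B) u i) := by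
              ext d
              constructor
              · rintro ⟨x, hx, y, hy, rfl⟩
                exact ⟨(x, y), ⟨hx, hy⟩, rfl⟩
              · rintro ⟨⟨x, y⟩, ⟨hx, hy⟩, rfl⟩
                exact ⟨x, hx, y, hy, rfl⟩
            rw [this]
            exact ((hCcomp.prod hCcomp).image (continuous_fst.sub continuous_snd)).isClosed
          · rintro _ ⟨x, hx, y, hy, rfl⟩
            exact ⟨_, hAinv i x hx, _, hAinv i y hy, smul_sub _ _ _⟩
          · rintro _ ⟨x, hx, y, hy, rfl⟩
            exact ⟨_, hBinv i x hx, _, hBinv i y hy, smul_sub _ _ _⟩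
          · intro δ hδ
            obtain ⟨w, hw, hwz, hwn⟩ := acc_small hz δ hδ
            exact ⟨w - z, ⟨w, hw, z, hzC, rfl⟩, sub_ne_zero.2 hwz, hwn⟩
        have : u ∈ {d : UnitAddCircle | ∃ x ∈ nest (derivedSet B) u i,
            ∃ y ∈ nest (derivedSet B) u i, d = x - y} := by rw [hD]; trivial
        obtain ⟨x', hx', y', hy', hxy⟩ := this
        refine ⟨y', hy', ?_⟩
        have e : y' + u = x' := by rw [hxy]; abel
        rw [e]
        exact hx'
    obtain ⟨x, hx⟩ := hnon t
    have hxj := nest_mem t x hx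
    obtain ⟨r, hr0, hr1, hr⟩ := exists_rep_Ico (y - x)
    set j : ℕ := ⌊r * t⌋₊ with hj
    have hjt : j ≤ t := by
      apply Nat.floor_le_of_le
      nlinarith
    refine ⟨x + j • u, hxj j hjt, ?_⟩
    rw [dist_eq_norm]
    have e : y - (x + j • u) = ((r - j * (1 / t) : ℝ) : UnitAddCircle) := by
      rw [AddCircle.coe_sub, hr, ← nat_smul_coe]
      abel
    rw [e]
    refine (norm_coe_le _).trans_lt ?_
    have h1 : (j : ℝ) ≤ r * t := Nat.floor_le (by positivity)
    have h2 : r * t < j + 1 := Nat.lt_floor_add_one _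
    have h3 : |r - j * (1 / t)| ≤ 1 / t := by
      rw [abs_le]
      constructor
      · have : r - j * (1 / t) = (r * t - j) / t := by field_simp
        rw [this]
        have : 0 ≤ (r * t - j) / t := div_nonneg (by linarith) ht'.le
        have : 0 < 1 / (t : ℝ) := by positivity
        linarith
      · have : r - j * (1 / t) = (r * t - j) / t := by field_simp
        rw [this]
        exact div_le_div_of_nonneg_right (by linarith) ht'.le
    exact h3.trans_lt hεt
  have : (0 : UnitAddCircle) ∈ derivedSet B := by rw [hdense]; trivial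
  exact hcon 0 this (by simp)

/-- Furstenberg's theorem. -/
theorem furstenberg (a b : ℕ) (ha : 2 ≤ a) (hb : 2 ≤ b) (h : MulIndep a b)
    (B : Set UnitAddCircle) (hB : IsClosed B) (hBa : ∀ x ∈ B, a • x ∈ B) (hBb : ∀ x ∈ B, b • x ∈ B)
    (hinf : B.Infinite) : B = univ := by
  obtain ⟨x, hx, hxt⟩ := exists_torsion_derived a b ha hb h B hBa hBb hinf
  rw [isOfFinAddOrder_iff_nsmul_eq_zero] at hxt
  obtain ⟨q, hq, hqx⟩ := hxt
  have himg : (fun y : UnitAddCircle => q • y) '' B = univ := by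
    apply eq_univ_of_acc_zero a b ha hb h
    · exact (hB.isCompact.image (continuous_nsmul q)).isClosed
    · rintro _ ⟨y, hy, rfl⟩
      exact ⟨a • y, hBa y hy, by simp only [smul_comm q a y]⟩
    · rintro _ ⟨y, hy, rfl⟩
      exact ⟨b • y, hBb y hy, by simp only [smul_comm q b y]⟩
    · intro ε hε
      have hd := smul_derived q hq hx
      rw [hqx] at hd
      obtain ⟨y, hy, hy0, hyn⟩ := acc_small hd ε hε
      exact ⟨y, hy, hy0, by simpa using hyn⟩
  -- B has an interior point
  have hint : (interior B).Nonempty := by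
    have hcov : (⋃ k : ℕ, (fun z : UnitAddCircle => z - ((((k : ℝ) / q * 1 : ℝ)) : UnitAddCircle)) ⁻¹' B) = univ := by
      apply eq_univ_of_forall
      intro z
      have : q • z ∈ (fun y : UnitAddCircle => q • y) '' B := by rw [himg]; trivial
      obtain ⟨y, hy, hyz⟩ := this
      have hz : q • (z - y) = 0 := by
        rw [smul_sub, sub_eq_zero]; exact hyz.symm
      obtain ⟨m, -, hm⟩ := (AddCircle.nsmul_eq_zero_iff hq).1 hz
      rw [mem_iUnion]
      refine ⟨m, ?_⟩
      rw [mem_preimage, hm]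
      simpa using hy
    obtain ⟨k, hk⟩ := nonempty_interior_of_iUnion_of_closed
      (fun k : ℕ => hB.preimage (continuous_id.sub continuous_const)) hcov
    obtain ⟨z, hz⟩ := hk
    have hopen : IsOpenMap (fun z : UnitAddCircle => z - ((((k : ℝ) / q * 1 : ℝ)) : UnitAddCircle)) := by
      simpa [sub_eq_add_neg] using
        isOpenMap_add_right (-((((k : ℝ) / q * 1 : ℝ)) : UnitAddCircle))
    refine ⟨z - ((((k : ℝ) / q * 1 : ℝ)) : UnitAddCircle), ?_⟩
    have := hopen.image_interior_subset ((fun z : UnitAddCircle => z - ((((k : ℝ) / q * 1 : ℝ)) : UnitAddCircle)) ⁻¹' B)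
      (mem_image_of_mem _ hz)
    exact interior_mono (image_preimage_subset _ _) this
  obtain ⟨x0, hx0⟩ := hint
  obtain ⟨ε, hε, hball⟩ := Metric.isOpen_iff.1 isOpen_interior x0 hx0
  have ha' : (1 : ℝ) < a := by exact_mod_cast (by omega : 1 < a)
  obtain ⟨n, hn⟩ := pow_unbounded_of_one_lt (1 / ε) ha'
  apply eq_univ_of_forall
  intro z
  obtain ⟨r, hr0, hr1, hr⟩ := exists_rep_Ico (z - (a ^ n) • x0)
  have hpos : (0 : ℝ) < (a : ℝ) ^ n := by positivity
  have hmem : x0 + ((r / (a : ℝ) ^ n : ℝ) : UnitAddCircle) ∈ B := by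
    apply interior_subset
    apply hball
    rw [Metric.mem_ball, dist_eq_norm]
    have : x0 + ((r / (a : ℝ) ^ n : ℝ) : UnitAddCircle) - x0 = ((r / (a : ℝ) ^ n : ℝ) : UnitAddCircle) := by
      abel
    rw [this]
    refine (norm_coe_le _).trans_lt ?_
    rw [abs_of_nonneg (by positivity), div_lt_iff₀ hpos]
    rw [div_lt_iff₀ hε] at hn
    linarith
  have hz : z = (a ^ n) • (x0 + ((r / (a : ℝ) ^ n : ℝ) : UnitAddCircle)) := by
    rw [smul_add, nat_smul_coe]
    have : (((a ^ n : ℕ) : ℝ) * (r / (a : ℝ) ^ n) : ℝ) = r := by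
      push_cast; field_simp
    rw [this, hr]; abel
  rw [hz]
  exact pow_smul_mem hBa n _ hmem

end Pool.Agent.Work.MP_67388f_an
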