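import Mathlib

set_option autoImplicit false

namespace Pool.Agent.Work.MP_67388f_an

open Filter Topology Set MeasureTheory
open scoped ENNReal

section share

variable {X : Type*} [TopologicalSpace X] [MeasurableSpace X] [BorelSpace X]

lemma integrable_01 (μ : Measure X) [IsFiniteMeasure μ] (f : C(X, ℝ))
    (h0 : ∀ z, 0 ≤ f z) (h1 : ∀ z, f z ≤ 1) : Integrable (fun z => f z) μ := by
  refine Integrable.of_bound (C := 1) f.continuous.measurable.aestronglyMeasurable ?_
  refine Eventually.of_forall fun z => ?_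
  rw [Real.norm_eq_abs, abs_of_nonneg (h0 z)]
  exact h1 z

/-- Two finite measures that are not mutually singular share a positive mass. -/
lemma exists_overlap (μ ν : Measure X) [IsFiniteMeasure μ] [IsFiniteMeasure ν]
    (h : ¬ μ ⟂ₘ ν) : ∃ c : ℝ, 0 < c ∧ ∀ f : C(X, ℝ), (∀ z, 0 ≤ f z) → (∀ z, f z ≤ 1) →
      c ≤ ∫ z, f z ∂ν + ∫ z, (1 - f z) ∂μ := by
  by_contra hcon
  push Not at hcon
  apply h
  have hex : ∀ n : ℕ, ∃ f : C(X, ℝ), (∀ z, 0 ≤ f z) ∧ (∀ z, f z ≤ 1) ∧
      ∫ z, f z ∂ν + ∫ z, (1 - f z) ∂μ < (1 / 2 : ℝ) ^ n := fun n => by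
    obtain ⟨f, h1, h2, h3⟩ := hcon ((1 / 2 : ℝ) ^ n) (by positivity)
    exact ⟨f, h1, h2, h3⟩
  choose f hf0 hf1 hf using hex
  let s : ℕ → Set X := fun n => {z | 1 / 2 ≤ f n z}
  have hs : ∀ n, MeasurableSet (s n) := fun n =>
    (isClosed_le continuous_const (f n).continuous).measurableSet
  have hν : ∀ n, ν (s n) ≤ ENNReal.ofReal (2 * (1 / 2 : ℝ) ^ n) := by
    intro n
    have h1 := mul_meas_ge_le_integral_of_nonneg (μ := ν) (f := fun z => f n z)
      (Eventually.of_forall (hf0 n)) (integrable_01 ν (f n) (hf0 n) (hf1 n)) (1 / 2)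
    have h2 : 0 ≤ ∫ z, (1 - f n z) ∂μ := integral_nonneg fun z => sub_nonneg.2 (hf1 n z)
    have h3 := hf n
    have h4 : (ν (s n)).toReal ≤ 2 * (1 / 2 : ℝ) ^ n := by
      have : (1 / 2 : ℝ) * (ν (s n)).toReal ≤ ∫ z, f n z ∂ν := h1
      linarith
    rw [← ENNReal.ofReal_toReal (measure_ne_top ν (s n))]
    exact ENNReal.ofReal_le_ofReal h4
  have hμ : ∀ n, μ (s n)ᶜ ≤ ENNReal.ofReal (2 * (1 / 2 : ℝ) ^ n) := by
    intro n
    have hsub : (s n)ᶜ ⊆ {z | (1 / 2 : ℝ) ≤ 1 - f n z} := by
      intro z hz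
      simp only [s, mem_compl_iff, mem_ofPred_eq, not_le] at hz
      simp only [mem_ofPred_eq]
      linarith
    have hint : Integrable (fun z => 1 - f n z) μ :=
      (integrable_const 1).sub (integrable_01 μ (f n) (hf0 n) (hf1 n))
    have h1 := mul_meas_ge_le_integral_of_nonneg (μ := μ) (f := fun z => 1 - f n z)
      (Eventually.of_forall (fun z => sub_nonneg.2 (hf1 n z))) hint (1 / 2)
    have h2 : 0 ≤ ∫ z, f n z ∂ν := integral_nonneg (hf0 n)
    have h3 := hf n
    have h4 : (μ {z | (1 / 2 : ℝ) ≤ 1 - f n z}).toReal ≤ 2 * (1 / 2 : ℝ) ^ n := by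
      have : (1 / 2 : ℝ) * (μ {z | (1 / 2 : ℝ) ≤ 1 - f n z}).toReal ≤ ∫ z, (1 - f n z) ∂μ := h1
      linarith
    refine (measure_mono hsub).trans ?_
    rw [← ENNReal.ofReal_toReal (measure_ne_top μ {z | (1 / 2 : ℝ) ≤ 1 - f n z})]
    exact ENNReal.ofReal_le_ofReal h4
  have hsum : (∑' n : ℕ, ENNReal.ofReal (2 * (1 / 2 : ℝ) ^ n)) ≠ ∞ := by
    rw [← ENNReal.ofReal_tsum_of_nonneg (fun n => by positivity)
      (summable_geometric_two.mul_left 2)]
    exact ENNReal.ofReal_ne_top
  refine ⟨(limsup s atTop)ᶜ, (MeasurableSet.measurableSet_limsup hs).compl, ?_, ?_⟩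
  · have hsub : (limsup s atTop)ᶜ ⊆ limsup (fun i => (s i)ᶜ) atTop := by
      intro x hx
      rw [mem_compl_iff, mem_limsup_iff_frequently_mem, not_frequently] at hx
      rw [mem_limsup_iff_frequently_mem]
      exact hx.frequently
    refine measure_mono_null hsub ?_
    apply measure_limsup_atTop_eq_zero
    exact ne_top_of_le_ne_top hsum (ENNReal.tsum_le_tsum hμ)
  · rw [compl_compl]
    apply measure_limsup_atTop_eq_zero
    exact ne_top_of_le_ne_top hsum (ENNReal.tsum_le_tsum hν)

end share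

section unif

variable {X : Type*} [TopologicalSpace X]
variable {G : Type*} [Group G] [TopologicalSpace G] [IsTopologicalGroup G] [MulAction G X]
  [ContinuousSMul G X]

/-- uniform continuity of a compactly supported function along the action -/
lemma unif_action (F : C(X, ℝ)) (hF : HasCompactSupport F) (η : ℝ) (hη : 0 < η) :
    ∀ᶠ k in 𝓝 (1 : G), ∀ z : X, |F (k • z) - F z| < η := by
  have h1 : ∀ᶠ k in 𝓝 (1 : G), ∀ z ∈ tsupport F, |F (k • z) - F z| < η := by
    refine IsCompact.eventually_forall_of_forall_eventually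
      (P := fun k z => |F (k • z) - F z| < η) (hF : IsCompact (tsupport F)) ?_
    intro z _
    have hc : Continuous (fun p : G × X => |F (p.1 • p.2) - F p.2|) :=
      ((F.continuous.comp continuous_smul).sub (F.continuous.comp continuous_snd)).abs
    have := hc.tendsto (1, z)
    simp only [one_smul, sub_self, abs_zero] at this
    exact this.eventually (gt_mem_nhds hη)
  have h2 : ∀ᶠ k in 𝓝 (1 : G), ∀ z ∈ tsupport F, |F (k⁻¹ • z) - F z| < η := by
    have : Tendsto (fun k : G => k⁻¹) (𝓝 1) (𝓝 1) := by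
      have := (continuous_inv (G := G)).tendsto 1
      rwa [inv_one] at this
    exact this.eventually h1
  filter_upwards [h1, h2] with k hk1 hk2 z
  by_cases hz : z ∈ tsupport F
  · exact hk1 z hz
  · by_cases hz2 : k • z ∈ tsupport F
    · have := hk2 _ hz2
      rw [inv_smul_smul, abs_sub_comm] at this
      exact this
    · rw [image_eq_zero_of_notMem_tsupport hz, image_eq_zero_of_notMem_tsupport hz2]
      simpa using hη

end unif

section step3

variable {X : Type*} [TopologicalSpace X] [LocallyCompactSpace X] [T2Space X]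
  [SecondCountableTopology X] [MeasurableSpace X] [BorelSpace X]
variable {G : Type*} [Group G] [TopologicalSpace G] [MulAction G X] [ContinuousSMul G X]

omit [LocallyCompactSpace X] [T2Space X] [SecondCountableTopology X] in
lemma smul_measurable (k : G) : Measurable (fun z : X => k • z) :=
  (continuous_const_smul k).measurable

/-- A finite family of pairwise mutually singular probability measures is separated, up to
a small error, by continuous functions with sum at most one. -/
lemma exists_separating (K : ℕ) (m : ℕ → Measure X) [∀ i, IsProbabilityMeasure (m i)]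
    (hm : ∀ i j, i < j → m i ⟂ₘ m j) (ε : ℝ) (hε : 0 < ε) :
    ∃ g : ℕ → C(X, ℝ), (∀ i z, 0 ≤ g i z) ∧ (∀ z, ∑ i ∈ Finset.range K, g i z ≤ 1) ∧
      (∀ i, HasCompactSupport (g i)) ∧
      ∀ i < K, ∫ z, (1 - g i z) ∂(m i) ≤ ε := by
  classical
  -- disjoint Borel sets
  have hP : ∀ i j, ∃ P : Set X, MeasurableSet P ∧ (i < j → m i P = 0 ∧ m j Pᶜ = 0) := by
    intro i j
    by_cases h : i < j
    · obtain ⟨P, h1, h2, h3⟩ := hm i j h
      exact ⟨P, h1, fun _ => ⟨h2, h3⟩⟩
    · exact ⟨∅, MeasurableSet.empty, fun h' => absurd h' h⟩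
  choose P hPm hPz using hP
  let S : ℕ → Set X := fun i => ⋂ j ∈ Finset.range K,
    (if i < j then (P i j)ᶜ else if j < i then P j i else univ)
  have hSm : ∀ i, MeasurableSet (S i) := by
    intro i
    refine Finset.measurableSet_biInter _ fun j _ => ?_
    split_ifs
    · exact (hPm i j).compl
    · exact hPm j i
    · exact MeasurableSet.univ
  have hSfull : ∀ i, m i (S i)ᶜ = 0 := by
    intro i
    have : (S i)ᶜ = ⋃ j ∈ Finset.range K,
        (if i < j then (P i j)ᶜ else if j < i then P j i else univ)ᶜ := by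
      simp only [S, compl_iInter]
    rw [this]
    refine measure_iUnion_null fun j => measure_iUnion_null fun _ => ?_
    split_ifs with h1 h2
    · rw [compl_compl]; exact (hPz i j h1).1
    · exact (hPz j i h2).2
    · simp
  have hSdisj : ∀ i j, i < j → i < K → j < K → Disjoint (S i) (S j) := by
    intro i j hij hi hj
    rw [Set.disjoint_left]
    intro z hzi hzj
    have h1 := mem_iInter₂.1 hzi j (Finset.mem_range.2 hj)
    have h2 := mem_iInter₂.1 hzj i (Finset.mem_range.2 hi)
    rw [if_pos hij] at h1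
    rw [if_neg (by omega), if_pos hij] at h2
    exact h1 h2
  have hε' : ENNReal.ofReal ε ≠ 0 := by simpa using hε
  have hK : ∀ i, ∃ C : Set X, C ⊆ S i ∧ IsCompact C ∧ m i (S i \ C) < ENNReal.ofReal ε := by
    intro i
    obtain ⟨C, h1, h2, h3⟩ := (hSm i).exists_isCompact_sdiff_lt (measure_ne_top (m i) _) hε'
    exact ⟨C, h1, h2, h3⟩
  choose C hCS hCc hCm using hK
  have hdisjC : ∀ i j, i ≠ j → i < K → j < K → Disjoint (C i) (C j) := by
    intro i j hij hi hj
    rcases lt_or_gt_of_ne hij with h | h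
    · exact (hSdisj i j h hi hj).mono (hCS i) (hCS j)
    · exact ((hSdisj j i h hj hi).mono (hCS j) (hCS i)).symm
  -- Urysohn functions
  have hφ : ∀ i, ∃ φ : C(X, ℝ), (i < K → EqOn φ 0 (⋃ j ∈ (Finset.range K).erase i, C j) ∧
      EqOn φ 1 (C i)) ∧ HasCompactSupport φ ∧ ∀ x, φ x ∈ Icc (0 : ℝ) 1 := by
    intro i
    by_cases hi : i < K
    · have hcl : IsClosed (⋃ j ∈ (Finset.range K).erase i, C j) := by
        refine isClosed_biUnion_finset fun j _ => (hCc j).isClosed
      have hd : Disjoint (⋃ j ∈ (Finset.range K).erase i, C j) (C i) := by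
        rw [Set.disjoint_iUnion₂_left]
        intro j hj
        rw [Finset.mem_erase, Finset.mem_range] at hj
        exact hdisjC j i hj.1 hj.2 hi
      obtain ⟨φ, h1, h2, h3, h4⟩ := exists_continuous_one_zero_of_isCompact (hCc i) hcl hd.symm
      exact ⟨φ, fun _ => ⟨h2, h1⟩, h3, h4⟩
    · exact ⟨0, fun h => absurd h hi, HasCompactSupport.zero, fun x => by simp⟩
  choose φ hφ1 hφc hφ2 using hφ
  let D : C(X, ℝ) := ∑ j ∈ Finset.range K, φ j
  have hDapp : ∀ z, D z = ∑ j ∈ Finset.range K, φ j z := fun z => by simp [D]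
  have hmax : Continuous (fun z : X => max 1 (D z)) := continuous_const.max D.continuous
  have hmax0 : ∀ z : X, max 1 (D z) ≠ 0 := fun z => (lt_of_lt_of_le one_pos (le_max_left _ _)).ne'
  have hmaxpos : ∀ z : X, 0 < max 1 (D z) := fun z => lt_of_lt_of_le one_pos (le_max_left _ _)
  refine ⟨fun i => ⟨fun z => φ i z / max 1 (D z), (φ i).continuous.div hmax hmax0⟩, ?_, ?_, ?_, ?_⟩
  · intro i z
    exact div_nonneg (hφ2 i z).1 (hmaxpos z).le
  · intro z
    simp only [ContinuousMap.coe_mk]
    rw [← Finset.sum_div, div_le_one (hmaxpos z), ← hDapp]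
    exact le_max_right _ _
  · intro i
    show HasCompactSupport (fun z => φ i z / max 1 (D z))
    have : (fun z => φ i z / max 1 (D z)) = (fun z => φ i z * (max 1 (D z))⁻¹) := by
      ext z; rw [div_eq_mul_inv]
    rw [this]
    exact (hφc i).mul_right
  · intro i hi
    have h1 : ∀ z ∈ C i, φ i z / max 1 (D z) = 1 := by
      intro z hz
      have hφi : φ i z = 1 := (hφ1 i hi).2 hz
      have hD1 : D z = 1 := by
        rw [hDapp, Finset.sum_eq_single_of_mem i (Finset.mem_range.2 hi)]
        · exact hφi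
        · intro j hj hji
          have : z ∈ ⋃ k ∈ (Finset.range K).erase j, C k := by
            refine mem_iUnion₂.2 ⟨i, ?_, hz⟩
            rw [Finset.mem_erase, Finset.mem_range]
            exact ⟨hji.symm, hi⟩
          exact (hφ1 j (Finset.mem_range.1 hj)).1 this
      rw [hφi, hD1]; norm_num
    have hle1 : ∀ z, φ i z / max 1 (D z) ≤ 1 := by
      intro z
      rw [div_le_one (hmaxpos z)]
      exact (hφ2 i z).2.trans (le_max_left _ _)
    have hge0 : ∀ z, 0 ≤ φ i z / max 1 (D z) := fun z => div_nonneg (hφ2 i z).1 (hmaxpos z).le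
    simp only [ContinuousMap.coe_mk]
    have hmeasC : m i (C i)ᶜ ≤ ENNReal.ofReal ε := by
      have : (C i)ᶜ ⊆ (S i)ᶜ ∪ (S i \ C i) := by
        intro z hz
        by_cases h : z ∈ S i
        · exact Or.inr ⟨h, hz⟩
        · exact Or.inl h
      calc m i (C i)ᶜ ≤ m i ((S i)ᶜ ∪ (S i \ C i)) := measure_mono this
        _ ≤ m i (S i)ᶜ + m i (S i \ C i) := measure_union_le _ _
        _ ≤ ENNReal.ofReal ε := by rw [hSfull i, zero_add]; exact (hCm i).le
    have hbound : ∀ z, 1 - φ i z / max 1 (D z) ≤ (C i)ᶜ.indicator (fun _ => (1 : ℝ)) z := by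
      intro z
      by_cases hz : z ∈ C i
      · rw [h1 z hz, indicator_of_notMem (by simpa using hz)]; norm_num
      · rw [indicator_of_mem (by simpa using hz)]
        linarith [hge0 z]
    have hcont : Continuous (fun z => 1 - φ i z / max 1 (D z)) :=
      continuous_const.sub ((φ i).continuous.div hmax hmax0)
    calc ∫ z, (1 - φ i z / max 1 (D z)) ∂(m i)
        ≤ ∫ z, (C i)ᶜ.indicator (fun _ => (1 : ℝ)) z ∂(m i) := by
          refine integral_mono ?_ ?_ hbound
          · refine integrable_01 (m i) ⟨_, hcont⟩ ?_ ?_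
            · intro z; show 0 ≤ 1 - φ i z / max 1 (D z); linarith [hle1 z]
            · intro z; show 1 - φ i z / max 1 (D z) ≤ 1; linarith [hge0 z]
          · exact (integrable_const 1).indicator (hCc i).isClosed.measurableSet.compl
      _ = (m i (C i)ᶜ).toReal := by
          rw [integral_indicator_const _ (hCc i).isClosed.measurableSet.compl]
          simp [Measure.real]
      _ ≤ ε := ENNReal.toReal_le_of_le_ofReal hε.le hmeasC

/-- Conversely a uniform lower bound over compactly supported functions excludes singularity. -/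
lemma not_singular_of_overlap (μ ν : Measure X) [IsFiniteMeasure μ] [IsFiniteMeasure ν]
    (c : ℝ) (hc : 0 < c) (h : ∀ f : C(X, ℝ), HasCompactSupport f → (∀ z, 0 ≤ f z) →
      (∀ z, f z ≤ 1) → c ≤ ∫ z, f z ∂ν + ∫ z, (1 - f z) ∂μ) : ¬ μ ⟂ₘ ν := by
  intro hs
  obtain ⟨P, hP, hP0, hP1⟩ := hs
  -- μ P = 0, ν Pᶜ = 0
  have hε : ENNReal.ofReal (c / 4) ≠ 0 := by simpa using hc
  obtain ⟨C, hCP, hC, hCm⟩ := hP.compl.exists_isCompact_sdiff_lt (measure_ne_top μ _) hε
  -- open neighbourhood of C with small ν measure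
  have hνC : ν C = 0 := measure_mono_null hCP hP1
  obtain ⟨U, hCU, hUo, hU⟩ := C.exists_isOpen_lt_of_lt (μ := ν) (ENNReal.ofReal (c / 4))
    (by rw [hνC]; exact pos_iff_ne_zero.2 hε)
  obtain ⟨f, hf1, hf0, hfc, hf01⟩ := exists_continuous_one_zero_of_isCompact hC hUo.isClosed_compl
    (disjoint_compl_right_iff_subset.2 hCU)
  have h1 := h f hfc (fun z => (hf01 z).1) (fun z => (hf01 z).2)
  have h2 : ∫ z, f z ∂ν ≤ c / 4 := by
    calc ∫ z, f z ∂ν ≤ ∫ z, U.indicator (fun _ => (1 : ℝ)) z ∂ν := by
          refine integral_mono (integrable_01 ν f (fun z => (hf01 z).1) (fun z => (hf01 z).2))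
            ((integrable_const 1).indicator hUo.measurableSet) ?_
          intro z
          by_cases hz : z ∈ U
          · show f z ≤ _
            rw [indicator_of_mem hz]; exact (hf01 z).2
          · show f z ≤ _
            rw [indicator_of_notMem hz, hf0 hz]; rfl
      _ = (ν U).toReal := by
          rw [integral_indicator_const _ hUo.measurableSet]
          simp [Measure.real]
      _ ≤ c / 4 := ENNReal.toReal_le_of_le_ofReal (by linarith) hU.le
  have h3 : ∫ z, (1 - f z) ∂μ ≤ c / 4 := by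
    have hCc : μ Cᶜ ≤ ENNReal.ofReal (c / 4) := by
      have : Cᶜ ⊆ P ∪ (Pᶜ \ C) := by
        intro z hz
        by_cases h : z ∈ P
        · exact Or.inl h
        · exact Or.inr ⟨h, hz⟩
      calc μ Cᶜ ≤ μ (P ∪ (Pᶜ \ C)) := measure_mono this
        _ ≤ μ P + μ (Pᶜ \ C) := measure_union_le _ _
        _ ≤ ENNReal.ofReal (c / 4) := by rw [hP0, zero_add]; exact hCm.le
    calc ∫ z, (1 - f z) ∂μ ≤ ∫ z, Cᶜ.indicator (fun _ => (1 : ℝ)) z ∂μ := by
          refine integral_mono ((integrable_const 1).sub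
            (integrable_01 μ f (fun z => (hf01 z).1) (fun z => (hf01 z).2)))
            ((integrable_const 1).indicator hC.isClosed.measurableSet.compl) ?_
          intro z
          by_cases hz : z ∈ C
          · show 1 - f z ≤ _
            rw [indicator_of_notMem (by simpa using hz), hf1 hz]; simp
          · show 1 - f z ≤ _
            rw [indicator_of_mem (by simpa using hz)]; linarith [(hf01 z).1]
      _ = (μ Cᶜ).toReal := by
          rw [integral_indicator_const _ hC.isClosed.measurableSet.compl]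
          simp [Measure.real]
      _ ≤ c / 4 := ENNReal.toReal_le_of_le_ofReal (by linarith) hCc
  linarith

end step3

end Pool.Agent.Work.MP_67388f_an
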