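import Pool.Agent.Work.MP_67388f_an.Cartan
import Pool.Agent.Work.MP_67388f_an.Step4

set_option autoImplicit false

namespace Pool.Agent.Work.MP_67388f_an

open Filter Topology Set MeasureTheory
open scoped ENNReal

section limit

variable {G : Type*} [Group G] [TopologicalSpace G] [IsTopologicalGroup G]
    {Y : Type*} [TopologicalSpace Y] [LocallyCompactSpace Y] [T2Space Y]
    [SecondCountableTopology Y] [MeasurableSpace Y] [BorelSpace Y]
    [MulAction G Y] [ContinuousSMul G Y]

/-- A uniform amount of shared mass passes to limits of group elements. -/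
theorem limit_share2 
    (μ ν : Measure Y) [IsFiniteMeasure μ] [IsFiniteMeasure ν] (c : ℝ) (hc : 0 < c) (r : ℕ → G)
    (r' : G) (hr : Tendsto r atTop (𝓝 r'))
    (h : ∀ s : ℕ, ∀ f : C(Y, ℝ), (∀ z, 0 ≤ f z) → (∀ z, f z ≤ 1) →
      c ≤ ∫ z, f (r s • z) ∂μ + ∫ z, (1 - f z) ∂ν) :
    ¬ ν ⟂ₘ (μ.map (fun z => r' • z)) := by
  have hprob : IsFiniteMeasure (μ.map (fun z => r' • z)) :=
    Measure.isFiniteMeasure_map _ _
  apply not_singular_of_overlap ν (μ.map (fun z => r' • z)) c hc
  intro f hfc hf0 hf1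
  rw [integral_map (smul_measurable r').aemeasurable f.continuous.measurable.aestronglyMeasurable]
  apply le_of_forall_pos_le_add
  intro η' hη'
  set m : ℝ := μ.real univ with hm
  have hm0 : 0 ≤ m := measureReal_nonneg
  set η : ℝ := η' / (m + 1) with hη2
  have hη : 0 < η := by positivity
  have hηm : η * m ≤ η' := by
    rw [hη2, div_mul_eq_mul_div, div_le_iff₀ (by positivity)]
    nlinarith
  have h1 : Tendsto (fun s => r s * r'⁻¹) atTop (𝓝 1) := by
    have := hr.mul_const r'⁻¹
    rwa [mul_inv_cancel] at this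
  obtain ⟨s, hs⟩ := (h1.eventually (unif_action f hfc η hη)).exists
  have h2 := h s f hf0 hf1
  have h3 : ∫ z, f (r s • z) ∂μ ≤ ∫ z, (f (r' • z) + η) ∂μ := by
    refine integral_mono ?_ ?_ ?_
    · exact integrable_01 μ ⟨fun z => f (r s • z), f.continuous.comp (continuous_const_smul _)⟩
        (fun z => hf0 _) (fun z => hf1 _)
    · refine Integrable.add ?_ (integrable_const η)
      exact integrable_01 μ ⟨fun z => f (r' • z), f.continuous.comp (continuous_const_smul _)⟩
        (fun z => hf0 _) (fun z => hf1 _)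
    · intro z
      have h4 := (abs_lt.1 (hs (r' • z))).2
      rw [smul_smul, inv_mul_cancel_right] at h4
      show f (r s • z) ≤ f (r' • z) + η
      linarith
  have h5 : ∫ z, (f (r' • z) + η) ∂μ = ∫ z, f (r' • z) ∂μ + η * m := by
    rw [integral_add _ (integrable_const η)]
    · rw [integral_const, smul_eq_mul, mul_comm]
    · exact integrable_01 μ ⟨fun z => f (r' • z), f.continuous.comp (continuous_const_smul _)⟩
        (fun z => hf0 _) (fun z => hf1 _)
  linarith

end limit

variable {X : Type*} [TopologicalSpace X] [LocallyCompactSpace X] [T2Space X]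
  [SecondCountableTopology X] [MeasurableSpace X] [BorelSpace X]
variable {G : Type*} [Group G] [TopologicalSpace G] [IsTopologicalGroup G] [MulAction G X]
  [ContinuousSMul G X]

lemma smul_emb (a : G) : MeasurableEmbedding (fun z : X => a • z) :=
  (Homeomorph.smul a).measurableEmbedding

/-- If a translate `u x₀ μ` shares mass with `ν`, so do the translates by limits of the rescaled
parameters. -/
lemma scaled_share (A : Subgroup G) (μ ν : Measure X) [IsFiniteMeasure μ] [IsFiniteMeasure ν]
    (hμ : ∀ a ∈ A, μ.map (fun z => a • z) = μ) (hν : ∀ a ∈ A, ν.map (fun z => a • z) = ν)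
    (u : ℝ → G) (hu : Continuous u) (l₀ : ℝ)
    (hl : ∀ e : ℝ, 0 < e → ∃ a ∈ A, ∃ l : ℝ, |l - l₀| < e ∧ ∀ x, a * u x = u (l * x) * a)
    (x₀ : ℝ) (hs : ¬ ν ⟂ₘ (μ.map (fun z => u x₀ • z))) :
    ¬ ν ⟂ₘ (μ.map (fun z => u (l₀ * x₀) • z)) := by
  have hprob : IsFiniteMeasure (μ.map (fun z => u x₀ • z)) :=
    Measure.isFiniteMeasure_map _ _
  obtain ⟨c, hc, hover⟩ := exists_overlap ν _ hs
  have hex : ∀ k : ℕ, ∃ a ∈ A, ∃ l : ℝ, |l - l₀| < 1 / ((k : ℝ) + 1) ∧
      ∀ x, a * u x = u (l * x) * a := fun k => hl _ (by positivity)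
  choose a haA l hl hal using hex
  have hlim : Tendsto l atTop (𝓝 l₀) := by
    rw [tendsto_iff_dist_tendsto_zero]
    refine squeeze_zero (fun k => dist_nonneg) (fun k => ?_) tendsto_one_div_add_atTop_nhds_zero_nat
    rw [Real.dist_eq]
    exact (hl k).le
  refine limit_share2 μ ν c hc (fun k => u (l k * x₀)) _ ?_ ?_
  · exact (hu.tendsto _).comp (hlim.mul_const x₀)
  · intro k f hf0 hf1
    let F : C(X, ℝ) := ⟨fun z => f (a k • z), f.continuous.comp (continuous_const_smul _)⟩
    have h1 := hover F (fun z => hf0 _) (fun z => hf1 _)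
    have h2 : ∫ w, F w ∂(μ.map (fun w => u x₀ • w)) = ∫ w, f (u (l k * x₀) • w) ∂μ := by
      rw [integral_map (smul_measurable _).aemeasurable
        F.continuous.measurable.aestronglyMeasurable]
      have e : ∀ w, F (u x₀ • w) = f (u (l k * x₀) • a k • w) := by
        intro w
        show f (a k • u x₀ • w) = _
        rw [smul_smul, hal, mul_smul]
      simp_rw [e]
      exact integral_inv (hμ _ (haA k)) (⟨fun w => f (u (l k * x₀) • w),
        f.continuous.comp (continuous_const_smul _)⟩ : C(X, ℝ))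
    have h3 : ∫ w, (1 - F w) ∂ν = ∫ w, (1 - f w) ∂ν := by
      exact integral_inv (hν _ (haA k)) (⟨fun w => 1 - f w,
        continuous_const.sub f.continuous⟩ : C(X, ℝ))
    rw [h2, h3] at h1
    exact h1

/-- The theorem on unipotent translates. -/
theorem uni_main (A : Subgroup G) (μ ν : Measure X) [IsProbabilityMeasure μ]
    [IsFiniteMeasure ν]
    (hμ : ∀ a ∈ A, μ.map (fun z => a • z) = μ) (hν : ∀ a ∈ A, ν.map (fun z => a • z) = ν)
    (herg : ∀ s : Set X, MeasurableSet s → (∀ a ∈ A, (fun z => a • z) ⁻¹' s =ᵐ[μ] s) →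
      μ s = 0 ∨ μ sᶜ = 0)
    (u : ℝ → G) (hu : Continuous u) (hadd : ∀ x y, u (x + y) = u x * u y)
    (hau : ∀ a ∈ A, ∃ l : ℝ, l ≠ 0 ∧ ∀ x, a * u x = u (l * x) * a)
    (hdense : ∀ l₀ : ℝ, 0 < l₀ → ∀ e : ℝ, 0 < e →
      ∃ a ∈ A, ∃ l : ℝ, |l - l₀| < e ∧ ∀ x, a * u x = u (l * x) * a)
    (x₀ : ℝ) (hx₀ : x₀ ≠ 0) (hns : ¬ (μ.map (fun z => u x₀ • z)) ⟂ₘ ν) (x : ℝ) :
    μ.map (fun z => u x • z) = μ := by
  have hdense0 : ∀ e : ℝ, 0 < e →
      ∃ a ∈ A, ∃ l : ℝ, |l - 0| < e ∧ ∀ x, a * u x = u (l * x) * a := by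
    intro e he
    obtain ⟨a, ha, l, hl, h⟩ := hdense (e / 2) (by linarith) (e / 2) (by linarith)
    refine ⟨a, ha, l, ?_, h⟩
    rw [sub_zero]
    calc |l| = |(l - e / 2) + e / 2| := by ring_nf
      _ ≤ |l - e / 2| + |e / 2| := abs_add_le _ _
      _ < e / 2 + e / 2 := by
        rw [abs_of_pos (show 0 < e / 2 by linarith)]
        linarith
      _ = e := by ring
  have hu0 : u 0 = 1 := by
    have := hadd 0 0
    rw [add_zero] at this
    exact (mul_eq_left.1 this.symm)
  -- it suffices to treat ν = μ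
  have key : ¬ (μ.map (fun z => u x₀ • z)) ⟂ₘ μ := by
    intro hsing
    apply hns
    have hdec := Measure.haveLebesgueDecomposition_add ν μ
    rw [hdec]
    refine Measure.MutuallySingular.add_right ?_ ?_
    · -- the singular part
      by_contra hcon
      have hinv : ∀ a ∈ A, (ν.singularPart μ).map (fun z => a • z) = ν.singularPart μ := by
        intro a ha
        have := (smul_emb (X := X) a).singularPart_map ν μ
        rw [hν a ha, hμ a ha] at this
        exact this.symm
      have h1 := scaled_share A μ (ν.singularPart μ) hμ hinv u hu 0 hdense0 x₀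
        (fun h => hcon h.symm)
      apply h1
      have h2 : μ.map (fun z => u (0 * x₀) • z) = μ := by
        rw [zero_mul, hu0]
        simp
      rw [h2]
      exact Measure.mutuallySingular_singularPart ν μ
    · exact hsing.mono_ac Measure.AbsolutelyContinuous.rfl (withDensity_absolutelyContinuous _ _)
  refine inv_of_nonsingular μ A hμ herg u hu hadd hau ?_ {x | 0 < x / x₀} ?_ ?_ x
  · intro e he
    obtain ⟨a, ha, l, hl, h⟩ := hdense0 e he
    rw [sub_zero] at hl
    exact ⟨a, ha, l, hl, h⟩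
  · rcases lt_or_gt_of_ne hx₀ with h | h
    · have : {x : ℝ | 0 < x / x₀} = Iio 0 := by
        ext y
        simp only [mem_ofPred_eq, mem_Iio]
        constructor
        · intro hy
          by_contra hcon
          push Not at hcon
          exact absurd (div_nonpos_of_nonneg_of_nonpos hcon h.le) (not_le.2 hy)
        · intro hy
          exact div_pos_of_neg_of_neg hy h
      rw [this]; simp
    · have : {x : ℝ | 0 < x / x₀} = Ioi 0 := by
        ext y
        simp only [mem_ofPred_eq, mem_Ioi]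
        constructor
        · intro hy
          have := mul_pos hy h
          rwa [div_mul_cancel₀ _ h.ne'] at this
        · intro hy
          exact div_pos hy h
      rw [this]; simp
  · intro y hy
    have h1 := scaled_share A μ μ hμ hμ u hu (y / x₀) (hdense _ hy) x₀ (fun h => key h.symm)
    rwa [div_mul_cancel₀ _ hx₀] at h1

end Pool.Agent.Work.MP_67388f_an
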