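import Mathlib

set_option autoImplicit false

namespace Pool.Agent.Work.MP_67388f_an

open Filter Topology Set MeasureTheory
open scoped ENNReal

section maximal

variable {X : Type*} [MeasurableSpace X]

/-- running maxima of the ergodic sums of `g` -/
noncomputable def runMax (T : X → X) (g : X → ℝ) : ℕ → X → ℝ
  | 0 => fun _ => 0
  | N + 1 => fun x => max 0 (g x + runMax T g N (T x))

lemma runMax_nonneg (T : X → X) (g : X → ℝ) (N : ℕ) (x : X) : 0 ≤ runMax T g N x := by
  cases N with
  | zero => exact le_rfl
  | succ N => exact le_max_left _ _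

lemma runMax_mono (T : X → X) (g : X → ℝ) (N : ℕ) : ∀ x, runMax T g N x ≤ runMax T g (N + 1) x := by
  induction N with
  | zero => intro x; exact le_max_left _ _
  | succ N ih =>
    intro x
    exact max_le_max le_rfl (by linarith [ih (T x)])

lemma runMax_sum (T : X → X) (g : X → ℝ) (N : ℕ) :
    ∀ x, ∑ i ∈ Finset.range N, g (T^[i] x) ≤ runMax T g N x := by
  induction N with
  | zero => intro x; simp [runMax]
  | succ N ih =>
    intro x
    rw [Finset.sum_range_succ']
    simp only [Function.iterate_succ_apply, Function.iterate_zero, id]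
    have := ih (T x)
    calc ∑ i ∈ Finset.range N, g (T^[i] (T x)) + g x ≤ g x + runMax T g N (T x) := by linarith
      _ ≤ _ := le_max_right _ _

lemma runMax_meas {T : X → X} (hT : Measurable T) {g : X → ℝ} (hg : Measurable g) (N : ℕ) :
    Measurable (runMax T g N) := by
  induction N with
  | zero => exact measurable_const
  | succ N ih => exact measurable_const.max (hg.add (ih.comp hT))

lemma runMax_int {μ : Measure X} [IsFiniteMeasure μ] {T : X → X} (hT : MeasurePreserving T μ μ)
    {g : X → ℝ} (hg : Integrable g μ) (N : ℕ) : Integrable (runMax T g N) μ := by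
  induction N with
  | zero => exact integrable_zero _ _ _
  | succ N ih =>
    have h1 : Integrable (fun x => g x + runMax T g N (T x)) μ := hg.add (hT.integrable_comp_of_integrable ih)
    exact (integrable_zero X ℝ μ).sup h1

/-- Hopf's maximal inequality. -/
lemma hopf {μ : Measure X} [IsFiniteMeasure μ] {T : X → X} (hT : MeasurePreserving T μ μ)
    {g : X → ℝ} (hgm : Measurable g) (hg : Integrable g μ) (N : ℕ) :
    0 ≤ ∫ x in {x | 0 < runMax T g (N + 1) x}, g x ∂μ := by
  set M := runMax T g (N + 1) with hM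
  have hMm : Measurable M := runMax_meas hT.measurable hgm _
  have hMi : Integrable M μ := runMax_int hT hg _
  have hMT : Integrable (fun x => M (T x)) μ := hT.integrable_comp_of_integrable hMi
  have hM0 : ∀ x, 0 ≤ M x := runMax_nonneg T g _
  set C : Set X := {x | 0 < M x} with hC
  have hCm : MeasurableSet C := measurableSet_lt measurable_const hMm
  have h1 : ∀ x ∈ C, M x - M (T x) ≤ g x := by
    intro x hx
    have hx' : 0 < max 0 (g x + runMax T g N (T x)) := hx
    have h2 : M x = g x + runMax T g N (T x) := by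
      show max 0 (g x + runMax T g N (T x)) = _
      apply max_eq_right
      by_contra hcon
      push Not at hcon
      rw [max_eq_left hcon.le] at hx'
      exact lt_irrefl _ hx'
    have h3 := runMax_mono T g N (T x)
    rw [h2]
    linarith
  calc (0 : ℝ) = ∫ x, M x ∂μ - ∫ x, M (T x) ∂μ := by
        have : ∫ x, M (T x) ∂μ = ∫ x, M x ∂μ := by
          rw [← integral_map hT.measurable.aemeasurable, hT.map_eq]
          rw [hT.map_eq]
          exact hMm.aestronglyMeasurable
        rw [this, sub_self]
    _ ≤ ∫ x in C, M x ∂μ - ∫ x in C, M (T x) ∂μ := by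
        have h4 : ∫ x in C, M x ∂μ = ∫ x, M x ∂μ := by
          apply setIntegral_eq_integral_of_forall_compl_eq_zero
          intro x hx
          have : ¬ 0 < M x := hx
          exact le_antisymm (not_lt.1 this) (hM0 x)
        have h5 : ∫ x in C, M (T x) ∂μ ≤ ∫ x, M (T x) ∂μ :=
          setIntegral_le_integral hMT (Eventually.of_forall fun x => hM0 _)
        linarith
    _ = ∫ x in C, (M x - M (T x)) ∂μ := by
        rw [integral_sub hMi.integrableOn hMT.integrableOn]
    _ ≤ ∫ x in C, g x ∂μ :=
        setIntegral_mono_on (hMi.sub hMT).integrableOn hg.integrableOn hCm h1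

/-- A set of positive measure contains a large set of points all of whose visit averages are
bounded below. -/
lemma good_set {μ : Measure X} [IsProbabilityMeasure μ] {T : X → X}
    (hT : MeasurePreserving T μ μ) {E : Set X} (hE : MeasurableSet E) (m : ℝ) (hm0 : 0 ≤ m)
    (hm : m ≤ μ.real E) :
    ∃ E₁ : Set X, MeasurableSet E₁ ∧ m / 2 ≤ μ.real E₁ ∧
      ∀ x ∈ E₁, ∀ N : ℕ, m / 2 * N ≤ ∑ i ∈ Finset.range N, E.indicator (fun _ => (1 : ℝ)) (T^[i] x) := by
  let g : X → ℝ := fun x => m / 2 - E.indicator (fun _ => (1 : ℝ)) x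
  have hgm : Measurable g := measurable_const.sub (measurable_const.indicator hE)
  have hgi : Integrable g μ := (integrable_const _).sub ((integrable_const _).indicator hE)
  let C : ℕ → Set X := fun N => {x | 0 < runMax T g N x}
  have hCm : ∀ N, MeasurableSet (C N) := fun N =>
    measurableSet_lt measurable_const (runMax_meas hT.measurable hgm N)
  have hCmono : Monotone C := by
    apply monotone_nat_of_le_succ
    intro N x hx
    exact lt_of_lt_of_le hx (runMax_mono T g N x)
  have hCle : ∀ N, μ.real (E ∩ C N) ≤ m / 2 := by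
    intro N
    have h1 : 0 ≤ ∫ x in C (N + 1), g x ∂μ := hopf hT hgm hgi N
    have h2 : ∫ x in C (N + 1), g x ∂μ = m / 2 * μ.real (C (N + 1)) - μ.real (E ∩ C (N + 1)) := by
      have hi1 : Integrable (fun _ : X => m / 2) (μ.restrict (C (N + 1))) := integrable_const _
      have hi2 : Integrable (E.indicator (fun _ => (1 : ℝ))) (μ.restrict (C (N + 1))) :=
        (integrable_const _).indicator hE
      have hi3 : ∫ x in C (N + 1), g x ∂μ = ∫ x in C (N + 1), (m / 2) ∂μ
          - ∫ x in C (N + 1), E.indicator (fun _ => (1 : ℝ)) x ∂μ := integral_sub hi1 hi2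
      rw [hi3]
      rw [setIntegral_const, setIntegral_indicator hE, setIntegral_const]
      simp only [smul_eq_mul, mul_one]
      rw [inter_comm, mul_comm]
    have h3 : μ.real (C (N + 1)) ≤ 1 := measureReal_le_one
    have h4 : μ.real (E ∩ C N) ≤ μ.real (E ∩ C (N + 1)) := by
      exact measureReal_mono (inter_subset_inter_right _ (hCmono (Nat.le_succ N)))
    nlinarith
  have hlim : μ.real (E ∩ ⋃ N, C N) ≤ m / 2 := by
    have h1 : Tendsto (fun N => μ (E ∩ C N)) atTop (𝓝 (μ (⋃ N, E ∩ C N))) := by
      apply tendsto_measure_iUnion_atTop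
      intro a b hab
      exact inter_subset_inter_right _ (hCmono hab)
    have h2 : Tendsto (fun N => μ.real (E ∩ C N)) atTop (𝓝 (μ.real (⋃ N, E ∩ C N))) :=
      (ENNReal.tendsto_toReal (measure_ne_top _ _)).comp h1
    rw [inter_iUnion]
    exact le_of_tendsto' h2 hCle
  refine ⟨E \ ⋃ N, C N, hE.diff (MeasurableSet.iUnion hCm), ?_, ?_⟩
  · have h1 : μ.real E ≤ μ.real (E ∩ ⋃ N, C N) + μ.real (E \ ⋃ N, C N) := by
      rw [measureReal_inter_add_sdiff (MeasurableSet.iUnion hCm)]
    linarith
  · intro x hx N
    have h1 : ¬ 0 < runMax T g N x := fun h => hx.2 (mem_iUnion.2 ⟨N, h⟩)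
    have h2 := runMax_sum T g N x
    have h3 : ∑ i ∈ Finset.range N, g (T^[i] x)
        = m / 2 * N - ∑ i ∈ Finset.range N, E.indicator (fun _ => (1 : ℝ)) (T^[i] x) := by
      simp only [g]
      rw [Finset.sum_sub_distrib]
      simp [mul_comm]
    linarith [not_lt.1 h1]

/-- ordered composition of iterates of a finite family of maps -/
def iterMap : (k : ℕ) → (Fin k → X → X) → (Fin k → ℕ) → X → X
  | 0, _, _ => id
  | k + 1, T, n => fun x => (T 0)^[n 0] (iterMap k (Fin.tail T) (Fin.tail n) x)

/-- the constant in the multi-parameter visit estimate -/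
noncomputable def visitConst : ℕ → ℝ → ℝ
  | 0, _ => 1
  | k + 1, m => m / 2 * visitConst k (m / 2)

lemma visitConst_pos (k : ℕ) : ∀ m : ℝ, 0 < m → 0 < visitConst k m := by
  induction k with
  | zero => intro m _; exact one_pos
  | succ k ih => intro m hm; exact mul_pos (by linarith) (ih _ (by linarith))

open Classical in
/-- Multi-parameter version of `good_set`. -/
lemma good_set_multi {μ : Measure X} [IsProbabilityMeasure μ] (k : ℕ) :
    ∀ (T : Fin k → X → X) (_ : ∀ i, MeasurePreserving (T i) μ μ) (E : Set X)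
    (_ : MeasurableSet E) (m : ℝ) (_ : 0 < m) (_ : m ≤ μ.real E),
    ∃ E₁ : Set X, MeasurableSet E₁ ∧ 0 < μ.real E₁ ∧
      ∀ x ∈ E₁, ∀ N : ℕ, visitConst k m * (N : ℝ) ^ k ≤
        (((Fintype.piFinset fun _ : Fin k => Finset.range N).filter
          fun n => iterMap k T n x ∈ E).card : ℝ) := by
  induction k with
  | zero =>
    intro T _ E hE m hm0 hm
    refine ⟨E, hE, hm0.trans_le hm, fun x hx N => ?_⟩
    have : ((Fintype.piFinset fun _ : Fin 0 => Finset.range N).filter
          fun n => iterMap 0 T n x ∈ E) = Finset.univ := by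
      ext n
      simp only [Finset.mem_filter, Finset.mem_univ, iff_true]
      refine ⟨?_, hx⟩
      rw [Fintype.mem_piFinset]
      intro i
      exact i.elim0
    rw [this]
    simp [visitConst]
  | succ k ih =>
    intro T hT E hE m hm0 hm
    obtain ⟨E₁, hE₁, hmE₁, hvis⟩ := good_set (hT 0) hE m hm0.le hm
    obtain ⟨E₂, hE₂, hmE₂, hvis₂⟩ := ih (Fin.tail T) (fun i => hT i.succ) E₁ hE₁ (m / 2)
      (by linarith) hmE₁
    refine ⟨E₂, hE₂, hmE₂, fun x hx N => ?_⟩
    have h1 := hvis₂ x hx N
    set S' := (Fintype.piFinset fun _ : Fin k => Finset.range N).filter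
          fun n => iterMap k (Fin.tail T) n x ∈ E₁ with hS'
    let R : (Fin k → ℕ) → Finset ℕ := fun n' =>
      (Finset.range N).filter fun i => (T 0)^[i] (iterMap k (Fin.tail T) n' x) ∈ E
    have hR : ∀ n' ∈ S', m / 2 * N ≤ ((R n').card : ℝ) := by
      intro n' hn'
      have h2 := hvis _ (Finset.mem_filter.1 hn').2 N
      refine h2.trans (le_of_eq ?_)
      simp only [R]
      rw [Finset.card_filter]
      push_cast
      refine Finset.sum_congr rfl fun i _ => ?_
      by_cases h : (T 0)^[i] (iterMap k (Fin.tail T) n' x) ∈ E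
      · rw [indicator_of_mem h, if_pos h]
      · rw [indicator_of_notMem h, if_neg h]
    have hcard : (S'.sigma R).card ≤
        ((Fintype.piFinset fun _ : Fin (k + 1) => Finset.range N).filter
          fun n => iterMap (k + 1) T n x ∈ E).card := by
      refine Finset.card_le_card_of_injOn (fun p => (Fin.cons p.2 p.1 : Fin (k + 1) → ℕ)) ?_ ?_
      · rintro ⟨n', i⟩ hp
        have hp' := Finset.mem_sigma.1 (Finset.mem_coe.1 hp)
        have hn' := Finset.mem_filter.1 hp'.1
        have hi := Finset.mem_filter.1 hp'.2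
        refine Finset.mem_coe.2 (Finset.mem_filter.2 ⟨?_, ?_⟩)
        · rw [Fintype.mem_piFinset]
          intro j
          refine Fin.cases ?_ (fun j => ?_) j
          · exact hi.1
          · exact Fintype.mem_piFinset.1 hn'.1 j
        · show (T 0)^[i] (iterMap k (Fin.tail T) (Fin.tail (Fin.cons i n' : Fin (k + 1) → ℕ)) x) ∈ E
          rw [Fin.tail_cons]
          exact hi.2
      · rintro ⟨n', i⟩ _ ⟨n'', i'⟩ _ h
        have h2 := Fin.cons_injective2 h
        obtain ⟨rfl, rfl⟩ := h2
        rfl
    calc visitConst (k + 1) m * (N : ℝ) ^ (k + 1)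
        = (visitConst k (m / 2) * (N : ℝ) ^ k) * (m / 2 * N) := by
          show m / 2 * visitConst k (m / 2) * (N : ℝ) ^ (k + 1) = _
          ring
      _ ≤ (S'.card : ℝ) * (m / 2 * N) := by
          apply mul_le_mul_of_nonneg_right h1
          positivity
      _ = ∑ n' ∈ S', (m / 2 * N) := by rw [Finset.sum_const, nsmul_eq_mul]
      _ ≤ ∑ n' ∈ S', ((R n').card : ℝ) := Finset.sum_le_sum hR
      _ = ((S'.sigma R).card : ℝ) := by rw [Finset.card_sigma]; push_cast; rfl
      _ ≤ _ := by exact_mod_cast hcard

end maximal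

end Pool.Agent.Work.MP_67388f_an
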