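import Pool.Agent.Work.MP_67388f_an.Furst2

set_option autoImplicit false

namespace Pool.Agent.Work.MP_67388f_an

open Filter Topology Set MeasureTheory
open scoped ENNReal

lemma measurable_add_const' (t : UnitAddCircle) : Measurable (fun x : UnitAddCircle => x + t) :=
  measurable_add_const t

lemma shareSet_iff (μ ν : Measure UnitAddCircle) (c : ℝ≥0∞) (t : UnitAddCircle) :
    t ∈ shareSet μ ν c ↔ ∀ s : Set UnitAddCircle, MeasurableSet s →
      c ≤ ν s + μ ((fun x => x + t) ⁻¹' sᶜ) := by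
  unfold shareSet
  simp only [mem_ofPred_eq]
  refine forall_congr' fun s => forall_congr' fun hs => ?_
  rw [Measure.map_apply (measurable_add_const' t) hs.compl]

lemma shareSet_inv {μ ν : Measure UnitAddCircle} {c : ℝ≥0∞} {a : ℕ}
    (hμ : MeasurePreserving (fun x : UnitAddCircle => a • x) μ μ)
    (hν : MeasurePreserving (fun x : UnitAddCircle => a • x) ν ν) :
    ∀ t ∈ shareSet μ ν c, a • t ∈ shareSet μ ν c := by
  intro t ht
  rw [shareSet_iff] at *
  intro s hs
  have h1 : ν s = ν ((fun x : UnitAddCircle => a • x) ⁻¹' s) :=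
    (hν.measure_preimage hs.nullMeasurableSet).symm
  have hm : MeasurableSet ((fun x : UnitAddCircle => x + a • t) ⁻¹' sᶜ) :=
    measurable_add_const' _ hs.compl
  have h2 : μ ((fun x : UnitAddCircle => x + a • t) ⁻¹' sᶜ)
      = μ ((fun x : UnitAddCircle => a • x) ⁻¹' ((fun x : UnitAddCircle => x + a • t) ⁻¹' sᶜ)) :=
    (hμ.measure_preimage hm.nullMeasurableSet).symm
  have h3 : (fun x : UnitAddCircle => a • x) ⁻¹' ((fun x : UnitAddCircle => x + a • t) ⁻¹' sᶜ)
      = (fun x : UnitAddCircle => x + t) ⁻¹' ((fun x : UnitAddCircle => a • x) ⁻¹' s)ᶜ := by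
    ext x
    simp only [mem_preimage, mem_compl_iff, smul_add]
  rw [h1, h2, h3]
  exact ht _ (hμ.measurable hs)

lemma shareSet_closed (μ ν : Measure UnitAddCircle) [IsFiniteMeasure μ] [IsFiniteMeasure ν]
    (c : ℝ≥0∞) : IsClosed (shareSet μ ν c) := by
  rw [← isOpen_compl_iff, Metric.isOpen_iff]
  intro t₀ ht₀
  rw [mem_compl_iff, shareSet_iff] at ht₀
  push Not at ht₀
  obtain ⟨s, hs, hlt⟩ := ht₀
  -- enlarge s to an open set
  obtain ⟨U, hsU, hUo, hU⟩ : ∃ U ⊇ s, IsOpen U ∧ ν U + μ ((fun x => x + t₀) ⁻¹' sᶜ) < c := by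
    have hfin : μ ((fun x => x + t₀) ⁻¹' sᶜ) ≠ ∞ := measure_ne_top _ _
    have : ν s < c - μ ((fun x => x + t₀) ⁻¹' sᶜ) := by
      rw [lt_tsub_iff_right]
      exact hlt
    obtain ⟨U, h1, h2, h3⟩ := s.exists_isOpen_lt_of_lt _ this
    exact ⟨U, h1, h2, by rwa [lt_tsub_iff_right] at h3⟩
  have hK : IsCompact ((fun x : UnitAddCircle => x + t₀) ⁻¹' Uᶜ) :=
    (hUo.isClosed_compl.preimage (continuous_add_const t₀)).isCompact
  have hKle : μ ((fun x => x + t₀) ⁻¹' Uᶜ) ≤ μ ((fun x => x + t₀) ⁻¹' sᶜ) :=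
    measure_mono (preimage_mono (compl_subset_compl.2 hsU))
  have hlt2 : μ ((fun x => x + t₀) ⁻¹' Uᶜ) < c - ν U := by
    rw [lt_tsub_iff_right, add_comm]
    refine lt_of_le_of_lt ?_ hU
    gcongr
  obtain ⟨V, hKV, hVo, hV⟩ := ((fun x : UnitAddCircle => x + t₀) ⁻¹' Uᶜ).exists_isOpen_lt_of_lt _ hlt2
  obtain ⟨δ, hδ, hthick⟩ := hK.exists_thickening_subset_open hVo hKV
  refine ⟨δ, hδ, fun t ht => ?_⟩
  rw [mem_compl_iff, shareSet_iff]
  push Not
  refine ⟨U, hUo.measurableSet, ?_⟩
  have hsub : (fun x : UnitAddCircle => x + t) ⁻¹' Uᶜ ⊆ V := by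
    intro x hx
    apply hthick
    rw [Metric.mem_thickening_iff]
    refine ⟨x + (t - t₀), ?_, ?_⟩
    · show x + (t - t₀) + t₀ ∈ Uᶜ
      have : x + (t - t₀) + t₀ = x + t := by abel
      rw [this]; exact hx
    · rw [dist_eq_norm]
      have : x - (x + (t - t₀)) = -(t - t₀) := by abel
      rw [this, norm_neg, ← dist_eq_norm]
      exact ht
  calc ν U + μ ((fun x => x + t) ⁻¹' Uᶜ) ≤ ν U + μ V := by gcongr
    _ < c := by
      rw [lt_tsub_iff_right] at hV
      rwa [add_comm]

/-- If `s` is Lebesgue null then almost all its translates are null for any finite measure. -/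
lemma ae_translate_null (ν : Measure UnitAddCircle) [IsFiniteMeasure ν] {s : Set UnitAddCircle}
    (hs : MeasurableSet s) (h0 : volume s = 0) :
    ∀ᵐ t : UnitAddCircle, ν ((fun x => x + t) ⁻¹' s) = 0 := by
  have hmeas : Measurable (fun p : UnitAddCircle × UnitAddCircle => p.1 + p.2) := measurable_add
  have h1 : (∫⁻ t : UnitAddCircle, ν ((fun x => x + t) ⁻¹' s)) = 0 := by
    have e1 : ∀ t : UnitAddCircle, ν ((fun x => x + t) ⁻¹' s)
        = ∫⁻ x, s.indicator (fun _ => (1 : ℝ≥0∞)) (x + t) ∂ν := by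
      intro t
      have : (fun x : UnitAddCircle => s.indicator (fun _ => (1 : ℝ≥0∞)) (x + t))
          = ((fun x : UnitAddCircle => x + t) ⁻¹' s).indicator (fun _ => (1 : ℝ≥0∞)) := by
        ext x; rfl
      rw [this, lintegral_indicator_const (measurable_add_const' t hs), one_mul]
    simp_rw [e1]
    rw [lintegral_lintegral_swap]
    · have e2 : ∀ x : UnitAddCircle, (∫⁻ t : UnitAddCircle, s.indicator (fun _ => (1 : ℝ≥0∞)) (x + t)) = 0 := by
        intro x
        have : (fun t : UnitAddCircle => s.indicator (fun _ => (1 : ℝ≥0∞)) (x + t))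
          = ((fun t : UnitAddCircle => x + t) ⁻¹' s).indicator (fun _ => (1 : ℝ≥0∞)) := by
          ext t; rfl
        rw [this, lintegral_indicator_const (measurable_const_add x hs), one_mul,
          measure_preimage_add, h0]
      simp_rw [e2]
      simp
    · apply Measurable.aemeasurable
      have : Measurable (fun p : UnitAddCircle × UnitAddCircle =>
          s.indicator (fun _ => (1 : ℝ≥0∞)) (p.2 + p.1)) :=
        (measurable_const.indicator hs).comp (measurable_snd.add measurable_fst)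
      exact this
  have hm : Measurable (fun t : UnitAddCircle => ν ((fun x => x + t) ⁻¹' s)) := by
    have : MeasurableSet {p : UnitAddCircle × UnitAddCircle | p.2 + p.1 ∈ s} :=
      (measurable_snd.add measurable_fst) hs
    exact measurable_measure_prodMk_left this
  rw [lintegral_eq_zero_iff hm] at h1
  exact h1

/-- If the translates overlap for every `t`, neither measure is singular. -/
lemma not_singular_of_shareSet_univ {μ ν : Measure UnitAddCircle} [IsFiniteMeasure μ]
    [IsFiniteMeasure ν] {c : ℝ≥0∞} (hc : 0 < c) (h : shareSet μ ν c = univ) :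
    ¬ ν ⟂ₘ (volume : Measure UnitAddCircle) ∧ ¬ μ ⟂ₘ (volume : Measure UnitAddCircle) := by
  constructor
  · rintro ⟨s, hs, h1, h2⟩
    have hae := ae_translate_null μ hs.compl h2
    obtain ⟨t, ht⟩ := hae.exists
    have : t ∈ shareSet μ ν c := by rw [h]; trivial
    rw [shareSet_iff] at this
    have := this s hs
    rw [h1, ht, add_zero] at this
    exact (hc.not_ge this)
  · rintro ⟨s, hs, h1, h2⟩
    -- h1 : μ s = 0, h2 : volume sᶜ = 0
    have hae := ae_translate_null ν hs.compl h2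
    obtain ⟨t, ht⟩ := hae.exists
    have : -t ∈ shareSet μ ν c := by rw [h]; trivial
    rw [shareSet_iff] at this
    have h3 := this ((fun x => x + t) ⁻¹' sᶜ) (measurable_add_const' t hs.compl)
    rw [ht, zero_add] at h3
    have e : (fun x : UnitAddCircle => x + -t) ⁻¹' ((fun x => x + t) ⁻¹' sᶜ)ᶜ = s := by
      ext x
      simp
    rw [e, h1] at h3
    exact (hc.not_ge h3)

/-- Non-singularity gives a positive shared mass. -/
lemma exists_share_of_not_singular {μ ν : Measure UnitAddCircle} [IsFiniteMeasure μ]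
    [IsFiniteMeasure ν] {t : UnitAddCircle} (h : ¬ ν ⟂ₘ μ.map (fun x => x + t)) :
    ∃ c : ℝ≥0∞, 0 < c ∧ t ∈ shareSet μ ν c := by
  by_contra hcon
  push Not at hcon
  apply h
  have hex : ∀ n : ℕ, ∃ s : Set UnitAddCircle, MeasurableSet s ∧
      ν s + (μ.map (fun x => x + t)) sᶜ < (2⁻¹ : ℝ≥0∞) ^ n := by
    intro n
    have hpos : (0 : ℝ≥0∞) < (2⁻¹ : ℝ≥0∞) ^ n := by
      apply ENNReal.pow_pos
      simp
    have := hcon _ hpos
    unfold shareSet at this
    simp only [mem_ofPred_eq] at this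
    push Not at this
    obtain ⟨s, hs, h1⟩ := this
    exact ⟨s, hs, h1⟩
  choose s hs hlt using hex
  refine ⟨limsup s atTop, MeasurableSet.measurableSet_limsup hs, ?_, ?_⟩
  · apply measure_limsup_atTop_eq_zero
    have : (∑' i, ν (s i)) ≤ ∑' i : ℕ, (2⁻¹ : ℝ≥0∞) ^ i :=
      ENNReal.tsum_le_tsum fun i => (le_self_add.trans (hlt i).le)
    refine ne_top_of_le_ne_top ?_ this
    rw [ENNReal.tsum_geometric]
    norm_num
  · -- complement of limsup is contained in limsup of complements
    have hsub : (limsup s atTop)ᶜ ⊆ limsup (fun i => (s i)ᶜ) atTop := by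
      intro x hx
      rw [mem_compl_iff, mem_limsup_iff_frequently_mem, not_frequently] at hx
      rw [mem_limsup_iff_frequently_mem]
      exact hx.frequently
    refine measure_mono_null hsub ?_
    apply measure_limsup_atTop_eq_zero
    have : (∑' i, (μ.map (fun x => x + t)) (s i)ᶜ) ≤ ∑' i : ℕ, (2⁻¹ : ℝ≥0∞) ^ i :=
      ENNReal.tsum_le_tsum fun i => (le_add_self.trans (hlt i).le)
    refine ne_top_of_le_ne_top ?_ this
    rw [ENNReal.tsum_geometric]
    norm_num

lemma isOfFinAddOrder_of_finite_inv {S : Set UnitAddCircle} (hS : S.Finite) {a : ℕ} (ha : 2 ≤ a)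
    (hinv : ∀ t ∈ S, a • t ∈ S) {t : UnitAddCircle} (ht : t ∈ S) : IsOfFinAddOrder t := by
  by_contra hcon
  exact infinite_of_nontorsion ha hinv ht hcon hS

theorem overlap_main (a b : ℕ) (ha : 2 ≤ a) (hb : 2 ≤ b) (h : MulIndep a b)
    (μ ν : Measure UnitAddCircle) [IsFiniteMeasure μ] [IsFiniteMeasure ν]
    (hμa : MeasurePreserving (fun x : UnitAddCircle => a • x) μ μ)
    (hμb : MeasurePreserving (fun x : UnitAddCircle => b • x) μ μ)
    (hνa : MeasurePreserving (fun x : UnitAddCircle => a • x) ν ν)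
    (hνb : MeasurePreserving (fun x : UnitAddCircle => b • x) ν ν)
    (hsing : μ ⟂ₘ (volume : Measure UnitAddCircle) ∨ ν ⟂ₘ (volume : Measure UnitAddCircle)) :
    (∀ c : ℝ≥0∞, 0 < c → (shareSet μ ν c).Finite) ∧
    ∀ t : UnitAddCircle, ¬ IsOfFinAddOrder t → ν ⟂ₘ μ.map (fun x => x + t) := by
  have hfin : ∀ c : ℝ≥0∞, 0 < c → (shareSet μ ν c).Finite := by
    intro c hc
    by_contra hinf
    have huniv := furstenberg a b ha hb h (shareSet μ ν c) (shareSet_closed μ ν c)
      (shareSet_inv hμa hνa) (shareSet_inv hμb hνb) hinf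
    obtain ⟨h1, h2⟩ := not_singular_of_shareSet_univ hc huniv
    rcases hsing with h3 | h3
    · exact h2 h3
    · exact h1 h3
  refine ⟨hfin, fun t ht => ?_⟩
  by_contra hcon
  obtain ⟨c, hc, htc⟩ := exists_share_of_not_singular hcon
  exact ht (isOfFinAddOrder_of_finite_inv (hfin c hc) ha (shareSet_inv hμa hνa) htc)

end Pool.Agent.Work.MP_67388f_an
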