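import Pool.Agent.Work.MP_67388f_an.Share

set_option autoImplicit false

namespace Pool.Agent.Work.MP_67388f_an

open Filter Topology Set MeasureTheory
open scoped ENNReal

variable {X : Type*} [TopologicalSpace X] [LocallyCompactSpace X] [T2Space X]
  [SecondCountableTopology X] [MeasurableSpace X] [BorelSpace X]
variable {G : Type*} [Group G] [TopologicalSpace G] [IsTopologicalGroup G] [MulAction G X]
  [ContinuousSMul G X]

theorem exists_pair (μ μ' : Measure X) [IsProbabilityMeasure μ] [IsProbabilityMeasure μ']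
    (u : ℝ → G) (hu : ∀ x y, u (x + y) = u x * u y) (w : ℝ → G) (hw : Tendsto w atTop (𝓝 1))
    (c : ℝ) (hc : 0 < c)
    (hS : ∀ ξ : ℝ, 0 < ξ → ∀ f : C(X, ℝ), (∀ z, 0 ≤ f z) → (∀ z, f z ≤ 1) →
      c ≤ ∫ z, f z ∂μ' + ∫ z, (1 - f (w ξ • u (-ξ) • z)) ∂μ) :
    ∃ i j : ℕ, i < j ∧
      ¬ (μ'.map (fun z => u (i : ℝ) • z)) ⟂ₘ (μ'.map (fun z => u (j : ℝ) • z)) := by
  by_contra hcon
  push Not at hcon
  obtain ⟨K, hK⟩ := exists_nat_gt (4 / c)
  have hKc : 4 < K * c := by rwa [div_lt_iff₀ hc] at hK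
  have hprob : ∀ i : ℕ, IsProbabilityMeasure (μ'.map (fun z => u (i : ℝ) • z)) := fun i =>
    Measure.isProbabilityMeasure_map (smul_measurable (u (i : ℝ))).aemeasurable
  obtain ⟨g, hg0, hgsum, hgc, hgint⟩ := exists_separating K
    (fun i : ℕ => μ'.map (fun z => u (i : ℝ) • z)) hcon (c / 4) (by linarith)
  have hg1 : ∀ i < K, ∀ z, g i z ≤ 1 := by
    intro i hi z
    refine le_trans ?_ (hgsum z)
    exact Finset.single_le_sum (f := fun i => g i z) (fun j _ => hg0 j z) (Finset.mem_range.2 hi)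
  let F : ℕ → C(X, ℝ) := fun i => ⟨fun z => g i (u (i : ℝ) • z),
    (g i).continuous.comp (continuous_const_smul _)⟩
  have hFc : ∀ i, HasCompactSupport (F i) := by
    intro i
    have := (hgc i).comp_homeomorph (Homeomorph.smul (u (i : ℝ)))
    exact this
  -- uniform closeness
  have hunif : ∀ᶠ ξ : ℝ in atTop, ∀ i ∈ Finset.range K, ∀ z : X, |F i (w ξ • z) - F i z| < c / 4 := by
    rw [eventually_all_finset]
    intro i _
    exact hw.eventually (unif_action (F i) (hFc i) (c / 4) (by linarith))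
  obtain ⟨ξ₁, hξ₁⟩ := eventually_atTop.1 hunif
  obtain ⟨ξ₀, hξ₀⟩ := exists_nat_gt (max ξ₁ 0)
  have hξ₀1 : ξ₁ ≤ (ξ₀ : ℝ) := (le_max_left _ _).trans hξ₀.le
  have hξ₀0 : (0 : ℝ) < (ξ₀ : ℝ) := (le_max_right _ _).trans_lt hξ₀
  let b : ℕ → ℤ → ℝ := fun i k => ∫ z, g i (u (-((ξ₀ : ℝ) + k)) • z) ∂μ
  have hbint : ∀ i < K, ∀ k, Integrable (fun z => g i (u (-((ξ₀ : ℝ) + (k : ℤ))) • z)) μ := by
    intro i hi k
    exact integrable_01 μ
      ⟨_, (g i).continuous.comp (continuous_const_smul (u (-((ξ₀ : ℝ) + (k : ℤ)))))⟩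
      (fun z => hg0 i _) (fun z => hg1 i hi _)
  have hb0 : ∀ i k, 0 ≤ b i k := fun i k => integral_nonneg fun z => hg0 i _
  have hbsum : ∀ k, ∑ i ∈ Finset.range K, b i k ≤ 1 := by
    intro k
    simp only [b]
    rw [← integral_finsetSum _ (fun i hi => hbint i (Finset.mem_range.1 hi) k)]
    calc ∫ z, ∑ i ∈ Finset.range K, g i (u (-((ξ₀ : ℝ) + k)) • z) ∂μ
        ≤ ∫ _z, (1 : ℝ) ∂μ := by
          refine integral_mono (integrable_finsetSum _ fun i hi =>
            hbint i (Finset.mem_range.1 hi) k) (integrable_const 1) ?_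
          intro z
          exact hgsum _
      _ = 1 := by simp
  have hlow : ∀ i < K, ∀ m : ℕ, c / 2 ≤ b i ((m : ℤ) - i) := by
    intro i hi m
    have hξ : (0 : ℝ) < (ξ₀ : ℝ) + m := by positivity
    have hf0 : ∀ z, 0 ≤ ((1 : C(X, ℝ)) - F i) z := fun z => by
      simp only [ContinuousMap.sub_apply, ContinuousMap.one_apply]
      exact sub_nonneg.2 (hg1 i hi _)
    have hf1 : ∀ z, ((1 : C(X, ℝ)) - F i) z ≤ 1 := fun z => by
      simp only [ContinuousMap.sub_apply, ContinuousMap.one_apply]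
      have := hg0 i (u (i : ℝ) • z)
      show 1 - g i (u (i : ℝ) • z) ≤ 1
      linarith
    have h1 := hS ((ξ₀ : ℝ) + m) hξ (1 - F i) hf0 hf1
    have h2 : ∫ z, ((1 : C(X, ℝ)) - F i) z ∂μ' ≤ c / 4 := by
      have e : ∫ z, ((1 : C(X, ℝ)) - F i) z ∂μ' = ∫ z, (1 - g i z) ∂(μ'.map (fun z => u (i : ℝ) • z)) := by
        rw [integral_map (smul_measurable (u (i : ℝ))).aemeasurable]
        · rfl
        · exact (continuous_const.sub (g i).continuous).measurable.aestronglyMeasurable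
      rw [e]
      exact hgint i hi
    have h3 : ∫ z, (1 - ((1 : C(X, ℝ)) - F i) (w ((ξ₀ : ℝ) + m) • u (-((ξ₀ : ℝ) + m)) • z)) ∂μ
        ≤ b i ((m : ℤ) - i) + c / 4 := by
      have hle : ∀ z, 1 - ((1 : C(X, ℝ)) - F i) (w ((ξ₀ : ℝ) + m) • u (-((ξ₀ : ℝ) + m)) • z)
          ≤ g i (u (-((ξ₀ : ℝ) + ((m : ℤ) - (i : ℤ) : ℤ))) • z) + c / 4 := by
        intro z
        have h4 := hξ₁ ((ξ₀ : ℝ) + m) (by linarith [(Nat.cast_nonneg m : (0 : ℝ) ≤ m)]) i
          (Finset.mem_range.2 hi) (u (-((ξ₀ : ℝ) + m)) • z)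
        have h5 : F i (u (-((ξ₀ : ℝ) + m)) • z)
            = g i (u (-((ξ₀ : ℝ) + ((m : ℤ) - (i : ℤ) : ℤ))) • z) := by
          show g i (u (i : ℝ) • u (-((ξ₀ : ℝ) + m)) • z) = _
          rw [smul_smul, ← hu]
          congr 3
          push_cast
          ring
        simp only [ContinuousMap.sub_apply, ContinuousMap.one_apply]
        have h6 := (abs_lt.1 h4).2
        rw [h5] at h6
        linarith
      calc ∫ z, (1 - ((1 : C(X, ℝ)) - F i) (w ((ξ₀ : ℝ) + m) • u (-((ξ₀ : ℝ) + m)) • z)) ∂μ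
          ≤ ∫ z, (g i (u (-((ξ₀ : ℝ) + ((m : ℤ) - (i : ℤ) : ℤ))) • z) + c / 4) ∂μ := by
            refine integral_mono ?_ ((hbint i hi _).add (integrable_const _)) hle
            refine integrable_01 μ ⟨fun z => 1 - ((1 : C(X, ℝ)) - F i)
              (w ((ξ₀ : ℝ) + m) • u (-((ξ₀ : ℝ) + m)) • z), ?_⟩ ?_ ?_
            · exact continuous_const.sub (((1 : C(X, ℝ)) - F i).continuous.comp
                ((continuous_const_smul _).comp (continuous_const_smul _)))
            · intro z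
              show 0 ≤ 1 - ((1 : C(X, ℝ)) - F i) (w ((ξ₀ : ℝ) + m) • u (-((ξ₀ : ℝ) + m)) • z)
              linarith [hf1 (w ((ξ₀ : ℝ) + m) • u (-((ξ₀ : ℝ) + m)) • z)]
            · intro z
              show 1 - ((1 : C(X, ℝ)) - F i) (w ((ξ₀ : ℝ) + m) • u (-((ξ₀ : ℝ) + m)) • z) ≤ 1
              linarith [hf0 (w ((ξ₀ : ℝ) + m) • u (-((ξ₀ : ℝ) + m)) • z)]
        _ = b i ((m : ℤ) - i) + c / 4 := by
            rw [integral_add (hbint i hi _) (integrable_const _)]
            simp [b]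
    linarith
  -- double counting
  have hsum1 : ∑ i ∈ Finset.range K, ∑ m ∈ Finset.range K, b i ((m : ℤ) - i)
      ≤ ∑ i ∈ Finset.range K, ∑ k ∈ Finset.Ico (-(K : ℤ)) K, b i k := by
    refine Finset.sum_le_sum fun i hi => ?_
    have hinj : Set.InjOn (fun m : ℕ => (m : ℤ) - i) (Finset.range K : Set ℕ) := by
      intro m _ m' _ h
      simpa using h
    rw [← Finset.sum_image (f := fun k => b i k) (g := fun m : ℕ => (m : ℤ) - i) hinj]
    refine Finset.sum_le_sum_of_subset_of_nonneg ?_ fun k _ _ => hb0 i k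
    intro k hk
    rw [Finset.mem_image] at hk
    obtain ⟨m, hm, rfl⟩ := hk
    rw [Finset.mem_range] at hm hi
    rw [Finset.mem_Ico]
    constructor <;> omega
  have hsum2 : ∑ i ∈ Finset.range K, ∑ k ∈ Finset.Ico (-(K : ℤ)) K, b i k ≤ 2 * K := by
    rw [Finset.sum_comm]
    calc ∑ k ∈ Finset.Ico (-(K : ℤ)) K, ∑ i ∈ Finset.range K, b i k
        ≤ ∑ k ∈ Finset.Ico (-(K : ℤ)) K, (1 : ℝ) := Finset.sum_le_sum fun k _ => hbsum k
      _ = 2 * K := by
        rw [Finset.sum_const, Int.card_Ico]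
        have : ((K : ℤ) - -(K : ℤ)).toNat = 2 * K := by omega
        rw [this]
        push_cast
        simp
  have hsum3 : (K : ℝ) * (K * (c / 2)) ≤ ∑ i ∈ Finset.range K, ∑ m ∈ Finset.range K, b i ((m : ℤ) - i) := by
    calc (K : ℝ) * (K * (c / 2)) = ∑ i ∈ Finset.range K, ∑ m ∈ Finset.range K, (c / 2) := by
          simp
      _ ≤ _ := Finset.sum_le_sum fun i hi => Finset.sum_le_sum fun m _ =>
          hlow i (Finset.mem_range.1 hi) m
  have hKpos : (0 : ℝ) < K := by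
    have : 0 < (K : ℝ) * c := by linarith
    exact (pos_iff_pos_of_mul_pos this).2 hc
  have hfinal : (K : ℝ) * (K * (c / 2)) ≤ 2 * K := hsum3.trans (hsum1.trans hsum2)
  have : (K : ℝ) * c ≤ 4 := by
    have h7 : (K : ℝ) * (K * c) ≤ K * 4 := by linarith
    exact le_of_mul_le_mul_left h7 hKpos
  linarith

end Pool.Agent.Work.MP_67388f_an
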