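import Pool.Agent.Work.MP_67388f_an.DefsTorus
import Pool.Agent.Work.MP_67388f_an.Maximal
import Pool.Agent.Work.MP_67388f_an.Furst2

set_option autoImplicit false

namespace Pool.Agent.Work.MP_67388f_an

open Filter Topology Set MeasureTheory
open scoped ENNReal Nat

section algebra

variable {d : ℕ}

lemma torusMap_mul (M N : Matrix (Fin d) (Fin d) ℤ) (x : Fin d → UnitAddCircle) :
    torusMap (M * N) x = torusMap M (torusMap N x) := by
  ext i
  simp only [torusMap, Matrix.mul_apply, Finset.sum_smul, Finset.smul_sum, mul_smul]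
  rw [Finset.sum_comm]

lemma torusMap_one (x : Fin d → UnitAddCircle) : torusMap 1 x = x := by
  classical
  ext i
  simp only [torusMap, Matrix.one_apply, ite_smul, one_smul, zero_smul]
  rw [Finset.sum_ite_eq Finset.univ i]
  simp

lemma torusMap_pow (M : Matrix (Fin d) (Fin d) ℤ) (n : ℕ) (x : Fin d → UnitAddCircle) :
    torusMap (M ^ n) x = (torusMap M)^[n] x := by
  induction n with
  | zero => simp [torusMap_one]
  | succ n ih => rw [pow_succ', torusMap_mul, ih, Function.iterate_succ_apply']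

lemma torusMap_sub (M N : Matrix (Fin d) (Fin d) ℤ) (x : Fin d → UnitAddCircle) :
    torusMap (M - N) x = torusMap M x - torusMap N x := by
  ext i
  simp only [torusMap, Matrix.sub_apply, sub_smul, Finset.sum_sub_distrib, Pi.sub_apply]

lemma torusMap_smul_one (c : ℤ) (x : Fin d → UnitAddCircle) :
    torusMap (c • (1 : Matrix (Fin d) (Fin d) ℤ)) x = c • x := by
  classical
  ext i
  simp only [torusMap, Matrix.smul_apply, Matrix.one_apply, smul_eq_mul, mul_ite, mul_one, mul_zero,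
    ite_smul, zero_smul]
  rw [Finset.sum_ite_eq Finset.univ i]
  simp

lemma monomialAt_succ {k : ℕ} (M : Fin (k + 1) → Matrix (Fin d) (Fin d) ℤ) (n : Fin (k + 1) → ℕ) :
    monomialAt M n = M 0 ^ n 0 * monomialAt (Fin.tail M) (Fin.tail n) := by
  unfold monomialAt
  rw [List.ofFn_succ, List.prod_cons]
  rfl

lemma iterMap_torus (k : ℕ) : ∀ (M : Fin k → Matrix (Fin d) (Fin d) ℤ) (n : Fin k → ℕ)
    (x : Fin d → UnitAddCircle),
    iterMap k (fun i => torusMap (M i)) n x = torusMap (monomialAt M n) x := by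
  induction k with
  | zero =>
    intro M n x
    simp [iterMap, monomialAt, torusMap_one]
  | succ k ih =>
    intro M n x
    show (torusMap (M 0))^[n 0] (iterMap k (Fin.tail fun i => torusMap (M i)) (Fin.tail n) x) = _
    rw [monomialAt_succ, torusMap_mul, torusMap_pow, ← ih (Fin.tail M) (Fin.tail n) x]
    rfl

/-- row sum bound -/
def RB (A : Matrix (Fin d) (Fin d) ℤ) (L : ℤ) : Prop := ∀ i, ∑ j, |A i j| ≤ L

lemma RB.mul {A B : Matrix (Fin d) (Fin d) ℤ} {L L' : ℤ} (hL' : 0 ≤ L') (hA : RB A L)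
    (hB : RB B L') : RB (A * B) (L * L') := by
  intro i
  calc ∑ j, |(A * B) i j| ≤ ∑ j, ∑ l, |A i l| * |B l j| := by
        refine Finset.sum_le_sum fun j _ => ?_
        rw [Matrix.mul_apply]
        refine (Finset.abs_sum_le_sum_abs _ _).trans ?_
        simp_rw [abs_mul]
        exact le_rfl
    _ = ∑ l, |A i l| * ∑ j, |B l j| := by
        rw [Finset.sum_comm]
        simp_rw [Finset.mul_sum]
    _ ≤ ∑ l, |A i l| * L' := Finset.sum_le_sum fun l _ =>
        mul_le_mul_of_nonneg_left (hB l) (abs_nonneg _)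
    _ = (∑ l, |A i l|) * L' := by rw [Finset.sum_mul]
    _ ≤ L * L' := mul_le_mul_of_nonneg_right (hA i) hL'

lemma RB_one : RB (1 : Matrix (Fin d) (Fin d) ℤ) 1 := by
  classical
  intro i
  simp only [Matrix.one_apply]
  have : ∀ j, |(if i = j then (1 : ℤ) else 0)| = if i = j then 1 else 0 := by
    intro j; split_ifs <;> simp
  simp_rw [this]
  rw [Finset.sum_ite_eq Finset.univ i]
  simp

lemma RB.pow {A : Matrix (Fin d) (Fin d) ℤ} {L : ℤ} (hL : 0 ≤ L) (hA : RB A L) (n : ℕ) :
    RB (A ^ n) (L ^ n) := by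
  induction n with
  | zero => simpa using RB_one
  | succ n ih => rw [pow_succ, pow_succ]; exact ih.mul hL hA

lemma RB_monomial (L : ℤ) (hL : 1 ≤ L) (N : ℕ) (k : ℕ) :
    ∀ (M : Fin k → Matrix (Fin d) (Fin d) ℤ) (_ : ∀ i, RB (M i) L) (n : Fin k → ℕ)
    (_ : ∀ i, n i ≤ N), RB (monomialAt M n) (L ^ (k * N)) := by
  induction k with
  | zero =>
    intro M _ n _
    simpa [monomialAt] using RB_one
  | succ k ih =>
    intro M hM n hn
    rw [monomialAt_succ]
    have h1 : RB (M 0 ^ n 0) (L ^ N) := by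
      intro i
      exact ((hM 0).pow (by linarith) (n 0) i).trans (pow_le_pow_right₀ hL (hn 0))
    have h2 := ih (Fin.tail M) (fun i => hM i.succ) (Fin.tail n) (fun i => hn i.succ)
    have h3 := h1.mul (by positivity) h2
    have e : L ^ N * L ^ (k * N) = L ^ ((k + 1) * N) := by
      rw [← pow_add]; ring_nf
    rwa [e] at h3

lemma RB.entry {A : Matrix (Fin d) (Fin d) ℤ} {L : ℤ} (hA : RB A L) (i j : Fin d) :
    |A i j| ≤ L :=
  (Finset.single_le_sum (f := fun j => |A i j|) (fun _ _ => abs_nonneg _)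
    (Finset.mem_univ j)).trans (hA i)

lemma abs_det_le {A : Matrix (Fin d) (Fin d) ℤ} {B : ℤ} (hA : ∀ i j, |A i j| ≤ B) :
    |A.det| ≤ d ! * B ^ d := by
  have := Matrix.det_le (A := A) (abv := AbsoluteValue.abs) (x := B) hA
  simpa using this

lemma abs_adj_le {A : Matrix (Fin d) (Fin d) ℤ} {B : ℤ} (hB : 1 ≤ B) (hA : ∀ i j, |A i j| ≤ B)
    (i j : Fin d) : |A.adjugate i j| ≤ d ! * B ^ d := by
  rw [Matrix.adjugate_apply]
  apply abs_det_le
  intro a b
  rw [Matrix.updateRow_apply]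
  split_ifs
  · rw [Pi.single_apply]
    split_ifs
    · simpa using hB
    · simp; linarith
  · exact hA a b

/-- Norm of an integer combination. -/
lemma norm_zsmul_le' (c : ℤ) (y : UnitAddCircle) : ‖c • y‖ ≤ |(c : ℝ)| * ‖y‖ := by
  have := norm_zsmul_le c y
  rwa [Int.norm_eq_abs] at this

lemma det_smul_small {A : Matrix (Fin d) (Fin d) ℤ} {B : ℤ} (hB : 1 ≤ B)
    (hA : ∀ i j, |A i j| ≤ B) {x : Fin d → UnitAddCircle} {r : ℝ}
    (hx : ∀ i, ‖torusMap A x i‖ ≤ r) (i : Fin d) :
    ‖A.det.natAbs • x i‖ ≤ d * ((d ! * B ^ d : ℤ) : ℝ) * r := by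
  have h1 : torusMap (A.adjugate * A) x = A.det • x := by
    rw [Matrix.adjugate_mul, torusMap_smul_one]
  have h2 : A.det • x i = ∑ j, A.adjugate i j • torusMap A x j := by
    have := congrFun h1 i
    rw [torusMap_mul] at this
    rw [← Pi.smul_apply, ← this]
    rfl
  have hK0 : (0 : ℝ) ≤ ((d ! * B ^ d : ℤ) : ℝ) := by
    have : (0 : ℤ) ≤ d ! * B ^ d := by positivity
    exact_mod_cast this
  have h3 : ‖A.det • x i‖ ≤ d * ((d ! * B ^ d : ℤ) : ℝ) * r := by
    rw [h2]
    calc ‖∑ j, A.adjugate i j • torusMap A x j‖ ≤ ∑ j, ‖A.adjugate i j • torusMap A x j‖ :=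
          norm_sum_le _ _
      _ ≤ ∑ _j : Fin d, ((d ! * B ^ d : ℤ) : ℝ) * r := by
          refine Finset.sum_le_sum fun j _ => ?_
          refine (norm_zsmul_le' _ _).trans ?_
          refine mul_le_mul ?_ (hx j) (norm_nonneg _) hK0
          have := abs_adj_le hB hA i j
          exact_mod_cast this
      _ = d * ((d ! * B ^ d : ℤ) : ℝ) * r := by
          rw [Finset.sum_const, Finset.card_univ, Fintype.card_fin, nsmul_eq_mul]; ring
  have h4 : ‖A.det.natAbs • x i‖ = ‖A.det • x i‖ := by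
    rcases Int.natAbs_eq A.det with h | h
    · conv_rhs => rw [h]
      rw [natCast_zsmul]
    · conv_rhs => rw [h]
      rw [neg_smul, norm_neg, natCast_zsmul]
  rw [h4]; exact h3

end algebra

/-- A point of the circle admitting very good small rational relations at all scales is torsion. -/
lemma torsion_of_relations (y : UnitAddCircle) (q : ℕ → ℕ) (δ : ℕ → ℝ) (t₀ : ℕ)
    (hq : ∀ t, t₀ ≤ t → 0 < q t) (hy : ∀ t, t₀ ≤ t → ‖q t • y‖ ≤ δ t)
    (hδ : Tendsto δ atTop (𝓝 0))
    (hs : ∀ t, t₀ ≤ t → (q (t + 1) : ℝ) * δ t + q t * δ (t + 1) < 1) :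
    ∀ t, t₀ ≤ t → q t • y = 0 := by
  choose e he1 he2 using fun t => exists_rep_small (q t • y)
  have hstep : ∀ t, t₀ ≤ t → (q (t + 1) : ℝ) * e t = q t * e (t + 1) := by
    intro t ht
    have h1 : (((q (t + 1) : ℝ) * e t - q t * e (t + 1) : ℝ) : UnitAddCircle) = 0 := by
      rw [AddCircle.coe_sub, ← nat_smul_coe, ← nat_smul_coe, he1, he1, smul_smul, smul_smul,
        mul_comm, sub_self]
    obtain ⟨n, hn⟩ := (AddCircle.coe_eq_zero_iff (p := (1 : ℝ))).1 h1
    have h2 : |(q (t + 1) : ℝ) * e t - q t * e (t + 1)| < 1 := by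
      calc |(q (t + 1) : ℝ) * e t - q t * e (t + 1)|
          ≤ |(q (t + 1) : ℝ) * e t| + |q t * e (t + 1)| := abs_sub _ _
        _ = q (t + 1) * ‖q t • y‖ + q t * ‖q (t + 1) • y‖ := by
            rw [abs_mul, abs_mul, he2, he2, Nat.abs_cast, Nat.abs_cast]
        _ ≤ q (t + 1) * δ t + q t * δ (t + 1) := by
            gcongr
            · exact hy t ht
            · exact hy (t + 1) (by omega)
        _ < 1 := hs t ht
    rw [← hn] at h2
    have h3 : n = 0 := by
      rw [zsmul_eq_mul, mul_one] at h2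
      have : |(n : ℝ)| < 1 := h2
      have h4 : |n| < 1 := by exact_mod_cast this
      exact Int.abs_lt_one_iff.1 h4
    rw [h3, zero_smul] at hn
    linarith
  -- the quotient is constant
  have hconst : ∀ t, t₀ ≤ t → e t / q t = e t₀ / q t₀ := by
    intro t ht
    induction t, ht using Nat.le_induction with
    | base => rfl
    | succ t ht ih =>
      have h1 := hstep t ht
      have h2 : (q t : ℝ) ≠ 0 := by exact_mod_cast (hq t ht).ne'
      have h3 : (q (t + 1) : ℝ) ≠ 0 := by exact_mod_cast (hq (t + 1) (by omega)).ne'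
      rw [← ih, div_eq_div_iff h3 h2]
      linarith
  have hzero : e t₀ / q t₀ = 0 := by
    have h1 : ∀ t, t₀ ≤ t → |e t₀ / q t₀| ≤ δ t := by
      intro t ht
      rw [← hconst t ht, abs_div, he2, Nat.abs_cast]
      have h2 : (1 : ℝ) ≤ q t := by exact_mod_cast hq t ht
      calc ‖q t • y‖ / q t ≤ ‖q t • y‖ := div_le_self (norm_nonneg _) h2
        _ ≤ δ t := hy t ht
    have h2 : |e t₀ / q t₀| ≤ 0 := ge_of_tendsto hδ (eventually_atTop.2 ⟨t₀, h1⟩)
    exact abs_nonpos_iff.1 h2
  intro t ht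
  have h1 := hconst t ht
  rw [hzero] at h1
  have h2 : (q t : ℝ) ≠ 0 := by exact_mod_cast (hq t ht).ne'
  have h3 : e t = 0 := by
    rcases div_eq_zero_iff.1 h1 with h | h
    · exact h
    · exact absurd h h2
  rw [← he1, h3]
  rfl

end Pool.Agent.Work.MP_67388f_an
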