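import Pool.Agent.Work.MP_67388f_an.Overlap

set_option autoImplicit false

namespace Pool.Agent.Work.MP_67388f_an.TranslateSingularOld

open Pool.Agent.Work.MP_67388f_an MeasureTheory Set
open scoped ENNReal

/-- Let `a, b ≥ 2` be multiplicatively independent, and let `μ, ν` be finite Borel measures on the
circle invariant under multiplication by `a` and by `b`, one of them singular to Lebesgue measure.
Then for each `c > 0` only finitely many translates of `μ` share mass `c` with `ν`, and `ν` is
singular to the translate of `μ` by any point of infinite order. -/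
theorem result (a b : ℕ) (ha : 2 ≤ a) (hb : 2 ≤ b) (h : MulIndep a b)
    (μ ν : Measure UnitAddCircle) [IsFiniteMeasure μ] [IsFiniteMeasure ν]
    (hμa : MeasurePreserving (fun x : UnitAddCircle => a • x) μ μ)
    (hμb : MeasurePreserving (fun x : UnitAddCircle => b • x) μ μ)
    (hνa : MeasurePreserving (fun x : UnitAddCircle => a • x) ν ν)
    (hνb : MeasurePreserving (fun x : UnitAddCircle => b • x) ν ν)
    (hsing : μ ⟂ₘ (volume : Measure UnitAddCircle) ∨ ν ⟂ₘ (volume : Measure UnitAddCircle)) :
    (∀ c : ℝ≥0∞, 0 < c → (shareSet μ ν c).Finite) ∧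
    ∀ t : UnitAddCircle, ¬ IsOfFinAddOrder t → ν ⟂ₘ μ.map (fun x => x + t) :=
  overlap_main a b ha hb h μ ν hμa hμb hνa hνb hsing

end Pool.Agent.Work.MP_67388f_an.TranslateSingularOld
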