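import Pool.Agent.Work.MP_67388f_an.Uni

set_option autoImplicit false

namespace Pool.Agent.Work.MP_67388f_an

open Filter Topology Set MeasureTheory
open scoped ENNReal

variable {X : Type*} [TopologicalSpace X] [LocallyCompactSpace X] [T2Space X]
  [SecondCountableTopology X] [MeasurableSpace X] [BorelSpace X]
variable {G : Type*} [Group G] [TopologicalSpace G] [IsTopologicalGroup G] [MulAction G X]
  [ContinuousSMul G X]

/-- Pigeonhole: if for every `k` the translates `v k i μ` all share mass at least `c` with a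
measure `m k` of bounded total mass, then the limits `u i μ` cannot be pairwise singular. -/
theorem pigeon (μ : Measure X) [IsProbabilityMeasure μ] (v : ℕ → ℕ → G) (u : ℕ → G)
    (hv : ∀ i, Tendsto (fun k => v k i) atTop (𝓝 (u i)))
    (m : ℕ → Measure X) [∀ k, IsFiniteMeasure (m k)] (V c : ℝ) (hc : 0 < c)
    (hV : ∀ k, (m k).real univ ≤ V)
    (hov : ∀ k i, ∀ f : C(X, ℝ), (∀ z, 0 ≤ f z) → (∀ z, f z ≤ 1) →
      c ≤ ∫ z, (1 - f (v k i • z)) ∂μ + ∫ z, f z ∂(m k)) :
    ∃ i j : ℕ, i < j ∧ ¬ (μ.map (fun z => u i • z)) ⟂ₘ (μ.map (fun z => u j • z)) := by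
  by_contra hcon
  push Not at hcon
  obtain ⟨K, hK⟩ := exists_nat_gt (2 * V / c)
  have hKc : 2 * V < K * c := by rwa [div_lt_iff₀ hc] at hK
  have hprob : ∀ i : ℕ, IsProbabilityMeasure (μ.map (fun z => u i • z)) := fun i =>
    Measure.isProbabilityMeasure_map (smul_measurable (u i)).aemeasurable
  obtain ⟨g, hg0, hgsum, hgc, hgint⟩ := exists_separating K
    (fun i : ℕ => μ.map (fun z => u i • z)) hcon (c / 4) (by linarith)
  have hg1 : ∀ i < K, ∀ z, g i z ≤ 1 := by
    intro i hi z
    refine le_trans ?_ (hgsum z)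
    exact Finset.single_le_sum (f := fun i => g i z) (fun j _ => hg0 j z) (Finset.mem_range.2 hi)
  -- uniform closeness
  have hunif : ∀ᶠ k : ℕ in atTop, ∀ i ∈ Finset.range K, ∀ z : X,
      |g i (v k i • z) - g i (u i • z)| < c / 4 := by
    rw [eventually_all_finset]
    intro i _
    have h1 : Tendsto (fun k => v k i * (u i)⁻¹) atTop (𝓝 1) := by
      have := (hv i).mul_const (u i)⁻¹
      rwa [mul_inv_cancel] at this
    filter_upwards [h1.eventually (unif_action (g i) (hgc i) (c / 4) (by linarith))] with k hk z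
    have := hk (u i • z)
    rwa [smul_smul, inv_mul_cancel_right] at this
  obtain ⟨k, hk⟩ := hunif.exists
  have hlow : ∀ i < K, c / 2 ≤ ∫ z, g i z ∂(m k) := by
    intro i hi
    have h1 := hov k i (g i) (hg0 i) (hg1 i hi)
    have h2 : ∫ z, (1 - g i (u i • z)) ∂μ ≤ c / 4 := by
      have := hgint i hi
      rw [integral_map (smul_measurable (u i)).aemeasurable] at this
      · exact this
      · exact (continuous_const.sub (g i).continuous).measurable.aestronglyMeasurable
    have hint1 : Integrable (fun z => (1 - g i (v k i • z))) μ := by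
      refine integrable_01 μ ⟨fun z => 1 - g i (v k i • z), ?_⟩ ?_ ?_
      · exact continuous_const.sub ((g i).continuous.comp (continuous_const_smul _))
      · intro z
        show 0 ≤ 1 - g i (v k i • z)
        linarith [hg1 i hi (v k i • z)]
      · intro z
        show 1 - g i (v k i • z) ≤ 1
        linarith [hg0 i (v k i • z)]
    have hint2 : Integrable (fun z => (1 - g i (u i • z))) μ := by
      refine integrable_01 μ ⟨fun z => 1 - g i (u i • z), ?_⟩ ?_ ?_
      · exact continuous_const.sub ((g i).continuous.comp (continuous_const_smul _))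
      · intro z
        show 0 ≤ 1 - g i (u i • z)
        linarith [hg1 i hi (u i • z)]
      · intro z
        show 1 - g i (u i • z) ≤ 1
        linarith [hg0 i (u i • z)]
    have h3 : ∫ z, (1 - g i (v k i • z)) ∂μ ≤ ∫ z, (1 - g i (u i • z)) ∂μ + c / 4 := by
      calc ∫ z, (1 - g i (v k i • z)) ∂μ ≤ ∫ z, ((1 - g i (u i • z)) + c / 4) ∂μ := by
            refine integral_mono hint1 (hint2.add (integrable_const _)) fun z => ?_
            have := (abs_lt.1 (hk i (Finset.mem_range.2 hi) z)).1
            show 1 - g i (v k i • z) ≤ (1 - g i (u i • z)) + c / 4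
            linarith
        _ = ∫ z, (1 - g i (u i • z)) ∂μ + c / 4 := by
            rw [integral_add hint2 (integrable_const _)]
            simp
    linarith
  have hsum : ∑ i ∈ Finset.range K, ∫ z, g i z ∂(m k) ≤ V := by
    rw [← integral_finsetSum _ (fun i hi => integrable_01 (m k) (g i) (hg0 i)
      (hg1 i (Finset.mem_range.1 hi)))]
    calc ∫ z, ∑ i ∈ Finset.range K, g i z ∂(m k) ≤ ∫ _z, (1 : ℝ) ∂(m k) := by
          refine integral_mono (integrable_finsetSum _ fun i hi => integrable_01 (m k) (g i) (hg0 i)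
            (hg1 i (Finset.mem_range.1 hi))) (integrable_const 1) fun z => hgsum z
      _ = (m k).real univ := by simp
      _ ≤ V := hV k
  have hsum2 : (K : ℝ) * (c / 2) ≤ ∑ i ∈ Finset.range K, ∫ z, g i z ∂(m k) := by
    calc (K : ℝ) * (c / 2) = ∑ i ∈ Finset.range K, (c / 2) := by simp
      _ ≤ _ := Finset.sum_le_sum fun i hi => hlow i (Finset.mem_range.1 hi)
  linarith

/-- Abstract form of the main step. `μ` is invariant under the elements `δ k`, `ν` under the
one-parameter group `d`; the translate `g μ` is not singular to `ν`; and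
`δ k g⁻¹ d(i t_k) g (δ k)⁻¹` converges to `u i` for every `i`. Then two of the measures `u i μ`
are not mutually singular. -/
theorem rescale (μ ν : Measure X) [IsProbabilityMeasure μ] [IsFiniteMeasure ν]
    (d : ℕ → ℕ → G) (hd : ∀ k i, ν.map (fun z => d k i • z) = ν)
    (δ : ℕ → G) (hδ : ∀ k, μ.map (fun z => δ k • z) = μ) (g : G)
    (hns : ¬ (μ.map (fun z => g • z)) ⟂ₘ ν) (u : ℕ → G)
    (hlim : ∀ i : ℕ, Tendsto (fun k => δ k * (g⁻¹ * d k i * g) * (δ k)⁻¹) atTop (𝓝 (u i))) :
    ∃ i j : ℕ, i < j ∧ ¬ (μ.map (fun z => u i • z)) ⟂ₘ (μ.map (fun z => u j • z)) := by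
  have hprobg : IsProbabilityMeasure (μ.map (fun z => g • z)) :=
    Measure.isProbabilityMeasure_map (smul_measurable g).aemeasurable
  obtain ⟨c, hc, hover⟩ := exists_overlap ν (μ.map (fun z => g • z)) (fun h => hns h.symm)
  have hfin : ∀ k, IsFiniteMeasure (ν.map (fun z => (δ k * g⁻¹) • z)) := fun k =>
    Measure.isFiniteMeasure_map _ _
  refine pigeon μ (fun k i => δ k * (g⁻¹ * d k i * g) * (δ k)⁻¹) u hlim
    (fun k => ν.map (fun z => (δ k * g⁻¹) • z)) (ν.real univ) c hc ?_ ?_
  · intro k
    rw [measureReal_def, Measure.map_apply (smul_measurable _) MeasurableSet.univ, preimage_univ,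
      measureReal_def]
  · intro k i f hf0 hf1
    -- test function for the overlap
    let F : C(X, ℝ) := ⟨fun z => 1 - f ((δ k * g⁻¹ * d k i) • z),
      continuous_const.sub (f.continuous.comp (continuous_const_smul _))⟩
    have hF : ∀ z, F z = 1 - f ((δ k * g⁻¹ * d k i) • z) := fun z => rfl
    have h1 := hover F (fun z => by rw [hF]; linarith [hf1 ((δ k * g⁻¹ * d k i) • z)])
      (fun z => by rw [hF]; linarith [hf0 ((δ k * g⁻¹ * d k i) • z)])
    have h2 : ∫ z, F z ∂(μ.map (fun z => g • z))
        = ∫ z, (1 - f ((δ k * (g⁻¹ * d k i * g) * (δ k)⁻¹) • z)) ∂μ := by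
      rw [integral_map (smul_measurable g).aemeasurable
        F.continuous.measurable.aestronglyMeasurable]
      have e : ∀ z, F (g • z) = (fun w => 1 - f ((δ k * (g⁻¹ * d k i * g) * (δ k)⁻¹) • w))
          (δ k • z) := by
        intro z
        show 1 - f ((δ k * g⁻¹ * d k i) • g • z)
          = 1 - f ((δ k * (g⁻¹ * d k i * g) * (δ k)⁻¹) • δ k • z)
        rw [smul_smul, smul_smul]
        congr 3
        group
      simp_rw [e]
      exact integral_inv (hδ k) (⟨fun w => 1 - f ((δ k * (g⁻¹ * d k i * g) * (δ k)⁻¹) • w),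
        continuous_const.sub (f.continuous.comp (continuous_const_smul _))⟩ : C(X, ℝ))
    have h3 : ∫ z, (1 - F z) ∂ν = ∫ z, f z ∂(ν.map (fun z => (δ k * g⁻¹) • z)) := by
      rw [integral_map (smul_measurable _).aemeasurable
        f.continuous.measurable.aestronglyMeasurable]
      have e : ∀ z, 1 - F z = (fun w => f ((δ k * g⁻¹) • w)) (d k i • z) := by
        intro z
        show 1 - (1 - f ((δ k * g⁻¹ * d k i) • z)) = f ((δ k * g⁻¹) • d k i • z)
        rw [smul_smul, sub_sub_cancel]
      simp_rw [e]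
      exact integral_inv (hd k i) (⟨fun w => f ((δ k * g⁻¹) • w),
        f.continuous.comp (continuous_const_smul _)⟩ : C(X, ℝ))
    rw [h2, h3] at h1
    exact h1

/-- The stabilizer of a measure is closed. -/
theorem stab_closed (μ : Measure X) [IsProbabilityMeasure μ] (k : ℕ → G) (k' : G)
    (hk : Tendsto k atTop (𝓝 k')) (h : ∀ s, μ.map (fun z => k s • z) = μ) :
    μ.map (fun z => k' • z) = μ := by
  have hprob : IsProbabilityMeasure (μ.map (fun z => k' • z)) :=
    Measure.isProbabilityMeasure_map (smul_measurable k').aemeasurable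
  refine Measure.ext_of_integral_eq_on_compactlySupported (fun f => ?_)
  have hmap : ∫ z, f z ∂(μ.map (fun z => k' • z)) = ∫ z, f (k' • z) ∂μ :=
    integral_map (smul_measurable k').aemeasurable
      (f.continuous.measurable.aestronglyMeasurable : AEStronglyMeasurable (fun z => f z) _)
  rw [hmap]
  have h1 : Tendsto (fun s => k s * k'⁻¹) atTop (𝓝 1) := by
    have := hk.mul_const k'⁻¹
    rwa [mul_inv_cancel] at this
  have hb : ∀ r : G, Integrable (fun z => f (r • z)) μ := by
    intro r
    have hcs : HasCompactSupport (fun z : X => f (r • z)) :=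
      f.hasCompactSupport.comp_homeomorph (Homeomorph.smul r)
    exact (f.continuous.comp (continuous_const_smul r)).integrable_of_hasCompactSupport hcs
  have key : ∀ e : ℝ, 0 < e → |∫ z, f (k' • z) ∂μ - ∫ z, f z ∂μ| ≤ e := by
    intro e he
    obtain ⟨s, hs⟩ := (h1.eventually (unif_action f.toContinuousMap f.hasCompactSupport e he)).exists
    have h2 : ∫ z, f (k s • z) ∂μ = ∫ z, f z ∂μ := integral_inv (h s) f.toContinuousMap
    rw [← h2, ← integral_sub (hb k') (hb (k s))]
    calc |∫ z, (f (k' • z) - f (k s • z)) ∂μ| ≤ ∫ z, |f (k' • z) - f (k s • z)| ∂μ :=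
          abs_integral_le_integral_abs
      _ ≤ ∫ _z, e ∂μ := by
          refine integral_mono ((hb k').sub (hb (k s))).abs (integrable_const e) fun z => ?_
          have := hs (k' • z)
          rw [smul_smul, inv_mul_cancel_right] at this
          show |f (k' • z) - f (k s • z)| ≤ e
          rw [abs_sub_comm]
          exact this.le
      _ = e := by simp
  have h0 : |∫ z, f (k' • z) ∂μ - ∫ z, f z ∂μ| ≤ 0 :=
    le_of_forall_pos_le_add fun e he => by linarith [key e he]
  exact sub_eq_zero.1 (abs_nonpos_iff.1 h0)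

end Pool.Agent.Work.MP_67388f_an
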