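import Pool.Agent.Work.MP_67388f_an.ZeroT
import Pool.Agent.Work.MP_67388f_an.Cartan3

set_option autoImplicit false

namespace Pool.Agent.Work.MP_67388f_an

open Matrix Filter Topology Set MeasureTheory

variable {n : ℕ}

lemma smul_sum_zero {x : Fin n → ℝ} (hx : ∑ i, x i = 0) (t : ℝ) : ∑ i, (t • x) i = 0 := by
  simp only [Pi.smul_apply, smul_eq_mul]
  rw [← Finset.mul_sum, hx, mul_zero]

/-- The one-parameter group `exp (t x)` of positive diagonal matrices. -/
noncomputable def oneParam (x : Fin n → ℝ) (hx : ∑ i, x i = 0) (t : ℝ) :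
    SpecialLinearGroup (Fin n) ℝ := dg (t • x) (smul_sum_zero hx t)

lemma oneParam_coe (x : Fin n → ℝ) (hx : ∑ i, x i = 0) (t : ℝ) :
    (oneParam x hx t).1 = diagonal (fun i => Real.exp (t * x i)) := rfl

lemma oneParam_add (x : Fin n → ℝ) (hx : ∑ i, x i = 0) (t s : ℝ) :
    oneParam x hx (t + s) = oneParam x hx t * oneParam x hx s := by
  apply Subtype.ext
  show (oneParam x hx (t + s)).1 = (oneParam x hx t).1 * (oneParam x hx s).1
  rw [oneParam_coe, oneParam_coe, oneParam_coe, diagonal_mul_diagonal]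
  congr 1
  funext i
  rw [← Real.exp_add]
  congr 1
  ring

lemma oneParam_zero (x : Fin n → ℝ) (hx : ∑ i, x i = 0) : oneParam x hx 0 = 1 := by
  apply Subtype.ext
  show (oneParam x hx 0).1 = 1
  rw [oneParam_coe]
  simp

lemma oneParam_inv (x : Fin n → ℝ) (hx : ∑ i, x i = 0) (t : ℝ) :
    (oneParam x hx t)⁻¹ = oneParam x hx (-t) := by
  rw [inv_eq_iff_mul_eq_one, ← oneParam_add, add_neg_cancel, oneParam_zero]

lemma oneParam_pow (x : Fin n → ℝ) (hx : ∑ i, x i = 0) (t : ℝ) (m : ℕ) :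
    oneParam x hx t ^ m = oneParam x hx (m * t) := by
  induction m with
  | zero => simp [oneParam_zero]
  | succ m ih =>
    rw [pow_succ, ih, ← oneParam_add]
    congr 1
    push_cast
    ring

lemma oneParam_posDiag (x : Fin n → ℝ) (hx : ∑ i, x i = 0) (t : ℝ) :
    IsPosDiag (oneParam x hx t) := isPosDiag_dg _ _

/-- Entries of a conjugate by a diagonal one-parameter group. -/
lemma conj_entry (w : Fin n → ℝ) (hw : ∑ i, w i = 0) (r : ℝ) (M : SpecialLinearGroup (Fin n) ℝ)
    (p q : Fin n) :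
    (oneParam w hw r * M * (oneParam w hw r)⁻¹).1 p q = Real.exp (r * (w p - w q)) * M.1 p q := by
  rw [oneParam_inv]
  show ((oneParam w hw r).1 * M.1 * (oneParam w hw (-r)).1) p q = _
  rw [oneParam_coe, oneParam_coe, mul_diagonal, diagonal_mul]
  rw [mul_right_comm, ← Real.exp_add]
  congr 2
  ring

/-- The conjugate `g⁻¹ exp (t x) g`. -/
noncomputable def cj (g : SpecialLinearGroup (Fin n) ℝ) (x : Fin n → ℝ) (hx : ∑ i, x i = 0)
    (t : ℝ) : SpecialLinearGroup (Fin n) ℝ := g⁻¹ * oneParam x hx t * g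

/-- The Lie algebra element `g⁻¹ x g`. -/
noncomputable def adY (g : SpecialLinearGroup (Fin n) ℝ) (x : Fin n → ℝ) :
    Matrix (Fin n) (Fin n) ℝ := (g⁻¹ : SpecialLinearGroup (Fin n) ℝ).1 * diagonal x * g.1

lemma cj_zero (g : SpecialLinearGroup (Fin n) ℝ) (x : Fin n → ℝ) (hx : ∑ i, x i = 0) :
    cj g x hx 0 = 1 := by
  unfold cj
  rw [oneParam_zero, mul_one, inv_mul_cancel]

lemma cj_pow (g : SpecialLinearGroup (Fin n) ℝ) (x : Fin n → ℝ) (hx : ∑ i, x i = 0) (t : ℝ)
    (m : ℕ) : cj g x hx t ^ m = cj g x hx (m * t) := by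
  unfold cj
  rw [← oneParam_pow]
  have h := conj_pow (i := m) (a := g⁻¹) (b := oneParam x hx t)
  rw [inv_inv] at h
  exact h

lemma cj_entry (g : SpecialLinearGroup (Fin n) ℝ) (x : Fin n → ℝ) (hx : ∑ i, x i = 0) (t : ℝ)
    (p q : Fin n) : (cj g x hx t).1 p q
      = ∑ l, (g⁻¹ : SpecialLinearGroup (Fin n) ℝ).1 p l * Real.exp (t * x l) * g.1 l q := by
  show ((g⁻¹ : SpecialLinearGroup (Fin n) ℝ).1 * (oneParam x hx t).1 * g.1) p q = _
  rw [oneParam_coe, mul_apply]
  refine Finset.sum_congr rfl fun l _ => ?_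
  rw [mul_diagonal]

lemma adY_entry (g : SpecialLinearGroup (Fin n) ℝ) (x : Fin n → ℝ) (p q : Fin n) :
    adY g x p q = ∑ l, (g⁻¹ : SpecialLinearGroup (Fin n) ℝ).1 p l * x l * g.1 l q := by
  unfold adY
  rw [mul_apply]
  refine Finset.sum_congr rfl fun l _ => ?_
  rw [mul_diagonal]

lemma cj_deriv (g : SpecialLinearGroup (Fin n) ℝ) (x : Fin n → ℝ) (hx : ∑ i, x i = 0)
    (p q : Fin n) (c : ℝ) :
    HasDerivAt (fun t => (cj g x hx (c * t)).1 p q) (c * adY g x p q) 0 := by
  have h1 : (fun t => (cj g x hx (c * t)).1 p q) = fun t =>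
      ∑ l, (g⁻¹ : SpecialLinearGroup (Fin n) ℝ).1 p l * Real.exp (c * t * x l) * g.1 l q := by
    funext t
    rw [cj_entry]
  rw [h1, adY_entry, Finset.mul_sum]
  refine HasDerivAt.fun_sum fun l _ => ?_
  have h2 : HasDerivAt (fun t : ℝ => c * t * x l) (c * x l) 0 := by
    have := ((hasDerivAt_id (0 : ℝ)).const_mul c).mul_const (x l)
    simpa using this
  have h3 := ((h2.exp).const_mul ((g⁻¹ : SpecialLinearGroup (Fin n) ℝ).1 p l)).mul_const (g.1 l q)
  refine h3.congr_deriv ?_
  rw [mul_zero, zero_mul, Real.exp_zero]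
  ring

lemma trace_adY (g : SpecialLinearGroup (Fin n) ℝ) (x : Fin n → ℝ) (hx : ∑ i, x i = 0) :
    ∑ i, adY g x i i = 0 := by
  have h1 : (adY g x).trace = 0 := by
    unfold adY
    rw [Matrix.trace_mul_comm, ← mul_assoc]
    have h2 : g.1 * (g⁻¹ : SpecialLinearGroup (Fin n) ℝ).1 = 1 :=
      congrArg Subtype.val (mul_inv_cancel g)
    rw [h2, one_mul, trace_diagonal, hx]
  exact h1

/-- `j` minus `l` weight. -/
def wt (j l : Fin n) : Fin n → ℝ := fun k => (if k = j then 1 else 0) - (if k = l then 1 else 0)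

lemma wt_sum (j l : Fin n) : ∑ k, wt j l k = 0 := by
  unfold wt
  rw [Finset.sum_sub_distrib, Finset.sum_ite_eq' Finset.univ j, Finset.sum_ite_eq' Finset.univ l]
  simp

lemma wt_le {j l p q : Fin n} (hjl : j ≠ l) (h : ¬ (p = j ∧ q = l)) (_hpq : p ≠ q) :
    wt j l p - wt j l q ≤ 1 := by
  unfold wt
  by_cases h1 : p = j
  · by_cases h2 : q = l
    · exact absurd ⟨h1, h2⟩ h
    · rw [if_pos h1, if_neg h2]
      have h3 : ¬ p = l := fun h => hjl (h1.symm.trans h)
      rw [if_neg h3]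
      by_cases h4 : q = j
      · rw [if_pos h4]; norm_num
      · rw [if_neg h4]; norm_num
  · rw [if_neg h1]
    by_cases h3 : p = l
    · rw [if_pos h3]
      by_cases h4 : q = j
      · rw [if_pos h4]
        by_cases h5 : q = l
        · rw [if_pos h5]; norm_num
        · rw [if_neg h5]; norm_num
      · rw [if_neg h4]
        by_cases h5 : q = l
        · rw [if_pos h5]; norm_num
        · rw [if_neg h5]; norm_num
    · rw [if_neg h3]
      by_cases h4 : q = j
      · rw [if_pos h4]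
        by_cases h5 : q = l
        · rw [if_pos h5]; norm_num
        · rw [if_neg h5]; norm_num
      · rw [if_neg h4]
        by_cases h5 : q = l
        · rw [if_pos h5]; norm_num
        · rw [if_neg h5]; norm_num

/-- The rescaling limit: isolating one root. -/
theorem root_limit (g : SpecialLinearGroup (Fin n) ℝ) (x : Fin n → ℝ) (hx : ∑ i, x i = 0)
    {j l : Fin n} (hjl : j ≠ l) (c : ℝ) :
    Tendsto (fun k : ℕ => oneParam (wt j l) (wt_sum j l) k *
      cj g x hx (c * Real.exp (-(2 * (k : ℝ)))) * (oneParam (wt j l) (wt_sum j l) k)⁻¹) atTop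
      (𝓝 (SpecialLinearGroup.transvection hjl (c * adY g x j l))) := by
  classical
  have hs0 : Tendsto (fun k : ℕ => Real.exp (-(2 * (k : ℝ)))) atTop (𝓝 0) := by
    refine Real.tendsto_exp_atBot.comp ?_
    refine tendsto_neg_atTop_atBot.comp ?_
    exact tendsto_natCast_atTop_atTop.const_mul_atTop (by norm_num)
  have hs1 : Tendsto (fun k : ℕ => Real.exp (-(2 * (k : ℝ)))) atTop (𝓝[≠] 0) :=
    tendsto_nhdsWithin_iff.2 ⟨hs0, Eventually.of_forall fun k => (Real.exp_pos _).ne'⟩
  have hquot : ∀ p q, p ≠ q → Tendsto (fun k : ℕ => Real.exp (2 * (k : ℝ)) *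
      (cj g x hx (c * Real.exp (-(2 * (k : ℝ))))).1 p q) atTop (𝓝 (c * adY g x p q)) := by
    intro p q hpq
    have h1 := (cj_deriv g x hx p q c).tendsto_slope_zero
    have h2 := h1.comp hs1
    refine h2.congr fun k => ?_
    simp only [Function.comp_apply, zero_add, mul_zero, smul_eq_mul]
    rw [cj_zero]
    have h3 : (1 : SpecialLinearGroup (Fin n) ℝ).1 p q = 0 := Matrix.one_apply_ne hpq
    rw [h3, sub_zero, ← Real.exp_neg, neg_neg]
  refine tendsto_SL _ _ fun p q => ?_
  simp only [conj_entry]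
  have hT : (SpecialLinearGroup.transvection hjl (c * adY g x j l)).1 p q
      = (1 : Matrix (Fin n) (Fin n) ℝ) p q + (if j = p ∧ l = q then c * adY g x j l else 0) := by
    show ((1 : Matrix (Fin n) (Fin n) ℝ) + Matrix.single j l (c * adY g x j l)) p q = _
    rw [Matrix.add_apply, Matrix.single_apply]
  rw [hT]
  by_cases hpq : p = q
  · subst hpq
    have h1 : ¬ (j = p ∧ l = p) := fun h => hjl (h.1.trans h.2.symm)
    rw [if_neg h1, add_zero, Matrix.one_apply_eq]
    simp only [sub_self, mul_zero, Real.exp_zero, one_mul]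
    have h2 := ((cj_deriv g x hx p p c).continuousAt.tendsto).comp hs0
    simp only [Function.comp_def, mul_zero] at h2
    rw [cj_zero] at h2
    have h3 : (1 : SpecialLinearGroup (Fin n) ℝ).1 p p = 1 := Matrix.one_apply_eq p
    rwa [h3] at h2
  · rw [Matrix.one_apply_ne hpq, zero_add]
    by_cases h : j = p ∧ l = q
    · obtain ⟨rfl, rfl⟩ := h
      rw [if_pos ⟨rfl, rfl⟩]
      refine (hquot j l hjl).congr fun k => ?_
      congr 2
      unfold wt
      rw [if_pos rfl, if_neg hjl, if_neg (Ne.symm hjl), if_pos rfl]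
      ring
    · rw [if_neg h]
      have hw := wt_le (p := p) (q := q) hjl (fun h' => h ⟨h'.1.symm, h'.2.symm⟩) hpq
      have hsmall : Tendsto (fun k : ℕ => Real.exp (-(k : ℝ))) atTop (𝓝 0) :=
        Real.tendsto_exp_atBot.comp (tendsto_neg_atTop_atBot.comp tendsto_natCast_atTop_atTop)
      have h1 : Tendsto (fun k : ℕ => Real.exp (-(k : ℝ)) * |Real.exp (2 * (k : ℝ)) *
          (cj g x hx (c * Real.exp (-(2 * (k : ℝ))))).1 p q|) atTop (𝓝 0) := by
        have := hsmall.mul (hquot p q hpq).abs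
        rwa [zero_mul] at this
      refine squeeze_zero_norm (fun k => ?_) h1
      rw [Real.norm_eq_abs, abs_mul, abs_of_pos (Real.exp_pos _), abs_mul,
        abs_of_pos (Real.exp_pos _), ← mul_assoc, ← Real.exp_add]
      refine mul_le_mul_of_nonneg_right (Real.exp_le_exp.2 ?_) (abs_nonneg _)
      have hk : (0 : ℝ) ≤ k := Nat.cast_nonneg k
      nlinarith

end Pool.Agent.Work.MP_67388f_an
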