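import Pool.Agent.Work.MP_67388f_an.ZeroB

set_option autoImplicit false

namespace Pool.Agent.Work.MP_67388f_an

open Matrix Filter Topology Set

variable {n : ℕ}

section normed

attribute [local instance] Matrix.linftyOpNormedRing Matrix.linftyOpNormedAlgebra
attribute [local instance] Matrix.linftyOpNormedAddCommGroup Matrix.linftyOpNormedSpace

lemma deriv_diag (y : Fin n → ℝ) :
    HasDerivAt (fun t : ℝ => (diagonal (fun i => Real.exp (t * y i)) : Matrix (Fin n) (Fin n) ℝ))
      (diagonal y) 0 := by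
  classical
  have h1 : (fun t : ℝ => (diagonal (fun i => Real.exp (t * y i)) : Matrix (Fin n) (Fin n) ℝ))
      = fun t => ∑ i, Real.exp (t * y i) • (Matrix.single i i (1 : ℝ)) := by
    funext t
    ext p q
    rw [Matrix.sum_apply]
    by_cases hpq : p = q
    · subst hpq
      rw [diagonal_apply_eq, Finset.sum_eq_single p]
      · simp
      · intro b _ hb
        simp [hb]
      · intro h; exact absurd (Finset.mem_univ _) h
    · rw [diagonal_apply_ne _ hpq]
      symm
      refine Finset.sum_eq_zero fun i _ => ?_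
      rw [Matrix.smul_apply, Matrix.single_apply, if_neg (fun h => hpq (h.1.symm.trans h.2)),
        smul_zero]
  have h2 : (diagonal y : Matrix (Fin n) (Fin n) ℝ) = ∑ i, y i • (Matrix.single i i (1 : ℝ)) := by
    ext p q
    rw [Matrix.sum_apply]
    by_cases hpq : p = q
    · subst hpq
      rw [diagonal_apply_eq, Finset.sum_eq_single p]
      · simp
      · intro b _ hb
        simp [hb]
      · intro h; exact absurd (Finset.mem_univ _) h
    · rw [diagonal_apply_ne _ hpq]
      symm
      refine Finset.sum_eq_zero fun i _ => ?_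
      rw [Matrix.smul_apply, Matrix.single_apply, if_neg (fun h => hpq (h.1.symm.trans h.2)),
        smul_zero]
  rw [h1, h2]
  refine HasDerivAt.fun_sum fun i _ => ?_
  refine HasDerivAt.smul_const ?_ _
  have h3 : HasDerivAt (fun t : ℝ => t * y i) (y i) 0 := by
    simpa using (hasDerivAt_id (0 : ℝ)).mul_const (y i)
  have h4 := h3.exp
  refine h4.congr_deriv ?_
  rw [zero_mul, Real.exp_zero, one_mul]

lemma deriv_cj (g : SpecialLinearGroup (Fin n) ℝ) (x : Fin n → ℝ) (hx : ∑ i, x i = 0) :
    HasDerivAt (fun t : ℝ => (cj g x hx t).1) (adY g x) 0 := by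
  have h1 := ((deriv_diag x).const_mul ((g⁻¹ : SpecialLinearGroup (Fin n) ℝ).1)).mul_const g.1
  exact h1

/-- product of transvections along a list of off-diagonal positions -/
noncomputable def PL (Y : Matrix (Fin n) (Fin n) ℝ) (L : List {p : Fin n × Fin n // p.1 ≠ p.2})
    (s : ℝ) : SpecialLinearGroup (Fin n) ℝ :=
  (L.map (fun p => SpecialLinearGroup.transvection p.2 (s * Y p.1.1 p.1.2))).prod

lemma PL_zero (Y : Matrix (Fin n) (Fin n) ℝ) (L : List {p : Fin n × Fin n // p.1 ≠ p.2}) :
    PL Y L 0 = 1 := by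
  unfold PL
  apply List.prod_eq_one
  intro y hy
  rw [List.mem_map] at hy
  obtain ⟨p, _, rfl⟩ := hy
  rw [zero_mul]
  apply Subtype.ext
  show (1 : Matrix (Fin n) (Fin n) ℝ) + Matrix.single p.1.1 p.1.2 0 = 1
  simp

lemma deriv_PL (Y : Matrix (Fin n) (Fin n) ℝ) (L : List {p : Fin n × Fin n // p.1 ≠ p.2}) :
    HasDerivAt (fun s : ℝ => (PL Y L s).1)
      (L.map (fun p => Matrix.single p.1.1 p.1.2 (Y p.1.1 p.1.2))).sum 0 := by
  induction L with
  | nil =>
    have h : (fun s : ℝ => (PL Y [] s).1) = fun _ => 1 := by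
      funext s
      simp [PL]
    rw [h]
    rw [List.map_nil, List.sum_nil]
    exact hasDerivAt_const (0 : ℝ) (1 : Matrix (Fin n) (Fin n) ℝ)
  | cons p L ih =>
    have h : (fun s : ℝ => (PL Y (p :: L) s).1) = fun s =>
        ((1 : Matrix (Fin n) (Fin n) ℝ) + s • Matrix.single p.1.1 p.1.2 (Y p.1.1 p.1.2))
          * (PL Y L s).1 := by
      funext s
      unfold PL
      rw [List.map_cons, List.prod_cons]
      show (1 + Matrix.single p.1.1 p.1.2 (s * Y p.1.1 p.1.2)) * _ = _
      rw [Matrix.smul_single, smul_eq_mul]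
    rw [h, List.map_cons, List.sum_cons]
    have h1 : HasDerivAt (fun s : ℝ => ((1 : Matrix (Fin n) (Fin n) ℝ)
        + s • Matrix.single p.1.1 p.1.2 (Y p.1.1 p.1.2)))
        (Matrix.single p.1.1 p.1.2 (Y p.1.1 p.1.2)) 0 := by
      have h2 := ((hasDerivAt_id (0 : ℝ)).smul_const
        (Matrix.single p.1.1 p.1.2 (Y p.1.1 p.1.2))).const_add
        (1 : Matrix (Fin n) (Fin n) ℝ)
      rw [one_smul] at h2
      exact h2
    have h3 := h1.mul ih
    refine h3.congr_deriv ?_
    rw [PL_zero, zero_smul, add_zero]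
    show _ * (1 : Matrix (Fin n) (Fin n) ℝ) + 1 * _ = _
    rw [mul_one, one_mul]

/-- Lie algebra closure: a closed subgroup containing the positive diagonal group and the root
groups that occur in `g⁻¹ x g` contains `g⁻¹ exp (t x) g`. -/
theorem lie_closed (S : Subgroup (SpecialLinearGroup (Fin n) ℝ))
    (hS : ∀ (k : ℕ → SpecialLinearGroup (Fin n) ℝ) (k' : SpecialLinearGroup (Fin n) ℝ),
      (∀ s, k s ∈ S) → Tendsto k atTop (𝓝 k') → k' ∈ S)
    (hD : ∀ d, IsPosDiag d → d ∈ S) (g : SpecialLinearGroup (Fin n) ℝ) (x : Fin n → ℝ)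
    (hx : ∑ i, x i = 0)
    (hU : ∀ (j l : Fin n) (hjl : j ≠ l), adY g x j l ≠ 0 →
      ∀ s : ℝ, SpecialLinearGroup.transvection hjl s ∈ S) (t : ℝ) : cj g x hx t ∈ S := by
  classical
  rcases Nat.eq_zero_or_pos n with hn | hn
  · subst hn
    have : cj g x hx t = 1 := Subtype.ext (Matrix.ext fun i => i.elim0)
    rw [this]
    exact S.one_mem
  have : Nonempty (Fin n) := ⟨⟨0, hn⟩⟩
  set Y := adY g x with hY
  set y : Fin n → ℝ := fun i => Y i i with hy
  have hys : ∑ i, y i = 0 := trace_adY g x hx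
  set L : List {p : Fin n × Fin n // p.1 ≠ p.2} :=
    (Finset.univ : Finset {p : Fin n × Fin n // p.1 ≠ p.2}).toList with hL
  let P : ℝ → SpecialLinearGroup (Fin n) ℝ := fun s => oneParam y hys s * PL Y L s
  have hPS : ∀ s, P s ∈ S := by
    intro s
    refine S.mul_mem (hD _ (oneParam_posDiag _ _ _)) ?_
    unfold PL
    refine S.list_prod_mem fun z hz => ?_
    rw [List.mem_map] at hz
    obtain ⟨p, _, rfl⟩ := hz
    by_cases h0 : Y p.1.1 p.1.2 = 0
    · rw [h0, mul_zero]
      have : (SpecialLinearGroup.transvection p.2 (0 : ℝ)) = 1 := by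
        apply Subtype.ext
        show (1 : Matrix (Fin n) (Fin n) ℝ) + Matrix.single p.1.1 p.1.2 0 = 1
        simp
      rw [this]
      exact S.one_mem
    · exact hU _ _ p.2 h0 _
  have hPd : HasDerivAt (fun s : ℝ => (P s).1) Y 0 := by
    have h1 : (fun s : ℝ => (P s).1) = fun s =>
        (diagonal (fun i => Real.exp (s * y i)) : Matrix (Fin n) (Fin n) ℝ) * (PL Y L s).1 := rfl
    rw [h1]
    have h2 := (deriv_diag y).mul (deriv_PL Y L)
    refine h2.congr_deriv ?_
    rw [PL_zero]
    have h3 : (diagonal (fun i => Real.exp (0 * y i)) : Matrix (Fin n) (Fin n) ℝ) = 1 := by simp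
    rw [h3]
    show diagonal y * (1 : Matrix (Fin n) (Fin n) ℝ) + 1 * _ = Y
    rw [mul_one, one_mul, hL, Finset.sum_map_toList]
    ext p q
    rw [Matrix.add_apply, Matrix.sum_apply]
    by_cases hpq : p = q
    · subst hpq
      rw [diagonal_apply_eq]
      have : ∑ c : {p : Fin n × Fin n // p.1 ≠ p.2},
          Matrix.single c.1.1 c.1.2 (Y c.1.1 c.1.2) p p = 0 := by
        refine Finset.sum_eq_zero fun c _ => ?_
        rw [Matrix.single_apply, if_neg (fun h => c.2 (h.1.trans h.2.symm))]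
      rw [this, add_zero]
    · rw [diagonal_apply_ne _ hpq, zero_add, Finset.sum_eq_single ⟨(p, q), hpq⟩]
      · rw [Matrix.single_apply, if_pos ⟨rfl, rfl⟩]
      · intro c _ hc
        rw [Matrix.single_apply, if_neg]
        rintro ⟨h1, h2⟩
        exact hc (Subtype.ext (Prod.ext h1 h2))
      · intro h; exact absurd (Finset.mem_univ _) h
  have hP0 : (P 0).1 = 1 := by
    have : P 0 = 1 := by
      show oneParam y hys 0 * PL Y L 0 = 1
      rw [oneParam_zero, PL_zero, mul_one]
    rw [this]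
    rfl
  have hc0 : (cj g x hx 0).1 = 1 := by rw [cj_zero]; rfl
  have htrot := trotter (fun s => (P s).1) (fun s => (cj g x hx s).1) Y hP0 hc0 hPd
    (deriv_cj g x hx) t
  refine hS (fun m => P (t / (m + 1)) ^ (m + 1)) _ (fun m => S.pow_mem (hPS _) _) ?_
  have hcjm : ∀ m : ℕ, (cj g x hx (t / (m + 1))).1 ^ (m + 1) = (cj g x hx t).1 := by
    intro m
    have h1 := cj_pow g x hx (t / (m + 1)) (m + 1)
    have h2 : (((m + 1 : ℕ) : ℝ)) * (t / (m + 1)) = t := by
      push_cast
      field_simp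
    rw [h2] at h1
    rw [← h1]
    rfl
  have h5 : Tendsto (fun m : ℕ => (P (t / (m + 1))).1 ^ (m + 1)) atTop (𝓝 (cj g x hx t).1) := by
    have h6 := htrot.add_const (cj g x hx t).1
    rw [zero_add] at h6
    refine h6.congr fun m => ?_
    show (P (t / (m + 1))).1 ^ (m + 1) - (cj g x hx (t / (m + 1))).1 ^ (m + 1)
      + (cj g x hx t).1 = _
    rw [hcjm, sub_add_cancel]
  have hind : IsInducing (fun A : SpecialLinearGroup (Fin n) ℝ => (A : Matrix (Fin n) (Fin n) ℝ)) :=
    SpecialLinearGroup.isClosedEmbedding_val.isInducing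
  exact hind.tendsto_nhds_iff.2 h5

end normed

end Pool.Agent.Work.MP_67388f_an
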