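import Pool.Agent.Work.MP_67388f_an.ZeroA
import Pool.Agent.Work.MP_67388f_an.ZeroC

set_option autoImplicit false

namespace Pool.Agent.Work.MP_67388f_an

open Matrix Filter Topology Set MeasureTheory

lemma cj_tendsto {n : ℕ} (g : SpecialLinearGroup (Fin n) ℝ) (x : Fin n → ℝ)
    (hx : ∑ i, x i = 0) : Tendsto (fun s => cj g x hx s) (𝓝 0) (𝓝 1) := by
  refine tendsto_SL _ _ fun p q => ?_
  have h1 := (cj_deriv g x hx p q 1).continuousAt.tendsto
  simp only [one_mul] at h1
  rwa [cj_zero] at h1

section stab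

variable {X : Type*} [TopologicalSpace X] [MeasurableSpace X] [BorelSpace X]
variable {G : Type*} [Group G] [TopologicalSpace G] [MulAction G X] [ContinuousSMul G X]

/-- The stabilizer of a measure. -/
def stabM (μ : Measure X) : Subgroup G where
  carrier := {k | μ.map (fun z => k • z) = μ}
  one_mem' := by
    show μ.map (fun z => (1 : G) • z) = μ
    simp
  mul_mem' := by
    intro a b ha hb
    show μ.map (fun z => (a * b) • z) = μ
    rw [← map_map_smul, show μ.map (fun z => b • z) = μ from hb]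
    exact ha
  inv_mem' := by
    intro a ha
    show μ.map (fun z => a⁻¹ • z) = μ
    conv_lhs => rw [← (show μ.map (fun z => a • z) = μ from ha)]
    rw [map_map_smul]
    simp

lemma mem_stabM {μ : Measure X} {k : G} : k ∈ stabM μ ↔ μ.map (fun z => k • z) = μ := Iff.rfl

end stab

variable {ι : Type*} [Fintype ι] [DecidableEq ι] {n : ι → ℕ}
  {H : Type*} [Group H] [TopologicalSpace H] [IsTopologicalGroup H]
variable {X : Type*} [TopologicalSpace X] [LocallyCompactSpace X] [T2Space X]
  [SecondCountableTopology X] [MeasurableSpace X] [BorelSpace X]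
  [MulAction ((∀ b, SpecialLinearGroup (Fin (n b)) ℝ) × H) X]
  [ContinuousSMul ((∀ b, SpecialLinearGroup (Fin (n b)) ℝ) × H) X]

/-- Embedding of one factor. -/
def emb (n : ι → ℕ) (H : Type*) [Group H] (b : ι) :
    SpecialLinearGroup (Fin (n b)) ℝ →* (∀ b, SpecialLinearGroup (Fin (n b)) ℝ) × H where
  toFun M := (Pi.mulSingle b M, 1)
  map_one' := by rw [Pi.mulSingle_one]; rfl
  map_mul' M N := by
    rw [Pi.mulSingle_mul]
    apply Prod.ext
    · rfl
    · show (1 : H) = 1 * 1
      rw [mul_one]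

omit [IsTopologicalGroup H] in
lemma emb_cont (b : ι) : Continuous (emb n H b) := by
  refine Continuous.prodMk ?_ continuous_const
  exact continuous_mulSingle (A := fun b => SpecialLinearGroup (Fin (n b)) ℝ) b

theorem root_inv
    (A : Subgroup ((∀ b, SpecialLinearGroup (Fin (n b)) ℝ) × H))
    (hAdiag : ∀ a ∈ A, ∀ b i j, i ≠ j → a.1 b i j = 0)
    (hAD : ∀ d : (∀ b, SpecialLinearGroup (Fin (n b)) ℝ), (∀ b, IsPosDiag (d b)) →
      (d, (1 : H)) ∈ A)
    (μ ν : Measure X) [IsProbabilityMeasure μ] [IsFiniteMeasure ν]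
    (hμ : ∀ a ∈ A, μ.map (fun z => a • z) = μ)
    (herg : ∀ s : Set X, MeasurableSet s → (∀ a ∈ A, (fun z => a • z) ⁻¹' s =ᵐ[μ] s) →
      μ s = 0 ∨ μ sᶜ = 0)
    (x : ∀ b, Fin (n b) → ℝ) (hx : ∀ b, ∑ i, x b i = 0)
    (hν : ∀ t : ℝ, ν.map (fun z => ((fun b => oneParam (x b) (hx b) t), (1 : H)) • z) = ν)
    (g : (∀ b, SpecialLinearGroup (Fin (n b)) ℝ) × H)
    (hns : ¬ (μ.map (fun z => g • z)) ⟂ₘ ν)
    (b : ι) (j l : Fin (n b)) (hjl : j ≠ l) (hY : adY (g.1 b) (x b) j l ≠ 0) (s : ℝ) :
    μ.map (fun z => emb n H b (SpecialLinearGroup.transvection hjl s) • z) = μ := by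
  classical
  set y : ℝ := adY (g.1 b) (x b) j l with hy
  let U : ℝ → (∀ b, SpecialLinearGroup (Fin (n b)) ℝ) × H := fun s =>
    emb n H b (SpecialLinearGroup.transvection hjl s)
  have hadd : ∀ s t, U (s + t) = U s * U t := by
    intro s t
    show emb n H b _ = emb n H b _ * emb n H b _
    rw [← map_mul, SpecialLinearGroup.transvection_add hjl s t]
  have hU : Continuous U := by
    refine (emb_cont b).comp ?_
    rw [continuous_iff_continuousAt]
    intro s
    refine tendsto_SL _ _ fun p q => ?_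
    have : Continuous (fun s : ℝ =>
        ((1 : Matrix (Fin (n b)) (Fin (n b)) ℝ) + Matrix.single j l s) p q) := by
      simp only [Matrix.add_apply, Matrix.single_apply]
      by_cases h : j = p ∧ l = q
      · simp only [if_pos h]; fun_prop
      · simp only [if_neg h]; fun_prop
    exact this.tendsto s
  have hDA : ∀ r : ℝ, emb n H b (oneParam (wt j l) (wt_sum j l) r) ∈ A := by
    intro r
    refine hAD _ fun b' => ?_
    by_cases h : b' = b
    · subst h
      rw [Pi.mulSingle_eq_same]
      exact oneParam_posDiag _ _ _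
    · rw [Pi.mulSingle_eq_of_ne h]
      refine ⟨fun i k hik => Matrix.one_apply_ne hik, fun i => ?_⟩
      have : (1 : SpecialLinearGroup (Fin (n b')) ℝ) i i = 1 := Matrix.one_apply_eq i
      rw [this]
      exact one_pos
  -- the rescaling argument
  have hpair : ∃ i k : ℕ, i < k ∧ ¬ (μ.map (fun z => U (i * y) • z)) ⟂ₘ
      (μ.map (fun z => U (k * y) • z)) := by
    refine rescale μ ν
      (fun k i => ((fun b => oneParam (x b) (hx b) (i * Real.exp (-(2 * (k : ℝ))))), (1 : H)))
      (fun k i => hν _)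
      (fun k => emb n H b (oneParam (wt j l) (wt_sum j l) k))
      (fun k => hμ _ (hDA k)) g hns (fun i => U (i * y)) ?_
    intro i
    rw [nhds_prod_eq]
    refine Tendsto.prodMk ?_ ?_
    · refine tendsto_pi_nhds.2 fun b' => ?_
      by_cases h : b' = b
      · subst h
        have h1 := root_limit (g.1 b') (x b') (hx b') hjl (i : ℝ)
        have h2 : (U (i * y)).1 b' = SpecialLinearGroup.transvection hjl (i * y) := by
          show (Pi.mulSingle b' (SpecialLinearGroup.transvection hjl (i * y)) :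
            ∀ b, SpecialLinearGroup (Fin (n b)) ℝ) b' = _
          rw [Pi.mulSingle_eq_same]
        rw [h2]
        refine h1.congr fun k => ?_
        show _ = (Pi.mulSingle b' (oneParam (wt j l) (wt_sum j l) k) :
            ∀ b, SpecialLinearGroup (Fin (n b)) ℝ) b' * ((g.1 b')⁻¹ *
              oneParam (x b') (hx b') (i * Real.exp (-(2 * (k : ℝ)))) * g.1 b') *
            ((Pi.mulSingle b' (oneParam (wt j l) (wt_sum j l) k) :
            ∀ b, SpecialLinearGroup (Fin (n b)) ℝ) b')⁻¹
        rw [Pi.mulSingle_eq_same]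
        rfl
      · have h2 : (U (i * y)).1 b' = 1 := by
          show (Pi.mulSingle b (SpecialLinearGroup.transvection hjl (i * y)) :
            ∀ b, SpecialLinearGroup (Fin (n b)) ℝ) b' = _
          rw [Pi.mulSingle_eq_of_ne h]
        rw [h2]
        have hs0 : Tendsto (fun k : ℕ => (i : ℝ) * Real.exp (-(2 * (k : ℝ)))) atTop (𝓝 0) := by
          have : Tendsto (fun k : ℕ => Real.exp (-(2 * (k : ℝ)))) atTop (𝓝 0) := by
            refine Real.tendsto_exp_atBot.comp ?_
            refine tendsto_neg_atTop_atBot.comp ?_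
            exact tendsto_natCast_atTop_atTop.const_mul_atTop (by norm_num)
          simpa using this.const_mul (i : ℝ)
        refine ((cj_tendsto (g.1 b') (x b') (hx b')).comp hs0).congr fun k => ?_
        show _ = (Pi.mulSingle b (oneParam (wt j l) (wt_sum j l) k) :
            ∀ b, SpecialLinearGroup (Fin (n b)) ℝ) b' * ((g.1 b')⁻¹ *
              oneParam (x b') (hx b') (i * Real.exp (-(2 * (k : ℝ)))) * g.1 b') *
            ((Pi.mulSingle b (oneParam (wt j l) (wt_sum j l) k) :
            ∀ b, SpecialLinearGroup (Fin (n b)) ℝ) b')⁻¹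
        rw [Pi.mulSingle_eq_of_ne h, one_mul, inv_one, mul_one]
        rfl
    · have h2 : (U (i * y)).2 = 1 := rfl
      rw [h2]
      refine tendsto_const_nhds.congr fun k => ?_
      show (1 : H) = 1 * (g.2⁻¹ * 1 * g.2) * 1⁻¹
      simp
  obtain ⟨i, k, hik, hp⟩ := hpair
  have hx₀ : ((k : ℝ) * y - i * y) ≠ 0 := by
    rw [← sub_mul]
    refine mul_ne_zero (sub_ne_zero.2 ?_) hY
    exact_mod_cast hik.ne'
  have hnsU : ¬ (μ.map (fun z => U ((k : ℝ) * y - i * y) • z)) ⟂ₘ μ := by
    intro h
    have h1 := ms_map h (U (i * y))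
    rw [map_map_smul, ← hadd] at h1
    have h2 : (i : ℝ) * y + ((k : ℝ) * y - i * y) = k * y := by ring
    rw [h2] at h1
    exact hp h1.symm
  refine uni_main A μ μ hμ hμ herg U hU hadd ?_ ?_ _ hx₀ hnsU s
  · intro a ha
    have hne : ∀ i, a.1 b i i ≠ 0 := diag_ne_zero (a.1 b) (hAdiag a ha b)
    refine ⟨a.1 b j j * (a.1 b l l)⁻¹, mul_ne_zero (hne j) (inv_ne_zero (hne l)), fun s => ?_⟩
    apply Prod.ext
    · funext b'
      show a.1 b' * (Pi.mulSingle b (SpecialLinearGroup.transvection hjl s) :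
            ∀ b, SpecialLinearGroup (Fin (n b)) ℝ) b' = (Pi.mulSingle b
            (SpecialLinearGroup.transvection hjl (a.1 b j j * (a.1 b l l)⁻¹ * s)) :
            ∀ b, SpecialLinearGroup (Fin (n b)) ℝ) b' * a.1 b'
      by_cases h : b' = b
      · subst h
        rw [Pi.mulSingle_eq_same, Pi.mulSingle_eq_same]
        exact diag_transvection (a.1 b') (hAdiag a ha b') hjl s
      · rw [Pi.mulSingle_eq_of_ne h, Pi.mulSingle_eq_of_ne h, one_mul, mul_one]
    · show a.2 * 1 = 1 * a.2
      rw [mul_one, one_mul]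
  · intro l₀ hl₀ e he
    refine ⟨_, hDA (Real.log l₀ / 2), l₀, by simpa using he, fun s => ?_⟩
    show emb n H b _ * emb n H b _ = emb n H b _ * emb n H b _
    rw [← map_mul, ← map_mul]
    congr 1
    rw [diag_transvection _ (oneParam_posDiag _ _ _).1 hjl s]
    congr 2
    have e1 : (oneParam (wt j l) (wt_sum j l) (Real.log l₀ / 2)).1 j j
        = Real.exp (Real.log l₀ / 2) := by
      rw [oneParam_coe, diagonal_apply_eq]
      unfold wt
      rw [if_pos rfl, if_neg hjl]
      ring_nf
    have e2 : (oneParam (wt j l) (wt_sum j l) (Real.log l₀ / 2)).1 l l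
        = Real.exp (-(Real.log l₀ / 2)) := by
      rw [oneParam_coe, diagonal_apply_eq]
      unfold wt
      rw [if_neg (Ne.symm hjl), if_pos rfl]
      ring_nf
    show (oneParam (wt j l) (wt_sum j l) (Real.log l₀ / 2)).1 j j
      * ((oneParam (wt j l) (wt_sum j l) (Real.log l₀ / 2)).1 l l)⁻¹ * s = l₀ * s
    rw [e1, e2, ← Real.exp_neg, neg_neg, ← Real.exp_add, add_halves, Real.exp_log hl₀]

theorem zero_one
    (A : Subgroup ((∀ b, SpecialLinearGroup (Fin (n b)) ℝ) × H))
    (hAdiag : ∀ a ∈ A, ∀ b i j, i ≠ j → a.1 b i j = 0)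
    (hAD : ∀ d : (∀ b, SpecialLinearGroup (Fin (n b)) ℝ), (∀ b, IsPosDiag (d b)) →
      (d, (1 : H)) ∈ A)
    (μ ν : Measure X) [IsProbabilityMeasure μ] [IsFiniteMeasure ν]
    (hμ : ∀ a ∈ A, μ.map (fun z => a • z) = μ)
    (herg : ∀ s : Set X, MeasurableSet s → (∀ a ∈ A, (fun z => a • z) ⁻¹' s =ᵐ[μ] s) →
      μ s = 0 ∨ μ sᶜ = 0)
    (x : ∀ b, Fin (n b) → ℝ) (hx : ∀ b, ∑ i, x b i = 0)
    (hν : ∀ t : ℝ, ν.map (fun z => ((fun b => oneParam (x b) (hx b) t), (1 : H)) • z) = ν)
    (g : (∀ b, SpecialLinearGroup (Fin (n b)) ℝ) × H)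
    (hns : ¬ (μ.map (fun z => g • z)) ⟂ₘ ν) (t : ℝ) :
    (μ.map (fun z => g • z)).map (fun z => ((fun b => oneParam (x b) (hx b) t), (1 : H)) • z)
      = μ.map (fun z => g • z) := by
  classical
  have hroot := root_inv A hAdiag hAD μ ν hμ herg x hx hν g hns
  -- each factor
  have hfac : ∀ b, emb n H b (cj (g.1 b) (x b) (hx b) t) ∈ (stabM μ : Subgroup _) := by
    intro b
    have := lie_closed ((stabM μ).comap (emb n H b)) ?_ ?_ (g.1 b) (x b) (hx b) ?_ t
    · exact this
    · intro k k' hk hlim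
      exact stab_closed μ (fun s => emb n H b (k s)) _ (((emb_cont b).tendsto _).comp hlim) hk
    · intro d hd
      refine hμ _ (hAD _ fun b' => ?_)
      by_cases h : b' = b
      · subst h
        rw [Pi.mulSingle_eq_same]
        exact hd
      · rw [Pi.mulSingle_eq_of_ne h]
        refine ⟨fun i k hik => Matrix.one_apply_ne hik, fun i => ?_⟩
        have : (1 : SpecialLinearGroup (Fin (n b')) ℝ) i i = 1 := Matrix.one_apply_eq i
        rw [this]
        exact one_pos
    · intro j l hjl hY s
      exact hroot b j l hjl hY s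
  -- the whole element
  have hall : ∀ F : Finset ι, ((fun b => if b ∈ F then cj (g.1 b) (x b) (hx b) t else 1), (1 : H))
      ∈ (stabM μ : Subgroup ((∀ b, SpecialLinearGroup (Fin (n b)) ℝ) × H)) := by
    intro F
    induction F using Finset.induction_on with
    | empty =>
      have : ((fun b => if b ∈ (∅ : Finset ι) then cj (g.1 b) (x b) (hx b) t else 1), (1 : H))
          = (1 : (∀ b, SpecialLinearGroup (Fin (n b)) ℝ) × H) := by
        apply Prod.ext
        · funext b
          simp
        · rfl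
      rw [this]
      exact Subgroup.one_mem _
    | insert b F hb ih =>
      have : ((fun b' => if b' ∈ insert b F then cj (g.1 b') (x b') (hx b') t else 1), (1 : H))
          = emb n H b (cj (g.1 b) (x b) (hx b) t) *
            ((fun b => if b ∈ F then cj (g.1 b) (x b) (hx b) t else 1), (1 : H)) := by
        apply Prod.ext
        · funext b'
          show _ = (Pi.mulSingle b (cj (g.1 b) (x b) (hx b) t) :
            ∀ b, SpecialLinearGroup (Fin (n b)) ℝ) b' * _
          by_cases h : b' = b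
          · subst h
            rw [Pi.mulSingle_eq_same]
            simp [hb]
          · rw [Pi.mulSingle_eq_of_ne h]
            simp [h]
        · show (1 : H) = 1 * 1
          rw [mul_one]
      rw [this]
      exact Subgroup.mul_mem _ (hfac b) ih
  have hfull : ((fun b => cj (g.1 b) (x b) (hx b) t), (1 : H))
      ∈ (stabM μ : Subgroup ((∀ b, SpecialLinearGroup (Fin (n b)) ℝ) × H)) := by
    have := hall Finset.univ
    simpa using this
  rw [map_map_smul]
  have hcomm : ((fun b => oneParam (x b) (hx b) t), (1 : H)) * g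
      = g * ((fun b => cj (g.1 b) (x b) (hx b) t), (1 : H)) := by
    apply Prod.ext
    · funext b
      show oneParam (x b) (hx b) t * g.1 b
        = g.1 b * ((g.1 b)⁻¹ * oneParam (x b) (hx b) t * g.1 b)
      rw [mul_assoc, mul_inv_cancel_left]
    · show 1 * g.2 = g.2 * 1
      rw [mul_one, one_mul]
  rw [hcomm, ← map_map_smul, mem_stabM.1 hfull]

end Pool.Agent.Work.MP_67388f_an
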