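import Mathlib

set_option autoImplicit false

namespace Pool.Agent.Work.MP_67388f_an

open Matrix

variable {n : ℕ}

/-- `diag (a at i, a⁻¹ at j)` as a product of transvections, in a general algebra. -/
lemma torus_alg {R : Type*} [Ring R] [Algebra ℝ R] (e f P Q : R) (hee : e * e = 0) (hff : f * f = 0)
    (hef : e * f = P) (hfe : f * e = Q) (hPe : P * e = e) (heQ : e * Q = e) (hQf : Q * f = f)
    (hfP : f * P = f) (hPf : P * f = 0) (hQe : Q * e = 0) (heP : e * P = 0) (hfQ : f * Q = 0)
    (hPP : P * P = P) (hQQ : Q * Q = Q) (hPQ : P * Q = 0) (hQP : Q * P = 0)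
    (a b : ℝ) (hab : a * b = 1) :
    ((1 + a • e) * (1 + (-b) • f) * (1 + a • e)) * ((1 + (-1 : ℝ) • e) * (1 + (1 : ℝ) • f) *
      (1 + (-1 : ℝ) • e)) = 1 + (a - 1) • P + (b - 1) • Q := by
  have h1 : ∀ c d : ℝ, c * d = 1 → (1 + c • e) * (1 + (-d) • f) * (1 + c • e)
      = 1 - P - Q + c • e - d • f := by
    intro c d hcd
    have : (1 + c • e) * (1 + (-d) • f) * (1 + c • e)
        = 1 + (2 * c) • e - d • f + (c * c) • (e * e) - (c * d) • (e * f) - (c * d) • (f * e)
          - (c * c * d) • (e * f * e) := by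
      simp only [add_mul, mul_add, one_mul, mul_one, smul_mul_assoc, mul_smul_comm]
      module
    rw [this, hee, hef, hfe, hPe, mul_assoc, hcd]
    module
  have h2 := h1 a b hab
  have h3 := h1 (-1) (-1) (by norm_num)
  rw [neg_neg] at h3
  rw [h2, h3]
  simp only [add_mul, sub_mul, mul_add, mul_sub, one_mul, mul_one, smul_mul_assoc, mul_smul_comm,
    hee, hff, hef, hfe, hPe, heQ, hQf, hfP, hPf, hQe, heP, hfQ, hPP, hQQ, hPQ, hQP]
  module

lemma torus_eq {i j : Fin n} (hij : i ≠ j) (a : ℝ) (ha : a ≠ 0) :
    ((SpecialLinearGroup.transvection hij a * SpecialLinearGroup.transvection hij.symm (-a⁻¹) *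
      SpecialLinearGroup.transvection hij a) * (SpecialLinearGroup.transvection hij (-1) *
      SpecialLinearGroup.transvection hij.symm 1 * SpecialLinearGroup.transvection hij (-1)) :
      SpecialLinearGroup (Fin n) ℝ).1 =
    diagonal (fun k => if k = i then a else if k = j then a⁻¹ else 1) := by
  have hji : j ≠ i := hij.symm
  have hT : ∀ (p q : Fin n) (h : p ≠ q) (c : ℝ),
      (SpecialLinearGroup.transvection h c : SpecialLinearGroup (Fin n) ℝ).1
        = 1 + c • Matrix.single p q 1 := by
    intro p q h c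
    show 1 + Matrix.single p q c = _
    rw [Matrix.smul_single, smul_eq_mul, mul_one]
  show ((SpecialLinearGroup.transvection hij a).1 * (SpecialLinearGroup.transvection hij.symm (-a⁻¹)).1
    * (SpecialLinearGroup.transvection hij a).1) * ((SpecialLinearGroup.transvection hij (-1)).1 *
      (SpecialLinearGroup.transvection hij.symm 1).1 * (SpecialLinearGroup.transvection hij (-1)).1)
      = _
  rw [hT, hT, hT, hT]
  rw [torus_alg (Matrix.single i j (1 : ℝ)) (Matrix.single j i 1) (Matrix.single i i 1)
    (Matrix.single j j 1) (by simp [hji]) (by simp [hij]) (by simp) (by simp) (by simp) (by simp)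
    (by simp) (by simp) (by simp [hij]) (by simp [hji]) (by simp [hji]) (by simp [hij]) (by simp)
    (by simp) (by simp [hij]) (by simp [hji]) a a⁻¹ (mul_inv_cancel₀ ha)]
  ext p q
  simp only [Matrix.add_apply, Matrix.smul_apply, Matrix.single_apply, Matrix.diagonal_apply,
    Matrix.one_apply, smul_eq_mul]
  by_cases hpq : p = q
  · subst hpq
    by_cases h1 : p = i
    · subst h1
      simp [hji]
    · by_cases h2 : p = j
      · subst h2
        simp [hij, hji]
      · simp [h1, h2, Ne.symm h1, Ne.symm h2]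
  · have h1 : ¬ (i = p ∧ i = q) := fun h => hpq (h.1.symm.trans h.2)
    have h2 : ¬ (j = p ∧ j = q) := fun h => hpq (h.1.symm.trans h.2)
    simp [hpq, h1, h2]

/-- `SL(n, ℝ)` is generated by the transvections. -/
theorem sl_gen (S : Subgroup (SpecialLinearGroup (Fin n) ℝ))
    (h : ∀ (i j : Fin n) (hij : i ≠ j) (s : ℝ), SpecialLinearGroup.transvection hij s ∈ S)
    (M : SpecialLinearGroup (Fin n) ℝ) : M ∈ S := by
  classical
  rcases Nat.eq_zero_or_pos n with hn | hn
  · subst hn
    have : M = 1 := Subtype.ext (Matrix.ext fun i => i.elim0)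
    rw [this]
    exact S.one_mem
  let o : Fin n := ⟨0, hn⟩
  -- diagonal matrices
  have hdiag : ∀ D : Fin n → ℝ, (∏ i, D i = 1) →
      ∃ N ∈ S, N.1 = diagonal D := by
    intro D hD
    have hne : ∀ i, D i ≠ 0 := fun i => Finset.prod_ne_zero_iff.1 (by rw [hD]; exact one_ne_zero) i
      (Finset.mem_univ i)
    have key : ∀ F : Finset (Fin n), o ∉ F → ∃ N ∈ S, N.1 = diagonal
        (fun k => if k ∈ F then D k else if k = o then (∏ i ∈ F, D i)⁻¹ else 1) := by
      intro F
      induction F using Finset.induction_on with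
      | empty =>
        intro _
        refine ⟨1, S.one_mem, ?_⟩
        show (1 : Matrix (Fin n) (Fin n) ℝ) = _
        simp
      | insert i F hi ih =>
        intro ho
        rw [Finset.mem_insert, not_or] at ho
        obtain ⟨N, hN, hNe⟩ := ih ho.2
        have hio : i ≠ o := fun h => ho.1 h.symm
        refine ⟨_, S.mul_mem (S.mul_mem (S.mul_mem (S.mul_mem (h i o hio (D i))
          (h o i hio.symm (-(D i)⁻¹))) (h i o hio (D i))) (S.mul_mem (S.mul_mem (h i o hio (-1))
          (h o i hio.symm 1)) (h i o hio (-1)))) hN, ?_⟩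
        show (_ : SpecialLinearGroup (Fin n) ℝ).1 * N.1 = _
        erw [torus_eq hio (D i) (hne i)]
        rw [hNe, diagonal_mul_diagonal]
        congr 1
        funext k
        by_cases hki : k = i
        · subst hki
          simp [hi, hio]
        · by_cases hko : k = o
          · subst hko
            rw [if_neg hki, if_pos rfl, if_neg ho.2, if_pos rfl, if_neg, if_pos rfl,
              Finset.prod_insert hi, mul_inv]
            rw [Finset.mem_insert, not_or]
            exact ⟨hki, ho.2⟩
          · rw [if_neg hki, if_neg hko, one_mul]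
            by_cases hkF : k ∈ F
            · rw [if_pos hkF, if_pos (Finset.mem_insert_of_mem hkF)]
            · rw [if_neg hkF, if_neg hko, if_neg, if_neg hko]
              rw [Finset.mem_insert, not_or]
              exact ⟨hki, hkF⟩
    obtain ⟨N, hN, hNe⟩ := key (Finset.univ.erase o) (by simp)
    refine ⟨N, hN, ?_⟩
    rw [hNe]
    congr 1
    funext k
    by_cases hko : k = o
    · subst hko
      rw [if_neg (by simp), if_pos rfl]
      have h1 := Finset.mul_prod_erase Finset.univ D (Finset.mem_univ o)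
      rw [hD] at h1
      exact (eq_inv_of_mul_eq_one_left h1).symm
    · rw [if_pos (by simp [hko])]
  have hP := Matrix.diagonal_transvection_induction
    (fun N : Matrix (Fin n) (Fin n) ℝ => ∃ K ∈ S, K.1 = N) M.1 ?_ ?_ ?_
  · obtain ⟨K, hK, hKM⟩ := hP
    rwa [← Subtype.ext hKM]
  · intro D hD
    refine hdiag D ?_
    rw [det_diagonal] at hD
    rw [hD, M.2]
  · intro t
    exact ⟨_, h t.i t.j t.hij t.c, rfl⟩
  · rintro A B ⟨K, hK, rfl⟩ ⟨K', hK', rfl⟩
    exact ⟨K * K', S.mul_mem hK hK', rfl⟩

end Pool.Agent.Work.MP_67388f_an
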