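import Mathlib

set_option autoImplicit false

namespace Pool.Agent.Work.MP_67388f_an

open Filter Topology Set

section ring

variable {R : Type*} [NormedRing R] [NormOneClass R] [NormedAlgebra ℝ R]

lemma pow_sub_pow_norm (a b : R) (B e : ℝ) (hB : 1 ≤ B) (ha : ‖a‖ ≤ B) (hb : ‖b‖ ≤ B)
    (he : ‖a - b‖ ≤ e) (k : ℕ) : ‖a ^ k - b ^ k‖ ≤ k * B ^ k * e := by
  have he0 : 0 ≤ e := (norm_nonneg _).trans he
  induction k with
  | zero => simp
  | succ k ih =>
    have h1 : a ^ (k + 1) - b ^ (k + 1) = a ^ k * (a - b) + (a ^ k - b ^ k) * b := by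
      rw [pow_succ, pow_succ]
      noncomm_ring
    have h2 : ‖a ^ k‖ ≤ B ^ k := (norm_pow_le a k).trans (pow_le_pow_left₀ (norm_nonneg _) ha k)
    have hBk : (1 : ℝ) ≤ B ^ k := one_le_pow₀ hB
    calc ‖a ^ (k + 1) - b ^ (k + 1)‖ = ‖a ^ k * (a - b) + (a ^ k - b ^ k) * b‖ := by rw [h1]
      _ ≤ ‖a ^ k * (a - b)‖ + ‖(a ^ k - b ^ k) * b‖ := norm_add_le _ _
      _ ≤ ‖a ^ k‖ * ‖a - b‖ + ‖a ^ k - b ^ k‖ * ‖b‖ := add_le_add (norm_mul_le _ _) (norm_mul_le _ _)
      _ ≤ B ^ k * e + (k * B ^ k * e) * B := by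
          refine add_le_add (mul_le_mul h2 he (norm_nonneg _) (by positivity)) ?_
          exact mul_le_mul ih hb (norm_nonneg _) (by positivity)
      _ ≤ B ^ (k + 1) * e + (k * B ^ k * e) * B := by
          have : B ^ k ≤ B ^ (k + 1) := pow_le_pow_right₀ hB (Nat.le_succ k)
          nlinarith
      _ = ((k + 1 : ℕ) : ℝ) * B ^ (k + 1) * e := by
          push_cast
          ring

/-- Two curves through `1` with the same derivative at `0` have the same power limits. -/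
theorem trotter (a b : ℝ → R) (Z : R) (ha0 : a 0 = 1) (hb0 : b 0 = 1)
    (ha : HasDerivAt a Z 0) (hb : HasDerivAt b Z 0) (t : ℝ) :
    Tendsto (fun m : ℕ => a (t / (m + 1)) ^ (m + 1) - b (t / (m + 1)) ^ (m + 1)) atTop (𝓝 0) := by
  have hs : Tendsto (fun m : ℕ => t / ((m : ℝ) + 1)) atTop (𝓝 0) := by
    have := tendsto_one_div_add_atTop_nhds_zero_nat (𝕜 := ℝ)
    have h2 := this.const_mul t
    rw [mul_zero] at h2
    refine h2.congr fun m => ?_
    rw [mul_one_div]
  -- bounds near 0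
  have hbound : ∀ c : ℝ → R, c 0 = 1 → HasDerivAt c Z 0 →
      ∀ᶠ s in 𝓝 (0 : ℝ), ‖c s‖ ≤ 1 + (‖Z‖ + 1) * |s| := by
    intro c hc0 hc
    have h1 := hc.isLittleO
    have h2 := h1.def (show (0 : ℝ) < 1 by norm_num)
    filter_upwards [h2] with s hs
    rw [hc0, sub_zero, one_mul] at hs
    have h3 : c s = 1 + s • Z + (c s - 1 - s • Z) := by abel
    calc ‖c s‖ = ‖1 + s • Z + (c s - 1 - s • Z)‖ := by rw [← h3]
      _ ≤ ‖(1 : R) + s • Z‖ + ‖c s - 1 - s • Z‖ := norm_add_le _ _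
      _ ≤ (‖(1 : R)‖ + ‖s • Z‖) + ‖s‖ := add_le_add (norm_add_le _ _) hs
      _ = 1 + (‖Z‖ + 1) * |s| := by
          rw [norm_one, norm_smul, Real.norm_eq_abs]
          ring
  rw [tendsto_zero_iff_norm_tendsto_zero]
  rw [Metric.tendsto_nhds]
  intro e he
  set C : ℝ := ‖Z‖ + 1 with hC
  have hC0 : 0 ≤ C := by positivity
  set e' : ℝ := e / (2 * (Real.exp (C * |t|) * (|t| + 1))) with he'
  have hden : 0 < 2 * (Real.exp (C * |t|) * (|t| + 1)) := by positivity
  have he'0 : 0 < e' := by positivity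
  have hdiff : ∀ᶠ s in 𝓝 (0 : ℝ), ‖a s - b s‖ ≤ e' * |s| := by
    have h1 := (ha.sub hb).isLittleO
    have h2 := h1.def he'0
    filter_upwards [h2] with s hs
    simpa [ha0, hb0, Real.norm_eq_abs] using hs
  filter_upwards [hs.eventually hdiff, hs.eventually (hbound a ha0 ha),
    hs.eventually (hbound b hb0 hb)] with m h1 h2 h3
  rw [Real.dist_eq, sub_zero, abs_of_nonneg (norm_nonneg _)]
  have hm : (0 : ℝ) < (m : ℝ) + 1 := by positivity
  set B : ℝ := 1 + C * |t / ((m : ℝ) + 1)| with hB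
  have hB1 : 1 ≤ B := by
    rw [hB]
    have : 0 ≤ C * |t / ((m : ℝ) + 1)| := by positivity
    linarith
  have h4 := pow_sub_pow_norm (a (t / (m + 1))) (b (t / (m + 1))) B _ hB1 h2 h3 h1 (m + 1)
  refine lt_of_le_of_lt h4 ?_
  have habs : |t / ((m : ℝ) + 1)| = |t| / (m + 1) := by
    rw [abs_div, abs_of_pos hm]
  have hBpow : B ^ (m + 1) ≤ Real.exp (C * |t|) := by
    have h5 : B ≤ Real.exp (C * (|t| / (m + 1))) := by
      rw [hB, habs, add_comm]
      exact Real.add_one_le_exp _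
    calc B ^ (m + 1) ≤ Real.exp (C * (|t| / (m + 1))) ^ (m + 1) :=
          pow_le_pow_left₀ (by linarith) h5 _
      _ = Real.exp (C * |t|) := by
          rw [← Real.exp_nat_mul]
          congr 1
          push_cast
          field_simp
  calc (((m + 1 : ℕ) : ℝ)) * B ^ (m + 1) * (e' * |t / ((m : ℝ) + 1)|)
      = B ^ (m + 1) * (e' * |t|) := by
        rw [habs]
        push_cast
        field_simp
    _ ≤ Real.exp (C * |t|) * (e' * |t|) :=
        mul_le_mul_of_nonneg_right hBpow (by positivity)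
    _ ≤ Real.exp (C * |t|) * (e' * (|t| + 1)) := by
        refine mul_le_mul_of_nonneg_left ?_ (Real.exp_pos _).le
        exact mul_le_mul_of_nonneg_left (by linarith) he'0.le
    _ = e / 2 := by
        rw [he']
        field_simp
    _ < e := by linarith

end ring

end Pool.Agent.Work.MP_67388f_an
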